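import Mathlib
import Pool.Agent.Y14.Grp
import Pool.Agent.Y15.PotF

/-!
# Transports along different monotone paths with the same ends are close
-/

open MeasureTheory Matrix Filter
open scoped Matrix.Norms.Frobenius Topology
open Pool.Agent.H906R3.YM hiding Pl
open Pool.Agent.W793.YM Pool.Agent.TH618.YM
open Pool.Agent.Y14

namespace Pool.Agent.Q234.SQ

set_option linter.unusedSectionVars false
set_option linter.unusedVariables false

noncomputable section

variable {G : Type*} [Group G] [TopologicalSpace G] [IsTopologicalGroup G] [CompactSpace G]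
  [SecondCountableTopology G] [MeasurableSpace G] [BorelSpace G] (μ : Measure G)
  [IsProbabilityMeasure μ] [μ.IsMulLeftInvariant] [μ.IsMulRightInvariant] [μ.IsInvInvariant]
  {N n : ℕ} {L : LD G N n} {d m : ℕ} [NeZero m] {β : ℝ}

variable (L) in
/-- the transports along `w` and `w'` are close -/
def CL (m : ℕ) [NeZero m] (β : ℝ) (w w' : List (Fin d)) (b : ℝ) : Prop :=
  (∀ j, w.count j = w'.count j) ∧ ∀ x : Fin d → ZMod (2 * m),
    en μ L β (fun U => dd L (tp eT U x w) (tp eT U x w')) ≤ b

variable (L) in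
/-- the small rectangles are close to the identity -/
def HR (d m : ℕ) [NeZero m] (β κ r : ℝ) : Prop :=
  0 ≤ κ ∧ ∀ (i j : Fin d) (x : Fin d → ZMod (2 * m)) (a b : ℕ) (s : ℝ), i ≠ j → (a : ℝ) ≤ s →
    (b : ℝ) ≤ s → s ≤ r →
    en μ L β (fun U => dd L (tp eT U x (List.replicate a i ++ List.replicate b j))
      (tp eT U x (List.replicate b j ++ List.replicate a i))) ≤ κ * Real.sqrt s

lemma dsp_of_count {w w' : List (Fin d)} (h : ∀ j, w.count j = w'.count j) :
    (dsp eT w : Fin d → ZMod (2 * m)) = dsp eT w' := by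
  funext j
  rw [dsp_apply, dsp_apply, h]

variable {w w' w'' w1 w1' w2 w2' : List (Fin d)} {b b' κ r : ℝ}

lemma CL.refl (w : List (Fin d)) : CL μ L m β w w 0 :=
  ⟨fun _ => rfl, fun x => by simp only [dd_self, en_zero, le_refl]⟩

lemma CL.symm (h : CL μ L m β w w' b) : CL μ L m β w' w b := by
  refine ⟨fun j => (h.1 j).symm, fun x => ?_⟩
  have e : (fun U : Ed d (2 * m) → G => dd L (tp eT U x w') (tp eT U x w)) =
      fun U => dd L (tp eT U x w) (tp eT U x w') := by
    funext U; exact dd_comm _ _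
  rw [e]
  exact h.2 x

lemma CL.trans (h : CL μ L m β w w' b) (h' : CL μ L m β w' w'' b') :
    CL μ L m β w w'' (b + b') :=
  ⟨fun j => (h.1 j).trans (h'.1 j), fun x =>
    (en_tri μ (tp_cont _ _) (tp_cont (u := eT) x w') (tp_cont _ _)).trans
      (add_le_add (h.2 x) (h'.2 x))⟩

lemma CL.mono (h : CL μ L m β w w' b) (hb : b ≤ b') : CL μ L m β w w' b' :=
  ⟨h.1, fun x => (h.2 x).trans hb⟩

lemma CL.app (h1 : CL μ L m β w1 w1' b) (h2 : CL μ L m β w2 w2' b') :
    CL μ L m β (w1 ++ w2) (w1' ++ w2') (b + b') := by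
  refine ⟨fun j => by rw [List.count_append, List.count_append, h1.1 j, h2.1 j], fun x => ?_⟩
  have hd : (dsp eT w1 : Fin d → ZMod (2 * m)) = dsp eT w1' := dsp_of_count h1.1
  refine (en_tri μ (tp_cont _ _) (tp_cont (u := eT) x (w1' ++ w2)) (tp_cont _ _)).trans ?_
  refine add_le_add ?_ ?_
  · have e : (fun U : Ed d (2 * m) → G => dd L (tp eT U x (w1 ++ w2)) (tp eT U x (w1' ++ w2))) =
        fun U => dd L (tp eT U x w1) (tp eT U x w1') := by
      funext U
      rw [tp_append, tp_append, hd, dd_rmul]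
    rw [e]
    exact h1.2 x
  · have e : (fun U : Ed d (2 * m) → G => dd L (tp eT U x (w1' ++ w2)) (tp eT U x (w1' ++ w2'))) =
        fun U => dd L (tp eT U (x + dsp eT w1') w2) (tp eT U (x + dsp eT w1') w2') := by
      funext U
      rw [tp_append, tp_append, dd_lmul]
    rw [e]
    exact h2.2 _

lemma CL.appl (w0 : List (Fin d)) (h : CL μ L m β w w' b) :
    CL μ L m β (w0 ++ w) (w0 ++ w') b := by
  have := (CL.refl μ (L := L) (m := m) (β := β) w0).app μ h
  rwa [zero_add] at this

lemma CL.appr (w0 : List (Fin d)) (h : CL μ L m β w w' b) :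
    CL μ L m β (w ++ w0) (w' ++ w0) b := by
  have := h.app μ (CL.refl μ (L := L) (m := m) (β := β) w0)
  rwa [add_zero] at this

lemma CL.swap (h : HR μ L d m β κ r) {i j : Fin d} (hij : i ≠ j) {a b : ℕ} {s : ℝ}
    (ha : (a : ℝ) ≤ s) (hb : (b : ℝ) ≤ s) (hs : s ≤ r) :
    CL μ L m β (List.replicate a i ++ List.replicate b j)
      (List.replicate b j ++ List.replicate a i) (κ * Real.sqrt s) :=
  ⟨fun k => by rw [List.count_append, List.count_append, add_comm], fun x =>
    h.2 i j x a b s hij ha hb hs⟩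

lemma CL.move (h : HR μ L d m β κ r) {i : Fin d} {nn : ℕ} {s : ℝ} (hn : (nn : ℝ) ≤ s)
    (hs : s ≤ r) {v : Fin d → ℕ} (hv : ∀ k, (v k : ℝ) ≤ s) {K : List (Fin d)} (hi : i ∉ K) :
    CL μ L m β (cmb v K ++ List.replicate nn i) (List.replicate nn i ++ cmb v K)
      (K.length * (κ * Real.sqrt s)) := by
  induction K with
  | nil =>
    simp only [cmb, List.nil_append, List.append_nil, List.length_nil, Nat.cast_zero, zero_mul]
    exact CL.refl μ _
  | cons k K ih =>
    have hik : i ≠ k := fun h => hi (h ▸ List.mem_cons_self)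
    have hiK : i ∉ K := fun h => hi (List.mem_cons_of_mem _ h)
    have h1 := (ih hiK).appl μ (List.replicate (v k) k)
    have h2 := (CL.swap μ (L := L) (m := m) (β := β) h hik.symm (hv k) hn hs).appr μ (cmb v K)
    have h3 := h1.trans μ (by rw [← List.append_assoc]; exact h2)
    rw [cmb_cons, List.append_assoc, ← List.append_assoc (List.replicate nn i)]
    refine h3.mono μ (le_of_eq ?_)
    rw [List.length_cons]; push_cast; ring

lemma CL.ins (h : HR μ L d m β κ r) {i : Fin d} {nn : ℕ} {s : ℝ} (hn : (nn : ℝ) ≤ s)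
    (hs : s ≤ r) {v : Fin d → ℕ} (hv : ∀ k, (v k : ℝ) ≤ s) {K : List (Fin d)} (hK : K.Nodup)
    (hi : i ∈ K) :
    CL μ L m β (cmb v K ++ List.replicate nn i)
      (cmb (fun k => v k + if k = i then nn else 0) K) (K.length * (κ * Real.sqrt s)) := by
  have hb0 : 0 ≤ κ * Real.sqrt s := mul_nonneg h.1 (Real.sqrt_nonneg _)
  induction K with
  | nil => simp at hi
  | cons k K ih =>
    have hk := List.nodup_cons.1 hK
    by_cases hki : k = i
    · subst hki
      have e2 : cmb (fun k' => v k' + if k' = k then nn else 0) (k :: K) =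
          List.replicate (v k) k ++ (List.replicate nn k ++ cmb v K) := by
        rw [cmb_cons, if_pos rfl, ← List.replicate_append_replicate, List.append_assoc]
        congr 2
        refine cmb_congr fun k' hk' => ?_
        have : k' ≠ k := fun h => hk.1 (h ▸ hk')
        simp [this]
      rw [e2, cmb_cons, List.append_assoc]
      refine ((CL.move μ h hn hs hv hk.1).appl μ _).mono μ ?_
      rw [List.length_cons]
      push_cast
      linarith
    · have hiK : i ∈ K := by
        rcases List.mem_cons.1 hi with h | h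
        · exact absurd h.symm hki
        · exact h
      rw [cmb_cons, cmb_cons, if_neg hki, add_zero, List.append_assoc]
      refine ((ih hk.2 hiK).appl μ _).mono μ ?_
      rw [List.length_cons]
      push_cast
      linarith

/-- the comb with a step added -/
lemma CL.rep (h : HR μ L d m β κ r) {nn : ℕ} {s : ℝ} (hn : (nn : ℝ) ≤ s)
    (hs : s ≤ r) {v : Fin d → ℕ} (hv : ∀ k, (v k : ℝ) ≤ s) (i : Fin d) :
    CL μ L m β (cb v ++ List.replicate nn i) (cb fun k => v k + if k = i then nn else 0)
      (d * (κ * Real.sqrt s)) := by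
  have h1 := CL.ins μ (L := L) (m := m) (β := β) h hn hs hv (List.nodup_finRange d)
    (List.mem_finRange i)
  rw [List.length_finRange] at h1
  exact h1

lemma CL.cmb (h : HR μ L d m β κ r) {s : ℝ} (hs : s ≤ r) {v v' : Fin d → ℕ}
    (hv0 : ∀ k, (v k : ℝ) ≤ s) {K : List (Fin d)} (hv : ∀ k ∈ K, ((v k + v' k : ℕ) : ℝ) ≤ s)
    (hK : K.Nodup) :
    CL μ L m β (cb v ++ Y14.cmb v' K) (cb fun k => v k + if k ∈ K then v' k else 0)
      (K.length * (d * (κ * Real.sqrt s))) := by
  induction K generalizing v with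
  | nil =>
    simp only [Y14.cmb, List.append_nil, List.not_mem_nil, if_false, add_zero, List.length_nil,
      Nat.cast_zero, zero_mul]
    exact CL.refl μ _
  | cons k K ih =>
    have hk := List.nodup_cons.1 hK
    have hvk := hv k List.mem_cons_self
    have hvk' : ((v' k : ℕ) : ℝ) ≤ s := by
      refine le_trans ?_ hvk
      exact_mod_cast Nat.le_add_left _ _
    have h1 := (CL.rep μ (L := L) (m := m) (β := β) h hvk' hs hv0 k).appr μ (Y14.cmb v' K)
    have h2 := ih (v := fun k' => v k' + if k' = k then v' k else 0)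
      (fun k' => by
        by_cases hkk : k' = k
        · subst hkk; simpa using hvk
        · simpa [hkk] using hv0 k')
      (fun k' hk' => by
        have hkk : k' ≠ k := fun h => hk.1 (h ▸ hk')
        simpa [hkk] using hv k' (List.mem_cons_of_mem _ hk')) hk.2
    have h3 := h1.trans μ h2
    rw [cmb_cons, ← List.append_assoc]
    have e : (fun k_1 => v k_1 + if k_1 ∈ k :: K then v' k_1 else 0) =
        fun k_1 => (v k_1 + if k_1 = k then v' k else 0) + if k_1 ∈ K then v' k_1 else 0 := by
      funext k'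
      by_cases hkk : k' = k
      · subst hkk
        simp [hk.1]
      · simp [hkk]
    rw [e]
    refine h3.mono μ (le_of_eq ?_)
    rw [List.length_cons]
    push_cast; ring

/-- the sum of two combs -/
lemma CL.cb (h : HR μ L d m β κ r) {s : ℝ} (hs : s ≤ r) {v v' : Fin d → ℕ}
    (hv : ∀ k, ((v k + v' k : ℕ) : ℝ) ≤ s) :
    CL μ L m β (cb v ++ Y14.cb v') (Y14.cb fun k => v k + v' k)
      (d * (d * (κ * Real.sqrt s))) := by
  have h1 := CL.cmb μ (L := L) (m := m) (β := β) h hs (v := v) (v' := v')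
    (fun k => le_trans (by exact_mod_cast Nat.le_add_right _ _) (hv k))
    (K := List.finRange d) (fun k _ => hv k) (List.nodup_finRange d)
  have e : (fun k => v k + if k ∈ List.finRange d then v' k else 0) = fun k => v k + v' k := by
    funext k; simp
  rw [e, List.length_finRange] at h1
  exact h1

/-- the bound of the rectangles -/
lemma HR_of (hN : 1 ≤ N) (hd : 3 ≤ d) (hβ : 3 ≤ β) (hm : 2 ≤ m) {r : ℝ} (hr : 3 * r ≤ β)
    (hrm : r ≤ m) : HR μ L d m β (Y15.cA N * Real.log β / Real.sqrt β) r := by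
  have hβ0 : 0 < β := by linarith
  have hA := (Y15.cA_pos hN).le
  have hlog : 0 ≤ Real.log β := Real.log_nonneg (by linarith)
  refine ⟨div_nonneg (mul_nonneg hA hlog) (Real.sqrt_nonneg _), fun i j x a b s hij ha hb hs => ?_⟩
  simp only [dd_swap]
  have h0 : EX μ L β (fun U : Ed d (2 * m) → G => dv L (rect U x i j a b) ^ 2) =
      EX μ L β (fun U : Ed d (2 * m) → G => dv L (rect U 0 i j a b) ^ 2) := by
    rw [← EX_tr μ x (fun U : Ed d (2 * m) → G => dv L (rect U 0 i j a b) ^ 2)]
    simp only [rect_tr, zero_add]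
  have h1 : en μ L β (fun U : Ed d (2 * m) → G => dv L (rect U x i j a b)) =
      Y15.uu μ L m β i j a b := by
    unfold en Y15.uu
    rw [h0, EX_dv_rect μ hN]
  rw [h1]
  obtain ⟨K, hK⟩ : ∃ K, K = max a b := ⟨_, rfl⟩
  have hKs : (K : ℝ) ≤ s := by
    rw [hK]; push_cast; exact max_le ha hb
  have hKm : K ≤ m := by
    have : (K : ℝ) ≤ m := by linarith
    exact_mod_cast this
  refine (Y15.tor_low' μ (L := L) hN hd hβ m hm hij a b K (by rw [hK]; exact le_max_left _ _)
    (by rw [hK]; exact le_max_right _ _) (by linarith) hKm).trans ?_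
  have h2 : Real.sqrt (K / β) ≤ Real.sqrt s / Real.sqrt β := by
    rw [← Real.sqrt_div' _ hβ0.le]
    exact Real.sqrt_le_sqrt (div_le_div_of_nonneg_right hKs hβ0.le)
  calc _ ≤ Y15.cA N * Real.log β * (Real.sqrt s / Real.sqrt β) :=
        mul_le_mul_of_nonneg_left h2 (mul_nonneg hA hlog)
    _ = _ := by ring

end

end Pool.Agent.Q234.SQ
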