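import Mathlib
import Pool.Agent.Q234.SQ.Close
import Pool.Agent.Y14.Par

/-!
# Dyadic words
-/

open MeasureTheory Matrix Filter
open scoped Matrix.Norms.Frobenius Topology
open Pool.Agent.H906R3.YM hiding Pl
open Pool.Agent.W793.YM Pool.Agent.TH618.YM
open Pool.Agent.Y14

namespace Pool.Agent.Q234.SQ

set_option linter.unusedSectionVars false
set_option linter.unusedVariables false

noncomputable section

section words

variable {d : ℕ}

/-- path from the origin to `v` through the points `v / 2 ^ k` -/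
def fan : ℕ → (Fin d → ℕ) → List (Fin d)
  | 0, _ => []
  | n + 1, v => fan n (fun j => v j / 2) ++ cb (fun j => v j - v j / 2)

/-- path from `z - v` to `z` through the points `z - v / 2 ^ k` -/
def bfan : ℕ → (Fin d → ℕ) → List (Fin d)
  | 0, _ => []
  | n + 1, v => cb (fun j => v j - v j / 2) ++ bfan n (fun j => v j / 2)

/-- path from the origin to `v` along the dyadic digits -/
def dyw : ℕ → (Fin d → ℕ) → List (Fin d)
  | 0, v => cb v
  | n + 1, v => cb (fun j => 2 ^ n * (v j / 2 ^ n)) ++ dyw n (fun j => v j % 2 ^ n)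

lemma count_fan {n : ℕ} {v : Fin d → ℕ} (hv : ∀ j, v j < 2 ^ n) (j : Fin d) :
    (fan n v).count j = v j := by
  induction n generalizing v with
  | zero =>
    have := hv j
    simp only [pow_zero] at this
    simp only [fan, List.count_nil]
    omega
  | succ n ih =>
    simp only [fan]
    rw [List.count_append, count_cb, ih fun k => ?_]
    · omega
    · have := hv k
      rw [pow_succ] at this
      omega

lemma count_bfan {n : ℕ} {v : Fin d → ℕ} (hv : ∀ j, v j < 2 ^ n) (j : Fin d) :
    (bfan n v).count j = v j := by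
  induction n generalizing v with
  | zero =>
    have := hv j
    simp only [pow_zero] at this
    simp only [bfan, List.count_nil]
    omega
  | succ n ih =>
    simp only [bfan]
    rw [List.count_append, count_cb, ih fun k => ?_]
    · omega
    · have := hv k
      rw [pow_succ] at this
      omega

lemma count_dyw (n : ℕ) (v : Fin d → ℕ) (j : Fin d) : (dyw n v).count j = v j := by
  induction n generalizing v with
  | zero => simp only [dyw]; exact count_cb v j
  | succ n ih =>
    simp only [dyw]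
    rw [List.count_append, count_cb, ih]
    exact Nat.div_add_mod (v j) (2 ^ n)

/-- the size of the loops between neighbouring points -/
def Gc : ℕ → ℕ → ℕ
  | 0, _ => 1
  | n + 1, a => if a % 2 ^ n + 1 = 2 ^ n then 2 ^ (n + 1) else Gc n (a % 2 ^ n)

lemma sum_Gc (n : ℕ) : ∑ a ∈ Finset.range (2 ^ n), Gc n a ≤ 2 ^ n * (2 * n + 1) := by
  induction n with
  | zero => simp [Gc]
  | succ n ih =>
    have hp : 0 < 2 ^ n := by positivity
    have h1 : ∀ a, Gc (n + 1) a ≤ (if a % 2 ^ n = 2 ^ n - 1 then 2 ^ (n + 1) else 0) +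
        Gc n (a % 2 ^ n) := by
      intro a
      simp only [Gc]
      split_ifs with h2 h3
      · omega
      · omega
      · omega
      · omega
    have h2 : ∑ a ∈ Finset.range (2 ^ (n + 1)), Gc (n + 1) a ≤
        ∑ a ∈ Finset.range (2 ^ (n + 1)), ((if a % 2 ^ n = 2 ^ n - 1 then 2 ^ (n + 1) else 0) +
        Gc n (a % 2 ^ n)) := Finset.sum_le_sum fun a _ => h1 a
    refine h2.trans ?_
    have hrg : Finset.range (2 ^ (n + 1)) = Finset.range (2 ^ n + 2 ^ n) := by
      rw [pow_succ, mul_two]
    rw [hrg, Finset.sum_range_add]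
    have h3 : ∑ a ∈ Finset.range (2 ^ n), ((if a % 2 ^ n = 2 ^ n - 1 then 2 ^ (n + 1) else 0) +
        Gc n (a % 2 ^ n)) ≤ 2 ^ (n + 1) + 2 ^ n * (2 * n + 1) := by
      have h4 : ∀ a ∈ Finset.range (2 ^ n), ((if a % 2 ^ n = 2 ^ n - 1 then 2 ^ (n + 1) else 0) +
        Gc n (a % 2 ^ n)) = (if a = 2 ^ n - 1 then 2 ^ (n + 1) else 0) + Gc n a := by
        intro a ha
        rw [Nat.mod_eq_of_lt (Finset.mem_range.1 ha)]
      rw [Finset.sum_congr rfl h4, Finset.sum_add_distrib, Finset.sum_ite_eq',
        if_pos (Finset.mem_range.2 (by omega))]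
      omega
    have h5 : ∑ a ∈ Finset.range (2 ^ n), ((if (2 ^ n + a) % 2 ^ n = 2 ^ n - 1 then 2 ^ (n + 1)
        else 0) + Gc n ((2 ^ n + a) % 2 ^ n)) ≤ 2 ^ (n + 1) + 2 ^ n * (2 * n + 1) := by
      refine le_trans (le_of_eq ?_) h3
      refine Finset.sum_congr rfl fun a _ => ?_
      rw [Nat.add_mod_left]
    refine (add_le_add h3 h5).trans (le_of_eq ?_)
    rw [pow_succ]
    ring

lemma Gc_pos (n a : ℕ) : 1 ≤ Gc n a := by
  induction n generalizing a with
  | zero => simp [Gc]
  | succ n ih =>
    simp only [Gc]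
    split_ifs
    · exact Nat.one_le_two_pow
    · exact ih _

end words

section close

variable {G : Type*} [Group G] [TopologicalSpace G] [IsTopologicalGroup G] [CompactSpace G]
  [SecondCountableTopology G] [MeasurableSpace G] [BorelSpace G] (μ : Measure G)
  [IsProbabilityMeasure μ] [μ.IsMulLeftInvariant] [μ.IsMulRightInvariant] [μ.IsInvInvariant]
  {N n : ℕ} {L : LD G N n} {d m : ℕ} [NeZero m] {β κ r : ℝ}

/-- the unit of the errors -/
def un (d : ℕ) (κ s : ℝ) : ℝ := d * (d * (κ * Real.sqrt s))

lemma un_nonneg (hκ : 0 ≤ κ) (s : ℝ) : 0 ≤ un d κ s := by unfold un; positivity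

lemma un_mono (hκ : 0 ≤ κ) {s t : ℝ} (h : s ≤ t) : un d κ s ≤ un d κ t := by
  unfold un
  have := Real.sqrt_le_sqrt h
  gcongr

lemma four_step (hκ : 0 ≤ κ) {s : ℝ} (hs : 0 ≤ s) : 4 * un d κ (s / 2) + un d κ s ≤
    4 * un d κ s := by
  have h1 : Real.sqrt (s / 2) ≤ 3 / 4 * Real.sqrt s := by
    have h2 : (3 : ℝ) / 4 = Real.sqrt (9 / 16) := by
      rw [show (9 : ℝ) / 16 = (3 / 4) ^ 2 by norm_num, Real.sqrt_sq (by norm_num)]
    rw [h2, ← Real.sqrt_mul (by norm_num)]
    exact Real.sqrt_le_sqrt (by linarith)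
  have h3 : un d κ (s / 2) ≤ 3 / 4 * un d κ s := by
    unfold un
    have h4 : κ * Real.sqrt (s / 2) ≤ κ * (3 / 4 * Real.sqrt s) :=
      mul_le_mul_of_nonneg_left h1 hκ
    have h5 := mul_le_mul_of_nonneg_left h4 (Nat.cast_nonneg d : (0 : ℝ) ≤ d)
    have h6 := mul_le_mul_of_nonneg_left h5 (Nat.cast_nonneg d : (0 : ℝ) ≤ d)
    calc _ ≤ _ := h6
      _ = _ := by ring
  linarith

lemma half_le {a : ℕ} {s : ℝ} (h : (a : ℝ) ≤ s) : ((a / 2 : ℕ) : ℝ) ≤ s / 2 := by
  have h1 : ((a / 2 : ℕ) : ℝ) * 2 ≤ a := by exact_mod_cast Nat.div_mul_le_self a 2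
  linarith

theorem CL.fan (h : HR μ L d m β κ r) {n : ℕ} {v : Fin d → ℕ} (hv : ∀ j, v j < 2 ^ n) {s : ℝ}
    (hs0 : 0 ≤ s) (hs : s ≤ r) (hvs : ∀ j, (v j : ℝ) ≤ s) :
    CL μ L m β (SQ.fan n v) (Y14.cb v) (4 * un d κ s) := by
  induction n generalizing v s with
  | zero =>
    have h0 : v = fun _ => 0 := by
      funext j
      have := hv j
      simp only [pow_zero] at this
      omega
    rw [h0]
    have h1 : Y14.cb (fun _ : Fin d => 0) = [] := cmb_zero _
    rw [h1]
    simp only [SQ.fan]
    refine (CL.refl μ _).mono μ ?_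
    have := un_nonneg (d := d) h.1 s
    linarith
  | succ n ih =>
    have h2 : ∀ j, v j / 2 < 2 ^ n := fun j => by
      have := hv j
      rw [pow_succ] at this
      omega
    have h1 := (ih h2 (s := s / 2) (by linarith) (by linarith) fun j => half_le (hvs j)).appr μ
      (Y14.cb fun j => v j - v j / 2)
    have h3 := CL.cb μ (L := L) (m := m) (β := β) h hs (v := fun j => v j / 2)
      (v' := fun j => v j - v j / 2) fun j => by
        have : v j / 2 + (v j - v j / 2) = v j := by omega
        rw [this]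
        exact hvs j
    have e : (fun k => v k / 2 + (v k - v k / 2)) = v := by
      funext k; omega
    rw [e] at h3
    simp only [SQ.fan]
    exact (h1.trans μ h3).mono μ (four_step h.1 hs0)

theorem CL.bfan (h : HR μ L d m β κ r) {n : ℕ} {v : Fin d → ℕ} (hv : ∀ j, v j < 2 ^ n) {s : ℝ}
    (hs0 : 0 ≤ s) (hs : s ≤ r) (hvs : ∀ j, (v j : ℝ) ≤ s) :
    CL μ L m β (SQ.bfan n v) (Y14.cb v) (4 * un d κ s) := by
  induction n generalizing v s with
  | zero =>
    have h0 : v = fun _ => 0 := by
      funext j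
      have := hv j
      simp only [pow_zero] at this
      omega
    rw [h0]
    have h1 : Y14.cb (fun _ : Fin d => 0) = [] := cmb_zero _
    rw [h1]
    simp only [SQ.bfan]
    refine (CL.refl μ _).mono μ ?_
    have := un_nonneg (d := d) h.1 s
    linarith
  | succ n ih =>
    have h2 : ∀ j, v j / 2 < 2 ^ n := fun j => by
      have := hv j
      rw [pow_succ] at this
      omega
    have h1 := (ih h2 (s := s / 2) (by linarith) (by linarith) fun j => half_le (hvs j)).appl μ
      (Y14.cb fun j => v j - v j / 2)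
    have h3 := CL.cb μ (L := L) (m := m) (β := β) h hs (v := fun j => v j - v j / 2)
      (v' := fun j => v j / 2) fun j => by
        have : (v j - v j / 2) + v j / 2 = v j := by omega
        rw [this]
        exact hvs j
    have e : (fun k => (v k - v k / 2) + v k / 2) = v := by
      funext k; omega
    rw [e] at h3
    simp only [SQ.bfan]
    exact (h1.trans μ h3).mono μ (four_step h.1 hs0)

theorem CL.dyw (h : HR μ L d m β κ r) {n : ℕ} {v : Fin d → ℕ} (hv : ∀ j, v j < 2 ^ n)
    (hr : (2 : ℝ) ^ n ≤ r) : CL μ L m β (SQ.dyw n v) (Y14.cb v) (4 * un d κ (2 ^ n)) := by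
  induction n generalizing v with
  | zero =>
    simp only [SQ.dyw]
    refine (CL.refl μ _).mono μ ?_
    have := un_nonneg (d := d) h.1 ((2 : ℝ) ^ 0)
    linarith
  | succ n ih =>
    have hp : 0 < 2 ^ n := by positivity
    have hp' : (2 : ℝ) ^ n = 2 ^ (n + 1) / 2 := by rw [pow_succ]; ring
    have h0 : (0 : ℝ) < 2 ^ n := by positivity
    have h1 := (ih (v := fun j => v j % 2 ^ n) (fun j => Nat.mod_lt _ hp)
      (by linarith)).appl μ (Y14.cb fun j => 2 ^ n * (v j / 2 ^ n))
    have h3 := CL.cb μ (L := L) (m := m) (β := β) h hr (v := fun j => 2 ^ n * (v j / 2 ^ n))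
      (v' := fun j => v j % 2 ^ n) fun j => by
        rw [Nat.div_add_mod]
        exact_mod_cast (hv j).le
    have e : (fun k => 2 ^ n * (v k / 2 ^ n) + v k % 2 ^ n) = v := by
      funext k; exact Nat.div_add_mod _ _
    rw [e] at h3
    simp only [SQ.dyw]
    refine (h1.trans μ h3).mono μ ?_
    rw [hp']
    exact four_step h.1 (by positivity)

/-- neighbouring points -/
theorem CL.dyw_step (h : HR μ L d m β κ r) {n : ℕ} {v : Fin d → ℕ} (hv : ∀ k, v k < 2 ^ n)
    {j : Fin d} (hj : v j + 1 < 2 ^ n) (hr : (2 : ℝ) ^ n ≤ r) :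
    CL μ L m β (SQ.dyw n v ++ List.replicate 1 j) (SQ.dyw n fun k => v k + if k = j then 1 else 0)
      (9 * un d κ (Gc n (v j))) := by
  induction n generalizing v with
  | zero => simp at hj
  | succ n ih =>
    have hp : 0 < 2 ^ n := by positivity
    have h0 : (1 : ℝ) ≤ 2 ^ n := one_le_pow₀ (by norm_num)
    have hp' : (2 : ℝ) ^ (n + 1) = 2 ^ n * 2 := by rw [pow_succ]
    by_cases hc : v j % 2 ^ n + 1 = 2 ^ n
    · have hG : Gc (n + 1) (v j) = 2 ^ (n + 1) := by
        simp only [Gc]
        rw [if_pos hc]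
      rw [hG]
      push_cast
      have h1 := (CL.dyw μ (L := L) (m := m) (β := β) h hv hr).appr μ (List.replicate 1 j)
      have h2 := CL.rep μ (L := L) (m := m) (β := β) h (nn := 1) (s := 2 ^ (n + 1)) (v := v)
        (by push_cast; linarith) hr (fun k => by exact_mod_cast (hv k).le) j
      have hv' : ∀ k, (v k + if k = j then 1 else 0) < 2 ^ (n + 1) := fun k => by
        split_ifs with hk
        · rw [hk]; exact hj
        · exact hv k
      have h3 := (CL.dyw μ (L := L) (m := m) (β := β) h hv' hr).symm μ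
      refine ((h1.trans μ h2).trans μ h3).mono μ ?_
      have hd : (1 : ℝ) ≤ d := by
        have : 0 < d := lt_of_le_of_lt (Nat.zero_le _) j.2
        exact_mod_cast this
      have h4 : (d : ℝ) * (κ * Real.sqrt (2 ^ (n + 1))) ≤ un d κ (2 ^ (n + 1)) := by
        unfold un
        exact le_mul_of_one_le_left (mul_nonneg (by linarith)
          (mul_nonneg h.1 (Real.sqrt_nonneg _))) hd
      linarith
    · have hlt : v j % 2 ^ n + 1 < 2 ^ n := by
        have := Nat.mod_lt (v j) hp
        omega
      have hG : Gc (n + 1) (v j) = Gc n (v j % 2 ^ n) := by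
        simp only [Gc]
        rw [if_neg hc]
      rw [hG]
      have h1 := (ih (v := fun k => v k % 2 ^ n) (fun k => Nat.mod_lt _ hp) hlt
        (by linarith)).appl μ (Y14.cb fun j => 2 ^ n * (v j / 2 ^ n))
      simp only [SQ.dyw]
      have e1 : (fun k => 2 ^ n * ((v k + if k = j then 1 else 0) / 2 ^ n)) =
          fun k => 2 ^ n * (v k / 2 ^ n) := by
        funext k
        split_ifs with hk
        · subst hk
          congr 1
          have h5 := Nat.div_add_mod' (v k) (2 ^ n)
          refine Nat.div_eq_of_lt_le (by omega) ?_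
          rw [add_mul, one_mul]
          omega
        · rw [add_zero]
      have e2 : (fun k => (v k + if k = j then 1 else 0) % 2 ^ n) =
          fun k => v k % 2 ^ n + if k = j then 1 else 0 := by
        funext k
        split_ifs with hk
        · subst hk
          rw [Nat.add_mod]
          have h1 : 1 % 2 ^ n = 1 := Nat.mod_eq_of_lt (by omega)
          rw [h1, Nat.mod_eq_of_lt hlt]
        · rw [add_zero, add_zero]
      rw [e1, e2, List.append_assoc]
      exact h1

end close

end

end Pool.Agent.Q234.SQ
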