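import Mathlib
import Pool.Agent.Q234.SQ.Words
import Pool.Agent.Y14.Resp2

/-!
# The dyadic tree of paths from the origin
-/

open MeasureTheory Matrix Filter
open scoped Matrix.Norms.Frobenius Topology
open Pool.Agent.H906R3.YM hiding Pl
open Pool.Agent.W793.YM Pool.Agent.TH618.YM
open Pool.Agent.Y14

namespace Pool.Agent.Q234.SQ

set_option linter.unusedSectionVars false
set_option linter.unusedVariables false

noncomputable section

/-- the number of dyadic levels -/
def lv (q : ℕ) : ℕ := Nat.clog 2 (4 * q + 2)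

lemma lv_gt (q : ℕ) : 4 * q + 1 < 2 ^ lv q := by
  have h := Nat.le_pow_clog (b := 2) (by norm_num) (4 * q + 2)
  unfold lv
  omega

lemma lv_le {q : ℕ} (hq : 1 ≤ q) : 2 ^ lv q ≤ 16 * q := by
  have h := Nat.pow_pred_clog_lt_self (b := 2) (by norm_num) (x := 4 * q + 2) (by omega)
  have h1 : 0 < lv q := Nat.clog_pos (by norm_num) (by omega)
  obtain ⟨k, hk⟩ : ∃ k, lv q = k + 1 := ⟨lv q - 1, by omega⟩
  have h2 : 2 ^ k < 4 * q + 2 := by
    have : (Nat.clog 2 (4 * q + 2)).pred = k := by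
      have h3 : Nat.clog 2 (4 * q + 2) = k + 1 := hk
      rw [h3]; rfl
    rwa [this] at h
  rw [hk, pow_succ]
  omega

variable {e : ℕ}

/-- the vector without its coordinate `0` -/
def z0 (v : Fin (e + 3) → ℕ) : Fin (e + 3) → ℕ := fun j => if j = 0 then 0 else v j

lemma z0_zero (v : Fin (e + 3) → ℕ) : z0 v 0 = 0 := if_pos rfl

lemma z0_ne (v : Fin (e + 3) → ℕ) {j : Fin (e + 3)} (h : j ≠ 0) : z0 v j = v j := if_neg h

lemma z0_lt {v : Fin (e + 3) → ℕ} {nn : ℕ} (hv : ∀ j, v j < 2 ^ nn) (j : Fin (e + 3)) :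
    z0 v j < 2 ^ nn := by
  by_cases h : j = 0
  · rw [h, z0_zero]; exact Nat.two_pow_pos nn
  · rw [z0_ne v h]; exact hv j

/-- the path of the tree to `v` -/
def trw (n : ℕ) (v : Fin (e + 3) → ℕ) : List (Fin (e + 3)) :=
  List.replicate (v 0) 0 ++ dyw n (z0 v)

lemma cb_z0 (v : Fin (e + 3) → ℕ) : List.replicate (v 0) 0 ++ cb (z0 v) = cb v := by
  unfold cb
  rw [List.finRange_succ, cmb_cons, cmb_cons]
  have h1 : z0 v 0 = 0 := by simp [z0]
  rw [h1, List.replicate_zero, List.nil_append]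
  congr 1
  refine cmb_congr fun k hk => ?_
  obtain ⟨k', _, rfl⟩ := List.mem_map.1 hk
  simp [z0, Fin.succ_ne_zero]

lemma count_trw (n : ℕ) (v : Fin (e + 3) → ℕ) (j : Fin (e + 3)) : (trw n v).count j = v j := by
  unfold trw
  rw [List.count_append, count_dyw, List.count_replicate]
  by_cases h : j = 0
  · subst h; simp [z0]
  · have h' : ¬(0 : Fin (e + 3)) = j := fun h1 => h h1.symm
    simp [z0, h, h']

/-- the links in the direction `0` of a path of the tree -/
lemma trw_lk0 {A : Type*} [AddCommGroup A] {u : Fin (e + 3) → A} {x : A} {n : ℕ}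
    {v : Fin (e + 3) → ℕ} {f : A × Fin (e + 3)} (h : f ∈ lk u x (trw n v)) (h0 : f.2 = 0) :
    ∃ s < v 0, f.1 = x + s • u 0 := by
  unfold trw at h
  rw [lk_append, List.mem_append] at h
  rcases h with h | h
  · exact (mem_lk_rep h).2
  · exfalso
    have h1 := lk_dir h
    rw [h0] at h1
    have h2 := List.count_pos_iff.2 h1
    rw [count_dyw] at h2
    simp [z0] at h2

section close

variable {G : Type*} [Group G] [TopologicalSpace G] [IsTopologicalGroup G] [CompactSpace G]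
  [SecondCountableTopology G] [MeasurableSpace G] [BorelSpace G] (μ : Measure G)
  [IsProbabilityMeasure μ] [μ.IsMulLeftInvariant] [μ.IsMulRightInvariant] [μ.IsInvInvariant]
  {N n : ℕ} {L : LD G N n} {m : ℕ} [NeZero m] {β κ r : ℝ}

theorem CL.trw (h : HR μ L (e + 3) m β κ r) {nn : ℕ} {v : Fin (e + 3) → ℕ}
    (hv : ∀ j, v j < 2 ^ nn) (hr : (2 : ℝ) ^ nn ≤ r) :
    CL μ L m β (SQ.trw nn v) (Y14.cb v) (4 * un (e + 3) κ (2 ^ nn)) := by
  unfold SQ.trw
  rw [← cb_z0]
  exact (CL.dyw μ (L := L) (m := m) (β := β) h (v := z0 v) (z0_lt hv) hr).appl μ _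

theorem CL.trw_step (h : HR μ L (e + 3) m β κ r) {nn : ℕ} {v : Fin (e + 3) → ℕ}
    (hv : ∀ j, v j < 2 ^ nn) {j : Fin (e + 3)} (hj0 : j ≠ 0) (hj : v j + 1 < 2 ^ nn)
    (hr : (2 : ℝ) ^ nn ≤ r) :
    CL μ L m β (SQ.trw nn v ++ List.replicate 1 j)
      (SQ.trw nn fun k => v k + if k = j then 1 else 0) (9 * un (e + 3) κ (Gc nn (v j))) := by
  have hz : z0 v j = v j := z0_ne v hj0
  have h1 := (CL.dyw_step μ (L := L) (m := m) (β := β) h (v := z0 v) (z0_lt hv)
    (j := j) (by rw [hz]; exact hj) hr).appl μ (List.replicate (v 0) 0)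
  rw [hz] at h1
  unfold SQ.trw
  have e1 : (v 0 + if (0 : Fin (e + 3)) = j then 1 else 0) = v 0 := by
    rw [if_neg (Ne.symm hj0), add_zero]
  have e2 : z0 (fun k => v k + if k = j then 1 else 0) =
      fun k => z0 v k + if k = j then 1 else 0 := by
    funext k
    by_cases hk : k = 0
    · subst hk
      rw [z0_zero, z0_zero, if_neg (Ne.symm hj0)]
    · rw [z0_ne _ hk, z0_ne _ hk]
  beta_reduce
  rw [e1, e2, List.append_assoc]
  exact h1

end close

end

end Pool.Agent.Q234.SQ
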