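import Mathlib
import Pool.Agent.Q234.SQ.Tree
import Pool.Agent.Y14.Shift2

/-!
# The shift of the links in a box
-/

open MeasureTheory Matrix Filter
open scoped Matrix.Norms.Frobenius Topology
open Pool.Agent.H906R3.YM hiding Pl
open Pool.Agent.W793.YM Pool.Agent.TH618.YM
open Pool.Agent.Y14

namespace Pool.Agent.Q234.SQ

set_option linter.unusedSectionVars false
set_option linter.unusedVariables false

noncomputable section

variable {e m : ℕ} [NeZero m]

section alg

variable {G : Type*} [Group G] [TopologicalSpace G] {N n : ℕ} (L : LD G N n)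

/-- the transport from the origin along the comb -/
def TT (q : ℕ) (U : Ed (e + 3) (2 * m) → G) (x : Fin (e + 3) → ZMod (2 * m)) : G :=
  tp eT U 0 (trw (lv q) (wv x))

/-- the factor -/
def hh (q : ℕ) (a : Fin n) (s : ℝ) (U : Ed (e + 3) (2 * m) → G)
    (x : Fin (e + 3) → ZMod (2 * m)) : G :=
  (TT q U x)⁻¹ * L.ex a (s * kk q x) * TT q U x

/-- the shift -/
def Ps (q : ℕ) (a : Fin n) (s : ℝ) (U : Ed (e + 3) (2 * m) → G) : Ed (e + 3) (2 * m) → G :=
  fun f => if f.2 = 0 then hh L q a s U f.1 * U f else U f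

variable {L}

lemma hh_one {q : ℕ} {a : Fin n} {s : ℝ} {U : Ed (e + 3) (2 * m) → G}
    {x : Fin (e + 3) → ZMod (2 * m)} (h : kk q x = 0) : hh L q a s U x = 1 := by
  unfold hh
  rw [h, mul_zero, L.ex_zero]
  group

lemma Ps_eq {q : ℕ} {a : Fin n} {s : ℝ} {U : Ed (e + 3) (2 * m) → G} {f : Ed (e + 3) (2 * m)}
    (h : ¬(f.2 = 0 ∧ kk q f.1 ≠ 0)) : Ps L q a s U f = U f := by
  unfold Ps
  split_ifs with h1
  · have h2 : kk q f.1 = 0 := by
      by_contra h3
      exact h ⟨h1, h3⟩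
    rw [hh_one h2, one_mul]
  · rfl

/-- the links of the comb are not shifted -/
lemma trw_unsh {q : ℕ} (hq : 1 ≤ q) {nn : ℕ} {v : Fin (e + 3) → ℕ} {f : Ed (e + 3) (2 * m)}
    (h : f ∈ lk eT 0 (trw nn v)) : ¬(f.2 = 0 ∧ kk q f.1 ≠ 0) := by
  rintro ⟨h1, h2⟩
  obtain ⟨s, _, hs⟩ := trw_lk0 h h1
  refine h2 (kk_axis hq one_ne ?_)
  rw [hs]
  exact smul_zero_coord s one_ne

lemma TT_congr {q : ℕ} (hq : 1 ≤ q) {U U' : Ed (e + 3) (2 * m) → G}
    (h : ∀ f : Ed (e + 3) (2 * m), ¬(f.2 = 0 ∧ kk q f.1 ≠ 0) → U f = U' f)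
    (x : Fin (e + 3) → ZMod (2 * m)) : TT q U x = TT q U' x :=
  tp_congr fun f hf => h f (trw_unsh hq hf)

lemma TT_Ps {q : ℕ} (hq : 1 ≤ q) (a : Fin n) (s : ℝ) (U : Ed (e + 3) (2 * m) → G)
    (x : Fin (e + 3) → ZMod (2 * m)) : TT q (Ps L q a s U) x = TT q U x :=
  TT_congr hq (fun f hf => Ps_eq hf) x

lemma Ps_Ps {q : ℕ} (hq : 1 ≤ q) (a : Fin n) (s t : ℝ) (U : Ed (e + 3) (2 * m) → G) :
    Ps L q a s (Ps L q a t U) = Ps L q a (s + t) U := by
  funext f
  have h1 : ∀ (r : ℝ) (V : Ed (e + 3) (2 * m) → G), Ps L q a r V f =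
      if f.2 = 0 then (TT q V f.1)⁻¹ * L.ex a (r * kk q f.1) * TT q V f.1 * V f else V f :=
    fun r V => rfl
  rw [h1 s, h1 t, h1 (s + t), TT_Ps hq]
  split_ifs with h
  · rw [add_mul, L.ex_add]
    group
  · rfl

lemma Ps_zero (q : ℕ) (a : Fin n) (U : Ed (e + 3) (2 * m) → G) : Ps L q a 0 U = U := by
  funext f
  unfold Ps hh
  rw [zero_mul, L.ex_zero]
  split_ifs
  · group
  · rfl

lemma hh_neg (q : ℕ) (a : Fin n) (s : ℝ) (U : Ed (e + 3) (2 * m) → G)
    (x : Fin (e + 3) → ZMod (2 * m)) : hh L q a (-s) U x = (hh L q a s U x)⁻¹ := by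
  unfold hh
  rw [neg_mul, ex_neg']
  group

end alg

section law

variable {G : Type*} [Group G] [TopologicalSpace G] [IsTopologicalGroup G] [CompactSpace G]
  [SecondCountableTopology G] [MeasurableSpace G] [BorelSpace G] (μ : Measure G)
  [IsProbabilityMeasure μ] [μ.IsMulLeftInvariant] [μ.IsMulRightInvariant] [μ.IsInvInvariant]
  {N n : ℕ} {L : LD G N n} {e m : ℕ} [NeZero m] {q : ℕ}

lemma TT_cont (x : Fin (e + 3) → ZMod (2 * m)) :
    Continuous fun U : Ed (e + 3) (2 * m) → G => TT q U x := tp_cont _ _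

lemma hh_cont (a : Fin n) (s : ℝ) (x : Fin (e + 3) → ZMod (2 * m)) :
    Continuous fun U : Ed (e + 3) (2 * m) → G => hh L q a s U x :=
  (((TT_cont x).inv).mul continuous_const).mul (TT_cont x)

lemma Ps_cont (a : Fin n) (s : ℝ) :
    Continuous (Ps L q a s : (Ed (e + 3) (2 * m) → G) → Ed (e + 3) (2 * m) → G) := by
  refine continuous_pi fun f => ?_
  unfold Ps
  split_ifs
  · exact (hh_cont a s f.1).mul (continuous_apply f)
  · exact continuous_apply f

theorem Ps_int (hq : 1 ≤ q) (a : Fin n) (s : ℝ) {F : (Ed (e + 3) (2 * m) → G) → ℝ}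
    (hF : Continuous F) : ∫ U, F (Ps L q a s U) ∂(ME μ (Ed (e + 3) (2 * m))) =
      ∫ U, F U ∂(ME μ (Ed (e + 3) (2 * m))) := by
  classical
  have h := integral_skew μ (fun f : Ed (e + 3) (2 * m) => f.2 = 0 ∧ kk q f.1 ≠ 0) hF
    (a := fun f U => hh L q a s U f.1) (b := fun _ _ => 1) (fun f => hh_cont a s f.1)
    (fun f => continuous_const) (fun f U U' h => by
      unfold hh
      simp only
      rw [TT_congr hq h]) (fun f U U' h => rfl)
  rw [← h]
  refine integral_congr_ae (Filter.Eventually.of_forall fun U => ?_)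
  simp only
  congr 1
  funext f
  split_ifs with h1
  · unfold Ps
    rw [if_pos h1.1, mul_one]
  · exact Ps_eq h1

variable (L) in
/-- the change of the action -/
def XX (β : ℝ) (q : ℕ) (a : Fin n) (s : ℝ) (U : Ed (e + 3) (2 * m) → G) : ℝ :=
  β * (act L (Ps L q a s U) - act L U)

lemma XX_cont (β : ℝ) (a : Fin n) (s : ℝ) :
    Continuous (XX L β q a s : (Ed (e + 3) (2 * m) → G) → ℝ) :=
  continuous_const.mul ((act_cont.comp (Ps_cont a s)).sub act_cont)

lemma XX_Ps (hq : 1 ≤ q) (β : ℝ) (a : Fin n) (s : ℝ) (U : Ed (e + 3) (2 * m) → G) :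
    XX L β q a (-s) (Ps L q a s U) = -XX L β q a s U := by
  unfold XX
  rw [Ps_Ps hq, neg_add_cancel, Ps_zero]
  ring

/-- change of variables -/
lemma EX_Ps (hq : 1 ≤ q) {β : ℝ} (a : Fin n) (s : ℝ) {F : (Ed (e + 3) (2 * m) → G) → ℝ}
    (hF : Continuous F) : EX μ L β (fun U => F (Ps L q a s U)) =
      EX μ L β (fun U => F U * Real.exp (-XX L β q a (-s) U)) := by
  unfold EX
  congr 1
  have h := Ps_int μ (L := L) hq a s (F := fun V : Ed (e + 3) (2 * m) → G =>
    F V * Real.exp (-(β * act L (Ps L q a (-s) V)))) (hF.mul (Real.continuous_exp.comp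
      (continuous_const.mul (act_cont.comp (Ps_cont a (-s)))).neg))
  unfold Zt
  have h1 : ∀ U : Ed (e + 3) (2 * m) → G, F (Ps L q a s U) * Real.exp (-(β * act L U)) =
      F (Ps L q a s U) * Real.exp (-(β * act L (Ps L q a (-s) (Ps L q a s U)))) := by
    intro U
    rw [Ps_Ps hq, neg_add_cancel, Ps_zero]
  simp only [h1]
  rw [h]
  refine integral_congr_ae (Filter.Eventually.of_forall fun U => ?_)
  simp only
  rw [mul_assoc, ← Real.exp_add]
  congr 2
  unfold XX
  ring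

lemma EX_exp (hq : 1 ≤ q) {β : ℝ} (a : Fin n) (s : ℝ) :
    EX μ L β (fun U : Ed (e + 3) (2 * m) → G => Real.exp (-XX L β q a s U)) = 1 := by
  have h := EX_Ps μ (L := L) (β := β) hq a (-s) (F := fun _ : Ed (e + 3) (2 * m) → G => (1 : ℝ))
    continuous_const
  rw [neg_neg, EX_one] at h
  simp only [one_mul] at h
  exact h.symm

lemma EX_XX_nonneg (hq : 1 ≤ q) {β : ℝ} (a : Fin n) (s : ℝ) :
    0 ≤ EX μ L β (XX L β q a s : (Ed (e + 3) (2 * m) → G) → ℝ) := by
  have h := EX_exp μ (L := L) (e := e) (m := m) (β := β) hq a s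
  have hX := XX_cont (L := L) (q := q) (e := e) (m := m) β a s
  have h1 : EX μ L β (fun U : Ed (e + 3) (2 * m) → G => 1 - XX L β q a s U) ≤
      EX μ L β (fun U : Ed (e + 3) (2 * m) → G => Real.exp (-XX L β q a s U)) := by
    refine EX_mono μ (continuous_const.sub hX) (Real.continuous_exp.comp hX.neg) fun U => ?_
    have := Real.add_one_le_exp (-XX L β q a s U)
    linarith
  rw [EX_sub μ continuous_const hX, EX_one, h] at h1
  linarith

/-- **the law of the shifted configuration**: small probabilities remain small -/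
theorem tilt (hq : 1 ≤ q) {β : ℝ} (a : Fin n) (s : ℝ) {g : (Ed (e + 3) (2 * m) → G) → ℝ}
    (hg : Continuous g) (h0 : ∀ U, 0 ≤ g U) (h1 : ∀ U, g U ≤ 1) :
    EX μ L β (fun U => g (Ps L q a s U)) ≤
      3 * EX μ L β g + 3 * EX μ L β (fun U : Ed (e + 3) (2 * m) → G => XX L β q a s U) := by
  have hX := fun s => XX_cont (L := L) (q := q) (e := e) (m := m) β a s
  obtain ⟨K, hK⟩ : ∃ K : (Ed (e + 3) (2 * m) → G) → ℝ, K = fun V =>
    -XX L β q a (-s) V + Real.exp (-(-XX L β q a (-s) V)) - 1 := ⟨_, rfl⟩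
  have hKc : Continuous K := by
    rw [hK]
    exact ((hX (-s)).neg.add (Real.continuous_exp.comp (hX (-s)).neg.neg)).sub continuous_const
  have e1 := EX_Ps μ (L := L) (β := β) hq a s hg
  have e2 := EX_Ps μ (L := L) (β := β) hq a s hKc
  have e3 : EX μ L β (fun U => K (Ps L q a s U)) =
      EX μ L β (fun U : Ed (e + 3) (2 * m) → G => XX L β q a s U) := by
    have e4 : (fun U : Ed (e + 3) (2 * m) → G => K (Ps L q a s U)) =
        fun U => (XX L β q a s U + Real.exp (-XX L β q a s U)) - 1 := by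
      funext U
      rw [hK]
      simp only
      rw [XX_Ps hq]
      simp only [neg_neg]
    have c1 : Continuous fun U : Ed (e + 3) (2 * m) → G => Real.exp (-XX L β q a s U) :=
      Real.continuous_exp.comp (hX s).neg
    have c1' : Continuous fun U : Ed (e + 3) (2 * m) → G =>
        XX L β q a s U + Real.exp (-XX L β q a s U) := (hX s).add c1
    rw [e4, EX_sub μ c1' continuous_const, EX_add μ (hX s) c1, EX_exp μ hq, EX_one]
    ring
  rw [e1, ← e3, e2]
  have c2 : Continuous fun U : Ed (e + 3) (2 * m) → G => Real.exp (-XX L β q a (-s) U) :=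
    Real.continuous_exp.comp (hX (-s)).neg
  have c3 : Continuous fun U : Ed (e + 3) (2 * m) → G => K U * Real.exp (-XX L β q a (-s) U) :=
    hKc.mul c2
  have c4 : Continuous fun U : Ed (e + 3) (2 * m) → G => 3 * g U := continuous_const.mul hg
  have c5 : Continuous fun U : Ed (e + 3) (2 * m) → G =>
    3 * (K U * Real.exp (-XX L β q a (-s) U)) := continuous_const.mul c3
  rw [← EX_smul, ← EX_smul, ← EX_add μ c4 c5]
  refine EX_mono μ (hg.mul c2) (c4.add c5) fun U => ?_
  have := tilt_pt (h0 U) (h1 U) (t := -XX L β q a (-s) U)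
  rw [hK]
  exact this

end law

end

end Pool.Agent.Q234.SQ
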