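import Mathlib
import Pool.Agent.Q234.SQ.Shift
import Pool.Agent.Y14.Energy

/-!
# The energy of the shift
-/

open MeasureTheory Matrix Filter
open scoped Matrix.Norms.Frobenius Topology
open Pool.Agent.H906R3.YM hiding Pl
open Pool.Agent.W793.YM Pool.Agent.TH618.YM
open Pool.Agent.Y14

namespace Pool.Agent.Q234.SQ

set_option linter.unusedSectionVars false
set_option linter.unusedVariables false

noncomputable section

variable {G : Type*} [Group G] [TopologicalSpace G] [IsTopologicalGroup G] [CompactSpace G]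
  [SecondCountableTopology G] [MeasurableSpace G] [BorelSpace G] (μ : Measure G)
  [IsProbabilityMeasure μ] [μ.IsMulLeftInvariant] [μ.IsMulRightInvariant] [μ.IsInvInvariant]
  {N n : ℕ} {L : LD G N n} {e m : ℕ} [NeZero m] {q : ℕ}

lemma plq_Ps0 (a : Fin n) (s : ℝ) (U : Ed (e + 3) (2 * m) → G) (x : Fin (e + 3) → ZMod (2 * m))
    {j : Fin (e + 3)} (hj : j ≠ 0) : plqT (Ps L q a s U) x 0 j =
      hh L q a s U x * plqT U x 0 j * (U (x, j) * hh L q a s U (x + eT j) * (U (x, j))⁻¹)⁻¹ := by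
  unfold plqT Ps
  simp only [if_true, if_neg hj]
  group

lemma plq_Ps1 (a : Fin n) (s : ℝ) (U : Ed (e + 3) (2 * m) → G) (x : Fin (e + 3) → ZMod (2 * m))
    {i j : Fin (e + 3)} (hi : i ≠ 0) (hj : j ≠ 0) : plqT (Ps L q a s U) x i j = plqT U x i j := by
  unfold plqT Ps
  simp only [if_neg hi, if_neg hj]

/-- the second difference of the energy of a plaquette -/
def D2 (L : LD G N n) (q : ℕ) (a : Fin n) (s : ℝ) (U : Ed (e + 3) (2 * m) → G)
    (x : Fin (e + 3) → ZMod (2 * m)) (j : Fin (e + 3)) : ℝ :=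
  we L (plqT (Ps L q a s U) x 0 j) + we L (plqT (Ps L q a (-s) U) x 0 j) -
    2 * we L (plqT U x 0 j)

/-- the bound -/
def Bd (L : LD G N n) (q : ℕ) (s : ℝ) (U : Ed (e + 3) (2 * m) → G)
    (x : Fin (e + 3) → ZMod (2 * m)) (j : Fin (e + 3)) : ℝ :=
  s ^ 2 * (1 / (q : ℝ) ^ 2 + 16 * dd L (TT q U x * U (x, j)) (TT q U (x + eT j)) ^ 2 +
    dv L (plqT U x 0 j) ^ 2)

lemma D2_zero (a : Fin n) (s : ℝ) (U : Ed (e + 3) (2 * m) → G) {x : Fin (e + 3) → ZMod (2 * m)}
    {j : Fin (e + 3)} (hj : j ≠ 0) (h1 : kk q x = 0) (h2 : kk q (x + eT j) = 0) :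
    D2 L q a s U x j = 0 := by
  unfold D2
  rw [plq_Ps0 _ _ _ _ hj, plq_Ps0 _ _ _ _ hj, hh_one h1, hh_one h1, hh_one h2, hh_one h2]
  simp
  ring

lemma D2_le (hq : 1 ≤ q) (a : Fin n) (s : ℝ) (U : Ed (e + 3) (2 * m) → G)
    {x : Fin (e + 3) → ZMod (2 * m)} {j : Fin (e + 3)} (hj : j ≠ 0) (hx : wv x j + 1 < 2 * m) :
    D2 L q a s U x j ≤ Bd L q s U x j := by
  obtain ⟨h, hh1⟩ : ∃ h, h = hh L q a s U x := ⟨_, rfl⟩
  obtain ⟨h', hh2⟩ : ∃ h', h' = U (x, j) * hh L q a s U (x + eT j) * (U (x, j))⁻¹ := ⟨_, rfl⟩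
  obtain ⟨P, hP⟩ : ∃ P, P = plqT U x 0 j := ⟨_, rfl⟩
  obtain ⟨g, hg⟩ : ∃ g, g = TT q U x * U (x, j) * (TT q U (x + eT j))⁻¹ := ⟨_, rfl⟩
  have e1 : D2 L q a s U x j = we L (h * P * h'⁻¹) + we L (h⁻¹ * P * h') - 2 * we L P := by
    unfold D2
    rw [plq_Ps0 _ _ _ _ hj, plq_Ps0 _ _ _ _ hj, hh_neg, hh_neg, ← hh1, ← hP]
    have e2 : (U (x, j) * (hh L q a s U (x + eT j))⁻¹ * (U (x, j))⁻¹)⁻¹ = h' := by
      rw [hh2]; group
    rw [e2, ← hh2]
  have hgd : dd L (TT q U x * U (x, j)) (TT q U (x + eT j)) = dv L g := by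
    rw [dd_dv, hg]
  have hq1 : (1 : ℝ) ≤ q := by exact_mod_cast hq
  have hq0 : (0 : ℝ) < q := by linarith
  obtain ⟨k, hk⟩ : ∃ k, k = kk q x := ⟨_, rfl⟩
  obtain ⟨k', hk'⟩ : ∃ k', k' = kk q (x + eT j) := ⟨_, rfl⟩
  have hk1 : |k - k'| ≤ 1 / (2 * q) := by rw [hk, hk']; exact kk_lip hq hj hx
  have hk0 : |k| ≤ 1 := by rw [hk, abs_of_nonneg (kk_nonneg q x)]; exact kk_le q x
  have hk0' : |k'| ≤ 1 := by rw [hk', abs_of_nonneg (kk_nonneg q _)]; exact kk_le q _
  have hs0 := abs_nonneg s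
  have dvg := dv_nonneg (L := L) g
  have dh : dv L h ≤ |s| := by
    rw [hh1]
    unfold hh
    have h1 := dv_conj (L := L) (TT q U x)⁻¹ (L.ex a (s * kk q x))
    rw [inv_inv] at h1
    rw [h1]
    refine (dv_ex a _).trans ?_
    rw [abs_mul, ← hk]
    exact mul_le_of_le_one_right hs0 hk0
  have dh' : dv L h' ≤ |s| := by
    rw [hh2, dv_conj]
    unfold hh
    have h1 := dv_conj (L := L) (TT q U (x + eT j))⁻¹ (L.ex a (s * kk q (x + eT j)))
    rw [inv_inv] at h1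
    rw [h1]
    refine (dv_ex a _).trans ?_
    rw [abs_mul, ← hk']
    exact mul_le_of_le_one_right hs0 hk0'
  have dhh : dd L h h' ≤ |s| * (1 / (2 * q) + 2 * dv L g) := by
    have h1 : dd L h h' = dd L (L.ex a (s * k)) (g * L.ex a (s * k') * g⁻¹) := by
      have h2 : h = (TT q U x)⁻¹ * (L.ex a (s * k) * TT q U x) := by
        rw [hh1, hk]; unfold hh; group
      have h3 : h' = (TT q U x)⁻¹ * (g * L.ex a (s * k') * g⁻¹ * TT q U x) := by
        rw [hh2, hk', hg]; unfold hh; group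
      rw [h2, h3, dd_lmul, dd_rmul]
    rw [h1]
    have h4 := dd_tri (L := L) (L.ex a (s * k)) (L.ex a (s * k')) (g * L.ex a (s * k') * g⁻¹)
    have h5 := dd_ex (L := L) a (s * k) (s * k')
    have h6 := dd_conj (L := L) g (L.ex a (s * k'))
    have h7 := dv_ex (L := L) a (s * k')
    rw [← mul_sub, abs_mul] at h5
    rw [abs_mul] at h7
    have h8 : |s| * |k - k'| ≤ |s| * (1 / (2 * q)) := mul_le_mul_of_nonneg_left hk1 hs0
    have h9 : |s| * |k'| ≤ |s| := mul_le_of_le_one_right hs0 hk0'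
    have h10 : 2 * dv L (L.ex a (s * k')) * dv L g ≤ 2 * |s| * dv L g := by
      refine mul_le_mul_of_nonneg_right ?_ dvg
      linarith
    calc _ ≤ _ := h4
      _ ≤ |s| * (1 / (2 * q)) + 2 * |s| * dv L g := by linarith
      _ = _ := by ring
  have hsd := second_diff (L := L) h h' P
  rw [← e1] at hsd
  have dn := dd_nonneg (L := L) h h'
  have pn := dv_nonneg (L := L) P
  have h11 : dd L h h' ^ 2 ≤ s ^ 2 * (1 / (2 * (q : ℝ) ^ 2) + 8 * dv L g ^ 2) := by
    calc dd L h h' ^ 2 ≤ (|s| * (1 / (2 * q) + 2 * dv L g)) ^ 2 := pow_le_pow_left₀ dn dhh 2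
      _ = s ^ 2 * (1 / (2 * q) + 2 * dv L g) ^ 2 := by rw [mul_pow, sq_abs]
      _ ≤ s ^ 2 * (2 * (1 / (2 * (q : ℝ))) ^ 2 + 2 * (2 * dv L g) ^ 2) := by
          refine mul_le_mul_of_nonneg_left ?_ (sq_nonneg s)
          nlinarith [sq_nonneg (1 / (2 * (q : ℝ)) - 2 * dv L g)]
      _ = _ := by field_simp; ring
  have h12 : dv L P * (dd L h h' * (dv L h + dv L h')) ≤ dd L h h' ^ 2 + s ^ 2 * dv L P ^ 2 := by
    have h13 : dv L P * (dd L h h' * (dv L h + dv L h')) ≤ dv L P * (dd L h h' * (2 * |s|)) := by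
      refine mul_le_mul_of_nonneg_left (mul_le_mul_of_nonneg_left ?_ dn) pn
      linarith
    have h14 : s ^ 2 = |s| ^ 2 := (sq_abs s).symm
    rw [h14]
    nlinarith [sq_nonneg (dd L h h' - |s| * dv L P)]
  unfold Bd
  rw [hgd, ← hP]
  have h15 : s ^ 2 * (1 / (2 * (q : ℝ) ^ 2) + 8 * dv L g ^ 2) +
      s ^ 2 * (1 / (2 * (q : ℝ) ^ 2) + 8 * dv L g ^ 2) =
      s ^ 2 * (1 / (q : ℝ) ^ 2 + 16 * dv L g ^ 2) := by
    field_simp; ring
  linarith

lemma Bd_nonneg (s : ℝ) (U : Ed (e + 3) (2 * m) → G) (x : Fin (e + 3) → ZMod (2 * m))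
    (j : Fin (e + 3)) : 0 ≤ Bd L q s U x j := by
  unfold Bd
  positivity

/-- the second difference of the action -/
theorem act_second (hq : 1 ≤ q) (hqm : 4 * q + 1 < 2 * m) (a : Fin n) (s : ℝ)
    (U : Ed (e + 3) (2 * m) → G) :
    act L (Ps L q a s U) + act L (Ps L q a (-s) U) - 2 * act L U ≤
      ∑ x ∈ SS e m q, ∑ j ∈ Finset.univ.erase (0 : Fin (e + 3)), Bd L q s U x j := by
  unfold act
  rw [Finset.mul_sum, ← Finset.sum_add_distrib, ← Finset.sum_sub_distrib]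
  have h1 : ∀ x : Fin (e + 3) → ZMod (2 * m),
      (∑ i, ∑ j, if i < j then we L (plqT (Ps L q a s U) x i j) else 0) +
        (∑ i, ∑ j, if i < j then we L (plqT (Ps L q a (-s) U) x i j) else 0) -
        2 * (∑ i, ∑ j, if i < j then we L (plqT U x i j) else 0) =
      ∑ j ∈ Finset.univ.erase (0 : Fin (e + 3)), D2 L q a s U x j := by
    intro x
    rw [Finset.mul_sum, ← Finset.sum_add_distrib, ← Finset.sum_sub_distrib,
      Finset.sum_eq_single (0 : Fin (e + 3))]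
    · rw [Finset.mul_sum, ← Finset.sum_add_distrib, ← Finset.sum_sub_distrib,
        ← Finset.add_sum_erase _ _ (Finset.mem_univ (0 : Fin (e + 3)))]
      simp only [lt_irrefl, if_false, mul_zero, add_zero, sub_zero, zero_add]
      refine Finset.sum_congr rfl fun j hj => ?_
      have hj0 : (0 : Fin (e + 3)) < j := Fin.pos_iff_ne_zero.2 (Finset.mem_erase.1 hj).1
      rw [if_pos hj0, if_pos hj0, if_pos hj0]
      rfl
    · intro i _ hi
      rw [Finset.mul_sum, ← Finset.sum_add_distrib, ← Finset.sum_sub_distrib]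
      refine Finset.sum_eq_zero fun j _ => ?_
      split_ifs with hij
      · have hj : j ≠ 0 := by
          rintro rfl
          exact absurd hij (Fin.not_lt_zero i)
        rw [plq_Ps1 _ _ _ _ hi hj, plq_Ps1 _ _ _ _ hi hj]
        ring
      · ring
    · simp
  rw [Finset.sum_congr rfl fun x _ => h1 x]
  rw [← Finset.sum_subset (Finset.subset_univ (SS e m q))]
  · refine Finset.sum_le_sum fun x hx => Finset.sum_le_sum fun j hj => ?_
    refine D2_le hq a s U (Finset.mem_erase.1 hj).1 ?_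
    have := (Finset.mem_filter.1 hx).2 j
    omega
  · intro x _ hx
    refine Finset.sum_eq_zero fun j hj => ?_
    have hj0 := (Finset.mem_erase.1 hj).1
    obtain ⟨h2, h3⟩ := kk_box hq hqm hj0 hx
    exact D2_zero a s U hj0 h2 h3


lemma dsp_trw {nn : ℕ} (x : Fin (e + 3) → ZMod (2 * m)) :
    (dsp eT (trw nn (wv x)) : Fin (e + 3) → ZMod (2 * m)) = x := by
  funext j
  rw [dsp_apply, count_trw]
  exact congrFun (ct_wv x) j

lemma Gc_pow (nn a : ℕ) : Gc nn a ≤ 2 ^ nn := by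
  induction nn generalizing a with
  | zero => simp [Gc]
  | succ n ih =>
    simp only [Gc]
    split_ifs
    · exact le_rfl
    · exact (ih _).trans (Nat.pow_le_pow_right (by norm_num) (Nat.le_succ n))

variable {β κ r : ℝ}

/-- the strip between the paths to neighbouring points -/
lemma strip_en (h : HR μ L (e + 3) m β κ r) (hr : (2 : ℝ) ^ lv q ≤ r)
    (hqm : 4 * q + 1 < 2 * m) {x : Fin (e + 3) → ZMod (2 * m)} (hx : x ∈ SS e m q)
    {j : Fin (e + 3)} (hj : j ≠ 0) :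
    EX μ L β (fun U : Ed (e + 3) (2 * m) → G =>
      dd L (TT q U x * U (x, j)) (TT q U (x + eT j)) ^ 2) ≤
      (9 * (((e + 3 : ℕ) : ℝ) ^ 2 * κ)) ^ 2 * (Gc (lv q) (wv x j) : ℝ) := by
  have hx' := (Finset.mem_filter.1 hx).2
  have hl := lv_gt q
  have h1 := (CL.trw_step μ (L := L) (m := m) (β := β) h (nn := lv q) (v := wv x)
    (fun k => by have := hx' k; omega) hj (by have := hx' j; omega) hr).2 0
  have h2 : (fun U : Ed (e + 3) (2 * m) → G => dd L
      (tp eT U 0 (trw (lv q) (wv x) ++ List.replicate 1 j))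
      (tp eT U 0 (trw (lv q) fun k => wv x k + if k = j then 1 else 0))) =
      fun U => dd L (TT q U x * U (x, j)) (TT q U (x + eT j)) := by
    funext U
    have e1 : (fun k => wv x k + if k = j then 1 else 0) = wv (x + eT j) := by
      rw [wv_add (by have := hx' j; omega)]
      funext k
      by_cases hk : k = j
      · subst hk; simp [es_same]
      · simp [es_ne hk, hk]
    rw [e1, tp_append, dsp_trw, zero_add]
    have e3 : tp eT U x (List.replicate 1 j) = U (x, j) := by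
      show U (x, j) * 1 = _
      rw [mul_one]
    rw [e3]
    rfl
  rw [h2] at h1
  rw [← en_sq]
  refine (pow_le_pow_left₀ (en_nonneg μ _) h1 2).trans (le_of_eq ?_)
  unfold un
  have h3 : Real.sqrt (Gc (lv q) (wv x j) : ℝ) ^ 2 = (Gc (lv q) (wv x j) : ℝ) :=
    Real.sq_sqrt (Nat.cast_nonneg _)
  calc _ = (9 * (((e + 3 : ℕ) : ℝ) ^ 2 * κ)) ^ 2 * Real.sqrt (Gc (lv q) (wv x j) : ℝ) ^ 2 := by
        ring
    _ = _ := by rw [h3]

/-- the sum over the box -/
lemma sum_SS (hq : 1 ≤ q) {j : Fin (e + 3)} :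
    ∑ x ∈ SS e m q, (Gc (lv q) (wv x j) : ℝ) ≤
      (5 * (q : ℝ)) ^ (e + 2) * (16 * q * (2 * lv q + 1)) := by
  have hl := lv_gt q
  have h1 : ∑ x ∈ SS e m q, Gc (lv q) (wv x j) ≤
      ∑ v ∈ Fintype.piFinset fun _ : Fin (e + 3) => Finset.range (4 * q + 1),
        Gc (lv q) (v j) := by
    have h2 : ∑ x ∈ SS e m q, Gc (lv q) (wv x j) =
        ∑ v ∈ (SS e m q).image (fun x => wv x), Gc (lv q) (v j) := by
      rw [Finset.sum_image]
      intro x _ y _ h
      exact wv_inj h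
    rw [h2]
    refine Finset.sum_le_sum_of_subset fun v hv => ?_
    obtain ⟨x, hx, rfl⟩ := Finset.mem_image.1 hv
    have hx' := (Finset.mem_filter.1 hx).2
    rw [Fintype.mem_piFinset]
    intro i
    have := hx' i
    rw [Finset.mem_range]
    omega
  have h3 : ∑ v ∈ Fintype.piFinset fun _ : Fin (e + 3) => Finset.range (4 * q + 1),
        Gc (lv q) (v j) = (4 * q + 1) ^ (e + 2) * ∑ a ∈ Finset.range (4 * q + 1), Gc (lv q) a := by
    have h4 : ∀ v : Fin (e + 3) → ℕ, Gc (lv q) (v j) =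
        ∏ i, if i = j then Gc (lv q) (v i) else 1 := by
      intro v
      rw [Finset.prod_ite_eq' Finset.univ j fun i => Gc (lv q) (v i)]
      simp
    simp only [h4]
    rw [Finset.sum_prod_piFinset (Finset.range (4 * q + 1))
      (fun (i : Fin (e + 3)) (a : ℕ) => if i = j then Gc (lv q) a else 1)]
    have h5 : ∀ i : Fin (e + 3), (∑ a ∈ Finset.range (4 * q + 1),
        if i = j then Gc (lv q) a else 1) = if i = j then
          ∑ a ∈ Finset.range (4 * q + 1), Gc (lv q) a else 4 * q + 1 := by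
      intro i
      split_ifs
      · rfl
      · simp
    simp only [h5]
    rw [← Finset.mul_prod_erase Finset.univ _ (Finset.mem_univ j), if_pos rfl,
      Finset.prod_congr rfl fun i hi => if_neg (Finset.mem_erase.1 hi).1, Finset.prod_const,
      Finset.card_erase_of_mem (Finset.mem_univ j), Finset.card_univ, Fintype.card_fin, mul_comm]
    rfl
  have h6 : ∑ a ∈ Finset.range (4 * q + 1), Gc (lv q) a ≤ 2 ^ lv q * (2 * lv q + 1) := by
    refine le_trans (Finset.sum_le_sum_of_subset fun a ha => ?_) (sum_Gc (lv q))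
    rw [Finset.mem_range] at ha ⊢
    omega
  have h7 : ∑ x ∈ SS e m q, Gc (lv q) (wv x j) ≤
      (5 * q) ^ (e + 2) * (16 * q * (2 * lv q + 1)) := by
    rw [h3] at h1
    refine h1.trans (Nat.mul_le_mul (Nat.pow_le_pow_left (by omega) _) (h6.trans ?_))
    exact Nat.mul_le_mul_right _ (lv_le hq)
  exact_mod_cast h7

/-- the constant -/
def CE (e N : ℕ) : ℝ := 5 ^ (e + 3) * (e + 3) * (1 + 2 * N ^ 2) +
  5 ^ (e + 2) * 256 * 81 * (e + 3) ^ 5

lemma CE_pos : 0 < CE e N := by unfold CE; positivity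

/-- **the energy of the shift** -/
theorem XX_bound (hm : 2 ≤ m) (hN : 1 ≤ N) (hq : 1 ≤ q) (hqm : 4 * q + 1 < 2 * m)
    (h : HR μ L (e + 3) m β κ r) (hr : 16 * (q : ℝ) ≤ r)
    (hβ : (q : ℝ) ^ 2 ≤ β) (hκ : κ ^ 2 * ((q : ℝ) ^ 2 * (2 * lv q + 1)) ≤ 1) (a : Fin n) (s : ℝ) :
    EX μ L β (fun U : Ed (e + 3) (2 * m) → G => XX L β q a s U) ≤
      CE e N * (s ^ 2 * β * (q : ℝ) ^ (e + 1)) := by
  have hq1 : (1 : ℝ) ≤ q := by exact_mod_cast hq
  have hq0 : (0 : ℝ) < q := by linarith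
  have hβ0 : 0 < β := lt_of_lt_of_le (by positivity) hβ
  have hr2 : (2 : ℝ) ^ lv q ≤ r := by
    refine le_trans ?_ hr
    exact_mod_cast lv_le hq
  have hX := fun s => XX_cont (L := L) (q := q) (e := e) (m := m) β a s
  have hXn := EX_XX_nonneg μ (L := L) (e := e) (m := m) (β := β) hq a (-s)
  have hpl : ∀ (x : Fin (e + 3) → ZMod (2 * m)) (j : Fin (e + 3)),
      Continuous fun U : Ed (e + 3) (2 * m) → G => plqT U x 0 j := fun x j => by
    unfold plqT; fun_prop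
  have hBc1 : ∀ (x : Fin (e + 3) → ZMod (2 * m)) (j : Fin (e + 3)),
      Continuous fun U : Ed (e + 3) (2 * m) → G =>
        dd L (TT q U x * U (x, j)) (TT q U (x + eT j)) ^ 2 := fun x j =>
    (dd_cont ((TT_cont x).mul (continuous_apply _)) (TT_cont _)).pow 2
  have hBc2 : ∀ (x : Fin (e + 3) → ZMod (2 * m)) (j : Fin (e + 3)),
      Continuous fun U : Ed (e + 3) (2 * m) → G => dv L (plqT U x 0 j) ^ 2 := fun x j =>
    (dv_cont.comp (hpl x j)).pow 2
  have hBc : ∀ (x : Fin (e + 3) → ZMod (2 * m)) (j : Fin (e + 3)),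
      Continuous fun U : Ed (e + 3) (2 * m) → G => Bd L q s U x j := fun x j => by
    unfold Bd
    exact continuous_const.mul ((continuous_const.add (continuous_const.mul (hBc1 x j))).add
      (hBc2 x j))
  have h1 : EX μ L β (fun U : Ed (e + 3) (2 * m) → G => XX L β q a s U) ≤
      EX μ L β (fun U : Ed (e + 3) (2 * m) → G => β *
        ∑ x ∈ SS e m q, ∑ j ∈ Finset.univ.erase (0 : Fin (e + 3)), Bd L q s U x j) := by
    have h2 : EX μ L β (fun U : Ed (e + 3) (2 * m) → G => XX L β q a s U) ≤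
        EX μ L β (fun U : Ed (e + 3) (2 * m) → G => XX L β q a s U + XX L β q a (-s) U) := by
      rw [EX_add μ (hX s) (hX (-s))]
      linarith
    refine h2.trans (EX_mono μ ((hX s).add (hX (-s))) (continuous_const.mul
      (continuous_finsetSum _ fun x _ => continuous_finsetSum _ fun j _ => hBc x j)) fun U => ?_)
    have h3 := mul_le_mul_of_nonneg_left (act_second (L := L) hq hqm a s U) hβ0.le
    refine le_trans (le_of_eq ?_) h3
    unfold XX
    ring
  obtain ⟨V, hV⟩ : ∃ V : ℝ, V = s ^ 2 * (1 / (q : ℝ) ^ 2 + 2 * N ^ 2 / β) := ⟨_, rfl⟩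
  have hV0 : 0 ≤ V := by rw [hV]; positivity
  obtain ⟨Z, hZ⟩ : ∃ Z : ℝ, Z = s ^ 2 * (16 * (9 * (((e + 3 : ℕ) : ℝ) ^ 2 * κ)) ^ 2) := ⟨_, rfl⟩
  have hZ0 : 0 ≤ Z := by rw [hZ]; positivity
  have hBe : ∀ x ∈ SS e m q, ∀ j ∈ Finset.univ.erase (0 : Fin (e + 3)),
      EX μ L β (fun U : Ed (e + 3) (2 * m) → G => Bd L q s U x j) ≤
      V + Z * (Gc (lv q) (wv x j) : ℝ) := by
    intro x hx j hj
    have hj0 := (Finset.mem_erase.1 hj).1
    unfold Bd
    have c1 : Continuous fun U : Ed (e + 3) (2 * m) → G => (1 / (q : ℝ) ^ 2 +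
        16 * dd L (TT q U x * U (x, j)) (TT q U (x + eT j)) ^ 2) :=
      continuous_const.add (continuous_const.mul (hBc1 x j))
    have c2 : Continuous fun U : Ed (e + 3) (2 * m) → G =>
        16 * dd L (TT q U x * U (x, j)) (TT q U (x + eT j)) ^ 2 :=
      continuous_const.mul (hBc1 x j)
    rw [EX_smul, EX_add μ c1 (hBc2 x j), EX_add μ continuous_const c2, EX_smul, EX_const]
    have h4 := strip_en μ (L := L) h hr2 hqm hx hj0
    have h5 := plaq_bound μ (L := L) hm hβ0 hj0.symm x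
    rw [hV, hZ]
    have h6 : s ^ 2 * (1 / (q : ℝ) ^ 2 + 2 * N ^ 2 / β) +
        s ^ 2 * (16 * (9 * (((e + 3 : ℕ) : ℝ) ^ 2 * κ)) ^ 2) * (Gc (lv q) (wv x j) : ℝ) =
        s ^ 2 * (1 / (q : ℝ) ^ 2 + 16 * ((9 * (((e + 3 : ℕ) : ℝ) ^ 2 * κ)) ^ 2 *
          (Gc (lv q) (wv x j) : ℝ)) + 2 * N ^ 2 / β) := by ring
    rw [h6]
    refine mul_le_mul_of_nonneg_left ?_ (sq_nonneg s)
    linarith
  refine h1.trans ?_
  have hs1 : EX μ L β (fun U : Ed (e + 3) (2 * m) → G =>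
      ∑ x ∈ SS e m q, ∑ j ∈ Finset.univ.erase (0 : Fin (e + 3)), Bd L q s U x j) =
      ∑ x ∈ SS e m q, ∑ j ∈ Finset.univ.erase (0 : Fin (e + 3)),
        EX μ L β (fun U : Ed (e + 3) (2 * m) → G => Bd L q s U x j) := by
    rw [EX_sum μ (SS e m q) (F := fun x (U : Ed (e + 3) (2 * m) → G) =>
      ∑ j ∈ Finset.univ.erase (0 : Fin (e + 3)), Bd L q s U x j)
      fun x _ => continuous_finsetSum _ fun j _ => hBc x j]
    refine Finset.sum_congr rfl fun x _ => ?_
    rw [EX_sum μ _ (F := fun j (U : Ed (e + 3) (2 * m) → G) => Bd L q s U x j)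
      fun j _ => hBc x j]
  rw [EX_smul, hs1]
  have hcard : ((Finset.univ.erase (0 : Fin (e + 3))).card : ℝ) ≤ e + 3 := by
    rw [Finset.card_erase_of_mem (Finset.mem_univ _), Finset.card_univ, Fintype.card_fin]
    have : e + 3 - 1 = e + 2 := rfl
    rw [this]
    push_cast
    linarith
  have hcS : ((SS e m q).card : ℝ) ≤ (5 * q) ^ (e + 3) := by
    have h7 : (SS e m q).card ≤ (5 * q) ^ (e + 3) :=
      (card_SS (e := e) (m := m) (q := q)).trans (Nat.pow_le_pow_left (by omega) _)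
    exact_mod_cast h7
  have h6 : ∑ x ∈ SS e m q, ∑ j ∈ Finset.univ.erase (0 : Fin (e + 3)),
      EX μ L β (fun U : Ed (e + 3) (2 * m) → G => Bd L q s U x j) ≤
      (5 * q) ^ (e + 3) * ((e + 3) * V) + (e + 3) *
        (Z * ((5 * (q : ℝ)) ^ (e + 2) * (16 * q * (2 * lv q + 1)))) := by
    calc _ ≤ ∑ x ∈ SS e m q, ∑ j ∈ Finset.univ.erase (0 : Fin (e + 3)),
            (V + Z * (Gc (lv q) (wv x j) : ℝ)) :=
          Finset.sum_le_sum fun x hx => Finset.sum_le_sum fun j hj => hBe x hx j hj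
      _ = ((SS e m q).card : ℝ) * (((Finset.univ.erase (0 : Fin (e + 3))).card : ℝ) * V) +
          ∑ j ∈ Finset.univ.erase (0 : Fin (e + 3)),
            Z * ∑ x ∈ SS e m q, (Gc (lv q) (wv x j) : ℝ) := by
          simp only [Finset.sum_add_distrib, Finset.sum_const, nsmul_eq_mul]
          congr 1
          rw [Finset.sum_comm]
          simp only [Finset.mul_sum]
      _ ≤ _ := by
          refine add_le_add ?_ ?_
          · exact mul_le_mul hcS (mul_le_mul_of_nonneg_right hcard hV0) (by positivity)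
              (by positivity)
          · calc _ ≤ ∑ j ∈ Finset.univ.erase (0 : Fin (e + 3)),
                  Z * ((5 * (q : ℝ)) ^ (e + 2) * (16 * q * (2 * lv q + 1))) :=
                  Finset.sum_le_sum fun j _ => mul_le_mul_of_nonneg_left (sum_SS hq) hZ0
              _ = ((Finset.univ.erase (0 : Fin (e + 3))).card : ℝ) *
                  (Z * ((5 * (q : ℝ)) ^ (e + 2) * (16 * q * (2 * lv q + 1)))) := by
                  rw [Finset.sum_const, nsmul_eq_mul]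
              _ ≤ _ := mul_le_mul_of_nonneg_right hcard (by positivity)
  refine (mul_le_mul_of_nonneg_left h6 hβ0.le).trans ?_
  -- the first part
  have t1 : β * ((5 * (q : ℝ)) ^ (e + 3) * ((e + 3) * V)) ≤
      5 ^ (e + 3) * (e + 3) * (1 + 2 * N ^ 2) * (s ^ 2 * β * (q : ℝ) ^ (e + 1)) := by
    have e1 : β * ((5 * (q : ℝ)) ^ (e + 3) * ((e + 3) * V)) =
        5 ^ (e + 3) * (e + 3) * (s ^ 2 * ((q : ℝ) ^ (e + 1) * β + 2 * N ^ 2 *
          ((q : ℝ) ^ (e + 1) * (q : ℝ) ^ 2))) := by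
      rw [hV, mul_pow]
      have : (q : ℝ) ^ (e + 3) = (q : ℝ) ^ (e + 1) * (q : ℝ) ^ 2 := by ring
      rw [this]
      field_simp
    have e2 : (q : ℝ) ^ (e + 1) * (q : ℝ) ^ 2 ≤ (q : ℝ) ^ (e + 1) * β :=
      mul_le_mul_of_nonneg_left hβ (by positivity)
    have e3 := mul_le_mul_of_nonneg_left e2 (show (0 : ℝ) ≤ 2 * (N : ℝ) ^ 2 by positivity)
    have e4 : (q : ℝ) ^ (e + 1) * β + 2 * N ^ 2 * ((q : ℝ) ^ (e + 1) * (q : ℝ) ^ 2) ≤
        (1 + 2 * N ^ 2) * ((q : ℝ) ^ (e + 1) * β) := by linarith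
    rw [e1]
    calc _ ≤ 5 ^ (e + 3) * ((e : ℝ) + 3) * (s ^ 2 * ((1 + 2 * N ^ 2) *
          ((q : ℝ) ^ (e + 1) * β))) :=
          mul_le_mul_of_nonneg_left (mul_le_mul_of_nonneg_left e4 (sq_nonneg s)) (by positivity)
      _ = _ := by ring
  have t2 : β * ((e + 3) * (Z * ((5 * (q : ℝ)) ^ (e + 2) * (16 * q * (2 * lv q + 1))))) ≤
      5 ^ (e + 2) * 256 * 81 * (e + 3) ^ 5 * (s ^ 2 * β * (q : ℝ) ^ (e + 1)) := by
    have e1 : β * ((e + 3) * (Z * ((5 * (q : ℝ)) ^ (e + 2) * (16 * q * (2 * lv q + 1))))) =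
        5 ^ (e + 2) * 256 * 81 * (e + 3) ^ 5 * (s ^ 2 * β * (q : ℝ) ^ (e + 1)) *
          (κ ^ 2 * ((q : ℝ) ^ 2 * (2 * lv q + 1))) := by
      rw [hZ, mul_pow]
      push_cast
      ring
    rw [e1]
    exact mul_le_of_le_one_right (by positivity) hκ
  unfold CE
  linarith

end

end Pool.Agent.Q234.SQ
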