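import Mathlib
import Pool.Agent.Q234.SQ.Energy
import Pool.Agent.Y14.Dif

/-!
# The family of paths
-/

open MeasureTheory Matrix Filter
open scoped Matrix.Norms.Frobenius Topology
open Pool.Agent.H906R3.YM hiding Pl
open Pool.Agent.W793.YM Pool.Agent.TH618.YM
open Pool.Agent.Y14

namespace Pool.Agent.Q234.SQ

set_option linter.unusedSectionVars false
set_option linter.unusedVariables false

noncomputable section

variable {e q : ℕ}

/-- the first part of the paths -/
def stA (o : OO e q) : List (Fin (e + 3)) := fan (3 * q) (vA o)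

/-- the last part of the paths -/
def stB (o : OO e q) : List (Fin (e + 3)) := bfan (3 * q) (vB o)

lemma vB_le (o : OO e q) (j : Fin (e + 3)) : vB o j ≤ q := by
  unfold vB
  split_ifs <;> omega

lemma vA_lt (o : OO e q) (j : Fin (e + 3)) : vA o j < 2 ^ (3 * q) :=
  lt_of_le_of_lt (vA_le o j) Nat.lt_two_pow_self

lemma vB_lt (o : OO e q) (j : Fin (e + 3)) : vB o j < 2 ^ (3 * q) :=
  lt_of_le_of_lt ((vB_le o j).trans (by omega)) Nat.lt_two_pow_self

lemma count_stA (o : OO e q) (j : Fin (e + 3)) : (stA o).count j = vA o j :=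
  count_fan (vA_lt o) j

lemma count_stB (o : OO e q) (j : Fin (e + 3)) : (stB o).count j = vB o j :=
  count_bfan (vB_lt o) j

/-- paths through the box -/
def PP (o : OO e q) : List (Fin (e + 3)) :=
  stA o ++ (List.replicate (rr o) 0 ++ List.replicate (rv o) 1) ++ stB o

/-- paths around the box -/
def QQ (o : OO e q) : List (Fin (e + 3)) :=
  stA o ++ (List.replicate (rv o) 1 ++ List.replicate (rr o) 0) ++ stB o

lemma count_PP (o : OO e q) (j : Fin (e + 3)) : (PP o).count j = zz e q j := by
  unfold PP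
  rw [List.count_append, List.count_append, List.count_append, count_stA, count_stB,
    List.count_replicate, List.count_replicate, ← cnt_aux o j]
  simp only [beq_iff_eq]

lemma count_QQ (o : OO e q) (j : Fin (e + 3)) : (QQ o).count j = zz e q j := by
  unfold QQ
  rw [List.count_append, List.count_append, List.count_append, count_stA, count_stB,
    List.count_replicate, List.count_replicate, ← cnt_aux o j]
  simp only [beq_iff_eq]
  omega

lemma len_PP (o : OO e q) : (PP o).length ≤ 5 * (e + 3) * q := by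
  rw [length_count]
  simp only [count_PP]
  exact sum_zz

lemma len_QQ (o : OO e q) : (QQ o).length ≤ 5 * (e + 3) * q := by
  rw [length_count]
  simp only [count_QQ]
  exact sum_zz

section gen

variable {A : Type*} [AddCommGroup A] (u : Fin (e + 3) → A)

lemma dsp_PP (o : OO e q) : dsp u (PP o) = ∑ j, zz e q j • u j := by
  rw [dsp_count]; simp only [count_PP]

lemma dsp_QQ (o : OO e q) : dsp u (QQ o) = ∑ j, zz e q j • u j := by
  rw [dsp_count]; simp only [count_QQ]

variable {G : Type*} [Group G] [TopologicalSpace G] {N n : ℕ} (L : LD G N n)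

/-- the field -/
def phi (q : ℕ) (U : A × Fin (e + 3) → G) (x : A) : Mat N :=
  ((Fintype.card (OO e q) : ℝ))⁻¹ • ∑ o : OO e q,
    (L.rho (tp u U x (PP o)) - L.rho (tp u U x (QQ o)))

variable {u L}

lemma phi_gauge (γ : A → G) (U : A × Fin (e + 3) → G) (x : A) :
    phi u L q (fun f => γ f.1 * U f * (γ (f.1 + u f.2))⁻¹) x =
      L.rho (γ x) * phi u L q U x * L.rho (γ (x + ∑ j, zz e q j • u j))⁻¹ := by
  unfold phi
  rw [mul_smul_comm, smul_mul_assoc, Finset.mul_sum, Finset.sum_mul]
  congr 1
  refine Finset.sum_congr rfl fun o _ => ?_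
  rw [tp_gauge, tp_gauge, dsp_PP, dsp_QQ, mul_sub, sub_mul, map_mul, map_mul, map_mul, map_mul]

lemma phi_map {A' : Type*} [AddCommGroup A'] {u' : Fin (e + 3) → A'} {U : A × Fin (e + 3) → G}
    {U' : A' × Fin (e + 3) → G} (f : A →+ A') (hu : ∀ i, f (u i) = u' i)
    (hU : ∀ e, U e = U' (f e.1, e.2)) (x : A) : phi u L q U x = phi u' L q U' (f x) := by
  unfold phi
  congr 1
  refine Finset.sum_congr rfl fun o _ => ?_
  rw [tp_map f hu hU, tp_map f hu hU]

lemma phi_shift (U : A × Fin (e + 3) → G) (z x : A) :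
    phi u L q (fun f => U (f.1 + z, f.2)) x = phi u L q U (x + z) := by
  unfold phi
  congr 1
  refine Finset.sum_congr rfl fun o _ => ?_
  rw [tp_shift, tp_shift]

lemma phi_congr {U U' : A × Fin (e + 3) → G} {x : A}
    (h : ∀ w1 : List (Fin (e + 3)), (∀ j, w1.count j ≤ zz e q j) → ∀ i, i ≠ Fin.last (e + 2) →
      U (x + dsp u w1, i) = U' (x + dsp u w1, i)) : phi u L q U x = phi u L q U' x := by
  have key : ∀ w : List (Fin (e + 3)), (∀ j, w.count j = zz e q j) →
      tp u U x w = tp u U' x w := by
    intro w hw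
    refine tp_congr fun f hf => ?_
    obtain ⟨w1, w2, h1, h2⟩ := mem_lk hf
    have h3 : f = (x + dsp u w1, f.2) := Prod.ext h2 rfl
    rw [h3]
    refine h w1 (fun j => ?_) f.2 (not_last (by rw [hw, zz_last]) (by rw [h1]; simp))
    rw [← hw j, h1, List.count_append]
    omega
  unfold phi
  congr 1
  refine Finset.sum_congr rfl fun o _ => ?_
  rw [key _ (count_PP o), key _ (count_QQ o)]

end gen

end

end Pool.Agent.Q234.SQ
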