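import Mathlib
import Pool.Agent.Q234.SQ.Words

/-!
# The links of the dyadic paths
-/

open Pool.Agent.Y14

namespace Pool.Agent.Q234.SQ

set_option linter.unusedSectionVars false
set_option linter.unusedVariables false

noncomputable section

variable {d : ℕ}

/-- the first part of a comb -/
lemma cmb_split {v : Fin d → ℕ} {K : List (Fin d)} (hK : K.Pairwise (· < ·))
    {w1 w2 : List (Fin d)} {i : Fin d} (h : cmb v K = w1 ++ i :: w2) :
    (∀ j, j < i → w1.count j = if j ∈ K then v j else 0) ∧ w1.count i < v i ∧
      (∀ j, i < j → w1.count j = 0) := by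
  induction K generalizing w1 with
  | nil =>
    have h1 : cmb v [] = ([] : List (Fin d)) := rfl
    rw [h1] at h
    have := congrArg List.length h
    simp at this
  | cons k K ih =>
    have hp := List.pairwise_cons.1 hK
    rw [cmb_cons] at h
    -- the case of a link behind the first segment
    have key : ∀ a', cmb v K = a' ++ i :: w2 →
        (∀ j, j < i → (List.replicate (v k) k ++ a').count j = if j ∈ k :: K then v j else 0) ∧
          (List.replicate (v k) k ++ a').count i < v i ∧
          (∀ j, i < j → (List.replicate (v k) k ++ a').count j = 0) := by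
      intro a' ha
      obtain ⟨g1, g2, g3⟩ := ih hp.2 ha
      have hi : i ∈ K := (mem_cmb (v := v) (K := K) (by rw [ha]; simp)).1
      have hki : k < i := hp.1 i hi
      refine ⟨fun j hj => ?_, ?_, fun j hj => ?_⟩
      · rw [List.count_append, List.count_replicate, g1 j hj]
        by_cases hjk : k = j
        · subst hjk
          have : k ∉ K := fun h => lt_irrefl _ (hp.1 k h)
          simp [this]
        · have hjk' : ¬j = k := fun h => hjk h.symm
          simp [hjk, hjk']
      · rw [List.count_append, List.count_replicate]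
        have : ¬k = i := ne_of_lt hki
        simp only [beq_iff_eq, this, if_false, zero_add]
        exact g2
      · rw [List.count_append, List.count_replicate, g3 j hj]
        have : ¬k = j := ne_of_lt (hki.trans hj)
        simp [this]
    rcases List.append_eq_append_iff.1 h with ⟨a', rfl, h2⟩ | ⟨c', h1, h2⟩
    · exact key a' h2
    · cases c' with
      | nil =>
        rw [List.append_nil] at h1
        rw [List.nil_append] at h2
        have := key [] h2.symm
        rw [List.append_nil] at this
        rw [← h1]
        exact this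
      | cons c c'' =>
        rw [List.cons_append, List.cons.injEq] at h2
        obtain ⟨rfl, h3⟩ := h2
        obtain ⟨g1, g2, g3⟩ := List.append_eq_replicate_iff.1 h1.symm
        have hik : i = k := by
          have : i ∈ List.replicate (i :: c'').length k := by
            rw [← g3]; exact List.mem_cons_self
          exact (List.mem_replicate.1 this).2
        subst hik
        rw [List.length_cons] at g1
        have hc : ∀ j, w1.count j = if i = j then w1.length else 0 := by
          intro j
          rw [g2, List.count_replicate, List.length_replicate]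
          simp
        refine ⟨fun j hj => ?_, ?_, fun j hj => ?_⟩
        · have h4 : ¬i = j := fun h => absurd hj (by rw [h]; exact lt_irrefl _)
          have h5 : j ∉ i :: K := by
            intro h
            rcases List.mem_cons.1 h with h | h
            · exact h4 h.symm
            · exact absurd (hp.1 j h) (not_lt_of_gt hj)
          rw [hc, if_neg h4, if_neg h5]
        · rw [hc, if_pos rfl]
          omega
        · rw [hc, if_neg (ne_of_lt hj)]

lemma cb_split {v : Fin d → ℕ} {w1 w2 : List (Fin d)} {i : Fin d} (h : cb v = w1 ++ i :: w2) :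
    (∀ j, j < i → w1.count j = v j) ∧ w1.count i < v i ∧ (∀ j, i < j → w1.count j = 0) := by
  obtain ⟨g1, g2, g3⟩ := cmb_split (List.pairwise_lt_finRange d) h
  exact ⟨fun j hj => by rw [g1 j hj, if_pos (List.mem_finRange j)], g2, g3⟩

/-- the last part of a comb -/
lemma cb_split' {v : Fin d → ℕ} {w1 w2 : List (Fin d)} {i : Fin d} (h : cb v = w1 ++ i :: w2) :
    (∀ j, j < i → w2.count j = 0) ∧ w2.count i < v i ∧ (∀ j, i < j → w2.count j = v j) := by
  obtain ⟨g1, g2, g3⟩ := cb_split h
  have hc : ∀ j, v j = w1.count j + (i :: w2).count j := fun j => by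
    rw [← List.count_append, ← h, count_cb]
  refine ⟨fun j hj => ?_, ?_, fun j hj => ?_⟩
  · have h1 := hc j
    rw [List.count_cons_of_ne (ne_of_gt hj), g1 j hj] at h1
    omega
  · have h1 := hc i
    rw [List.count_cons_self] at h1
    omega
  · have h1 := hc j
    rw [List.count_cons_of_ne (ne_of_lt hj), g3 j hj] at h1
    omega

lemma half_lt {n : ℕ} {v : Fin d → ℕ} (hv : ∀ j, v j < 2 ^ (n + 1)) (j : Fin d) :
    v j / 2 < 2 ^ n := by
  have := hv j
  rw [pow_succ] at this
  omega

lemma div_div' (a k : ℕ) : a / 2 / 2 ^ k = a / 2 ^ (k + 1) := by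
  rw [Nat.div_div_eq_div_mul, pow_succ, mul_comm]

/-- the links of the paths from the origin -/
lemma fan_split {n : ℕ} {v : Fin d → ℕ} (hv : ∀ j, v j < 2 ^ n) {w1 w2 : List (Fin d)}
    {i : Fin d} (h : fan n v = w1 ++ i :: w2) :
    ∃ k < n, w1.count i < v i / 2 ^ k ∧ (∀ j, j < i → w1.count j = v j / 2 ^ k) ∧
      (∀ j, i < j → w1.count j = v j / 2 ^ (k + 1)) := by
  induction n generalizing v w1 w2 with
  | zero =>
    have h1 : fan 0 v = ([] : List (Fin d)) := rfl
    rw [h1] at h
    have := congrArg List.length h
    simp at this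
  | succ n ih =>
    have key : ∀ a', cb (fun j => v j - v j / 2) = a' ++ i :: w2 →
        w1 = fan n (fun j => v j / 2) ++ a' →
        ∃ k < n + 1, w1.count i < v i / 2 ^ k ∧ (∀ j, j < i → w1.count j = v j / 2 ^ k) ∧
          (∀ j, i < j → w1.count j = v j / 2 ^ (k + 1)) := by
      intro a' ha hw
      obtain ⟨g1, g2, g3⟩ := cb_split ha
      have hc : ∀ j, w1.count j = v j / 2 + a'.count j := fun j => by
        rw [hw, List.count_append, count_fan (half_lt hv)]
      refine ⟨0, Nat.succ_pos n, ?_, fun j hj => ?_, fun j hj => ?_⟩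
      · rw [hc, pow_zero, Nat.div_one]; omega
      · rw [hc, g1 j hj, pow_zero, Nat.div_one]; omega
      · rw [hc, g3 j hj]; simp
    simp only [fan] at h
    rcases List.append_eq_append_iff.1 h with ⟨a', h1, h2⟩ | ⟨c', h1, h2⟩
    · exact key a' h2 h1
    · cases c' with
      | nil =>
        rw [List.append_nil] at h1
        rw [List.nil_append] at h2
        exact key [] (by rw [List.nil_append]; exact h2.symm) (by rw [List.append_nil]; exact h1.symm)
      | cons c c'' =>
        rw [List.cons_append, List.cons.injEq] at h2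
        obtain ⟨rfl, h3⟩ := h2
        obtain ⟨k, hk, g1, g2, g3⟩ := ih (half_lt hv) h1
        refine ⟨k + 1, by omega, ?_, fun j hj => ?_, fun j hj => ?_⟩
        · rw [← div_div']; exact g1
        · rw [g2 j hj, div_div']
        · rw [g3 j hj, div_div']

/-- the links of the paths to the end point -/
lemma bfan_split {n : ℕ} {v : Fin d → ℕ} (hv : ∀ j, v j < 2 ^ n) {w1 w2 : List (Fin d)}
    {i : Fin d} (h : bfan n v = w1 ++ i :: w2) :
    ∃ k < n, w2.count i < v i / 2 ^ k ∧ (∀ j, j < i → w2.count j = v j / 2 ^ (k + 1)) ∧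
      (∀ j, i < j → w2.count j = v j / 2 ^ k) := by
  induction n generalizing v w1 w2 with
  | zero =>
    have h1 : bfan 0 v = ([] : List (Fin d)) := rfl
    rw [h1] at h
    have := congrArg List.length h
    simp at this
  | succ n ih =>
    have key : ∀ a', bfan n (fun j => v j / 2) = a' ++ i :: w2 →
        ∃ k < n + 1, w2.count i < v i / 2 ^ k ∧ (∀ j, j < i → w2.count j = v j / 2 ^ (k + 1)) ∧
          (∀ j, i < j → w2.count j = v j / 2 ^ k) := by
      intro a' ha
      obtain ⟨k, hk, g1, g2, g3⟩ := ih (half_lt hv) ha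
      refine ⟨k + 1, by omega, ?_, fun j hj => ?_, fun j hj => ?_⟩
      · rw [← div_div']; exact g1
      · rw [g2 j hj, div_div']
      · rw [g3 j hj, div_div']
    simp only [bfan] at h
    rcases List.append_eq_append_iff.1 h with ⟨a', h1, h2⟩ | ⟨c', h1, h2⟩
    · exact key a' h2
    · cases c' with
      | nil =>
        rw [List.nil_append] at h2
        exact key [] (by rw [List.nil_append]; exact h2.symm)
      | cons c c'' =>
        rw [List.cons_append, List.cons.injEq] at h2
        obtain ⟨rfl, h3⟩ := h2
        obtain ⟨g1, g2, g3⟩ := cb_split' h1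
        have hc : ∀ j, w2.count j = c''.count j + v j / 2 := fun j => by
          rw [h3, List.count_append, count_bfan (half_lt hv)]
        refine ⟨0, Nat.succ_pos n, ?_, fun j hj => ?_, fun j hj => ?_⟩
        · rw [hc, pow_zero, Nat.div_one]; omega
        · rw [hc, g1 j hj]; simp
        · rw [hc, g3 j hj, pow_zero, Nat.div_one]; omega

/-- sums over the links of a path -/
lemma sum_lk_le {A : Type*} [AddCommGroup A] {u : Fin d → A} {x : A} {h : A × Fin d → ℝ}
    {g : ℕ → ℝ} {w : List (Fin d)}
    (hw : ∀ w1 i w2, w = w1 ++ i :: w2 → h (x + dsp u w1, i) ≤ g w1.length) :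
    ((lk u x w).map h).sum ≤ ∑ t ∈ Finset.range w.length, g t := by
  induction w using List.reverseRecOn with
  | nil => simp [lk]
  | append_singleton w i ih =>
    have h1 := ih fun w1 j w2 h => hw w1 j (w2 ++ [i]) (by rw [h]; simp)
    have h2 := hw w i [] rfl
    rw [lk_append, List.map_append, List.sum_append, List.length_append, List.length_singleton,
      Finset.sum_range_succ]
    refine add_le_add h1 ?_
    simp only [lk, List.map_cons, List.map_nil, List.sum_cons, List.sum_nil, add_zero]
    exact h2

/-- sums over the links of a path -/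
lemma sum_lk_le' {A : Type*} [AddCommGroup A] {u : Fin d → A} {x : A} {h : A × Fin d → ℝ}
    {g : ℕ → ℝ} {w : List (Fin d)}
    (hw : ∀ w1 i w2, w = w1 ++ i :: w2 → h (x + dsp u w1, i) ≤ g w2.length) :
    ((lk u x w).map h).sum ≤ ∑ t ∈ Finset.range w.length, g t := by
  induction w generalizing x with
  | nil => simp [lk]
  | cons i w ih =>
    have h2 := hw [] i w rfl
    rw [dsp_nil, add_zero] at h2
    rw [lk, List.map_cons, List.sum_cons, List.length_cons, Finset.sum_range_succ, add_comm]
    refine add_le_add (ih fun w1 j w2 h => ?_) h2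
    have h3 := hw (i :: w1) j w2 (by rw [h]; rfl)
    rwa [dsp_cons, ← add_assoc] at h3

/-- geometric sums -/
lemma geo_le {p : ℕ} (hp : 1 ≤ p) (n : ℕ) :
    ∑ k ∈ Finset.range (n + 1), ((2 : ℝ) ^ (k + 1)) ^ p ≤ 2 * ((2 : ℝ) ^ (n + 1)) ^ p := by
  induction n with
  | zero =>
    simp only [zero_add, Finset.range_one, Finset.sum_singleton, pow_one]
    have : (0 : ℝ) < 2 ^ p := by positivity
    linarith
  | succ n ih =>
    rw [Finset.sum_range_succ]
    have h1 : 2 * ((2 : ℝ) ^ (n + 1)) ^ p ≤ ((2 : ℝ) ^ (n + 1 + 1)) ^ p := by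
      rw [pow_succ (2 : ℝ) (n + 1), mul_pow, mul_comm]
      refine mul_le_mul_of_nonneg_left ?_ (by positivity)
      calc (2 : ℝ) = 2 ^ 1 := (pow_one _).symm
        _ ≤ 2 ^ p := pow_le_pow_right₀ (by norm_num) hp
    linarith

/-- geometric sums with a cut off -/
lemma geo_cut {p : ℕ} (hp : 1 ≤ p) {X : ℝ} (hX : 0 ≤ X) (n : ℕ) :
    ∑ k ∈ Finset.range n, (if (2 : ℝ) ^ k ≤ X then ((2 : ℝ) ^ (k + 1)) ^ p else 0) ≤
      2 * (2 * X) ^ p := by
  induction n with
  | zero =>
    simp only [Finset.range_zero, Finset.sum_empty]
    positivity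
  | succ n ih =>
    by_cases h : (2 : ℝ) ^ n ≤ X
    · calc _ ≤ ∑ k ∈ Finset.range (n + 1), ((2 : ℝ) ^ (k + 1)) ^ p := by
            refine Finset.sum_le_sum fun k _ => ?_
            split_ifs
            · exact le_rfl
            · positivity
        _ ≤ 2 * ((2 : ℝ) ^ (n + 1)) ^ p := geo_le hp n
        _ ≤ _ := by
            refine mul_le_mul_of_nonneg_left (pow_le_pow_left₀ (by positivity) ?_ p) (by norm_num)
            rw [pow_succ]
            linarith
    · rw [Finset.sum_range_succ, if_neg h, add_zero]
      exact ih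

lemma harm_le (n : ℕ) : ∑ t ∈ Finset.range n, 1 / ((t : ℝ) + 1) ≤ 1 + Real.log n := by
  have h := harmonic_le_one_add_log n
  unfold harmonic at h
  push_cast at h
  simpa only [one_div] using h

end

end Pool.Agent.Q234.SQ
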