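import Mathlib
import Pool.Agent.Q234.SQ.Split
import Pool.Agent.Q234.SQ.Par

/-!
# The number of paths through a link
-/

open MeasureTheory Matrix Filter
open scoped Matrix.Norms.Frobenius Topology
open Pool.Agent.H906R3.YM hiding Pl
open Pool.Agent.W793.YM Pool.Agent.TH618.YM
open Pool.Agent.Y14

namespace Pool.Agent.Q234.SQ

set_option linter.unusedSectionVars false
set_option linter.unusedVariables false

noncomputable section

variable {e m : ℕ} {q : ℕ}

lemma card_div {g : Fin q → ℕ} (hg : Function.Injective g) (c D : ℕ) (hD : 0 < D) :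
    (Finset.univ.filter fun a : Fin q => c = g a / D).card ≤ D := by
  calc _ ≤ (Finset.range D).card := by
        refine Finset.card_le_card_of_injOn (fun a => g a % D) (fun a _ => ?_) ?_
        · simp only [Finset.coe_range, Set.mem_Iio]
          exact Nat.mod_lt _ hD
        · intro a ha b hb hab
          simp only at hab
          have h1 := (Finset.mem_filter.1 ha).2
          have h2 := (Finset.mem_filter.1 hb).2
          refine hg ?_
          rw [← Nat.div_add_mod (g a) D, ← Nat.div_add_mod (g b) D, ← h1, ← h2, hab]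
    _ = D := Finset.card_range D

/-- the first `e + 2` directions -/
def dir (j : Fin (e + 2)) : Fin (e + 3) := Fin.castSucc j

lemma prod_le_dir {f : Fin (e + 2) → ℕ} {i : Fin (e + 2)} {D : ℕ} (h1 : f i ≤ q)
    (h2 : ∀ j, j ≠ i → f j ≤ D) : ∏ j, f j ≤ q * D ^ (e + 1) := by
  rw [Fin.prod_univ_succAbove f i]
  refine Nat.mul_le_mul h1 ?_
  calc _ ≤ ∏ _j : Fin (e + 1), D :=
        Finset.prod_le_prod' fun j _ => h2 _ (Fin.succAbove_ne i j)
    _ = _ := by rw [Finset.prod_const, Finset.card_univ, Fintype.card_fin]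

lemma dir_zero : dir (0 : Fin (e + 2)) = 0 := rfl

lemma dir_succ (k : Fin (e + 1)) : dir k.succ = jj k := by
  refine Fin.ext ?_
  simp [dir, jj]

lemma dir_one : dir (1 : Fin (e + 2)) = 1 := rfl

/-- a condition on the digits -/
def cnd (c : Fin (e + 3) → ℕ) (i : Fin (e + 3)) (k : ℕ) (s : Fin (e + 3) → ℕ)
    (j : Fin (e + 3)) (a : ℕ) : Prop := j ≠ i → c j = a / 2 ^ (k + s j)

instance (c : Fin (e + 3) → ℕ) (i : Fin (e + 3)) (k : ℕ) (s : Fin (e + 3) → ℕ)
    (j : Fin (e + 3)) (a : ℕ) : Decidable (cnd c i k s j a) := by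
  unfold cnd; infer_instance

/-- number of the admissible values of a coordinate -/
def nA (q : ℕ) (c : Fin (e + 3) → ℕ) (i : Fin (e + 3)) (k : ℕ) (s : Fin (e + 3) → ℕ)
    (g : Fin q → ℕ) (j : Fin (e + 3)) : ℕ :=
  (Finset.univ.filter fun a : Fin q => cnd c i k s j (g a)).card

variable {c : Fin (e + 3) → ℕ} {i : Fin (e + 3)} {k : ℕ} {s : Fin (e + 3) → ℕ}

lemma nA_le (g : Fin q → ℕ) (j : Fin (e + 3)) : nA q c i k s g j ≤ q := by
  unfold nA
  refine (Finset.card_filter_le _ _).trans ?_
  rw [Finset.card_univ, Fintype.card_fin]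

lemma nA_le' (hs : ∀ j, s j ≤ 1) {g : Fin q → ℕ} (hg : Function.Injective g)
    {j : Fin (e + 3)} (hj : j ≠ i) : nA q c i k s g j ≤ 2 ^ (k + 1) := by
  unfold nA cnd
  simp only [ne_eq, hj, not_false_eq_true, forall_const]
  refine (card_div hg _ _ (by positivity)).trans ?_
  exact Nat.pow_le_pow_right (by norm_num) (by have := hs j; omega)

/-- the value of a coordinate of the first part -/
def gA (q : ℕ) (j : Fin (e + 2)) (a : Fin q) : ℕ := if j = 0 then (a : ℕ) else 2 * q + a

/-- the value of a coordinate of the last part -/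
def gB (q : ℕ) (j : Fin (e + 2)) (a : Fin q) : ℕ := q - a

lemma gA_inj (j : Fin (e + 2)) : Function.Injective (gA q j) := by
  intro a b h
  unfold gA at h
  refine Fin.ext ?_
  split_ifs at h <;> omega

lemma gB_inj (j : Fin (e + 2)) : Function.Injective (gB q j) := by
  intro a b h
  unfold gB at h
  have h1 := a.2
  have h2 := b.2
  exact Fin.ext (by omega)

lemma last_or (i : Fin (e + 3)) : i = Fin.last (e + 2) ∨ ∃ i', i = dir i' := by
  rcases Fin.eq_castSucc_or_eq_last i with ⟨i', h⟩ | h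
  · exact Or.inr ⟨i', h⟩
  · exact Or.inl h

lemma dir_inj {j j' : Fin (e + 2)} (h : dir j = dir j') : j = j' := Fin.castSucc_injective _ h

/-- the first parts through a point of given position and level -/
lemma cardA (hs : ∀ j, s j ≤ 1) :
    (Finset.univ.filter fun o : OO e q => c i < vA o i / 2 ^ k ∧
      ∀ j, j ≠ i → c j = vA o j / 2 ^ (k + s j)).card ≤ q ^ 3 * (2 ^ (k + 1)) ^ (e + 1) := by
  rcases last_or i with hi | ⟨i', hi⟩
  · have h0 : (Finset.univ.filter fun o : OO e q => c i < vA o i / 2 ^ k ∧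
      ∀ j, j ≠ i → c j = vA o j / 2 ^ (k + s j)) = ∅ := by
      refine Finset.filter_eq_empty_iff.2 fun o _ h => ?_
      rw [hi, vA_last] at h
      simp at h
    rw [h0]
    exact Nat.zero_le _
  · obtain ⟨f, hf⟩ : ∃ f : Fin (e + 2) → ℕ, f = fun j => nA q c i k s (gA q j) (dir j) := ⟨_, rfl⟩
    have h1 : ∏ j, f j ≤ q * (2 ^ (k + 1)) ^ (e + 1) := by
      refine prod_le_dir (i := i') ?_ fun j hj => ?_
      · rw [hf]; exact nA_le _ _
      · rw [hf]
        refine nA_le' hs (gA_inj j) fun h => hj ?_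
        rw [hi] at h
        exact dir_inj h
    have h2 : (Finset.univ.filter fun o : OO e q => c i < vA o i / 2 ^ k ∧
        ∀ j, j ≠ i → c j = vA o j / 2 ^ (k + s j)) ⊆
        (Finset.univ.filter fun a : Fin q => cnd c i k s (dir 0) (gA q (0 : Fin (e + 2)) a)) ×ˢ
          ((Finset.univ : Finset (Fin q)) ×ˢ ((Finset.univ : Finset (Fin q)) ×ˢ
            Fintype.piFinset fun l : Fin (e + 1) => Finset.univ.filter fun a : Fin q =>
              cnd c i k s (dir l.succ) (gA q l.succ a))) := by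
      intro o ho
      have ho' := (Finset.mem_filter.1 ho).2.2
      simp only [Finset.mem_product, Finset.mem_filter, Finset.mem_univ, true_and,
        Fintype.mem_piFinset]
      refine ⟨fun hj => ?_, fun l hj => ?_⟩
      · rw [dir_zero] at hj ⊢
        rw [ho' 0 hj, vA_zero]
        rfl
      · rw [dir_succ] at hj ⊢
        rw [ho' (jj l) hj, vA_jj]
        unfold gA
        rw [if_neg (Fin.succ_ne_zero l)]
    refine (Finset.card_le_card h2).trans ?_
    rw [Finset.card_product, Finset.card_product, Finset.card_product, Fintype.card_piFinset,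
      Finset.card_univ, Fintype.card_fin]
    have h3 : ∏ j, f j = f 0 * ∏ l : Fin (e + 1), f l.succ := Fin.prod_univ_succ f
    rw [h3, hf] at h1
    unfold nA at h1
    calc _ = q * q * ((Finset.univ.filter fun a : Fin q =>
            cnd c i k s (dir 0) (gA q (0 : Fin (e + 2)) a)).card *
          ∏ l : Fin (e + 1), (Finset.univ.filter fun a : Fin q =>
              cnd c i k s (dir l.succ) (gA q l.succ a)).card) := by ring
      _ ≤ q * q * (q * (2 ^ (k + 1)) ^ (e + 1)) := Nat.mul_le_mul_left _ h1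
      _ = _ := by ring

lemma vB_last (o : OO e q) : vB o (Fin.last (e + 2)) = 0 := by
  unfold vB
  simp

lemma vB_zero (o : OO e q) : vB o 0 = q - (o.2.1 : ℕ) := by
  unfold vB; rw [if_pos (by rfl)]

lemma vB_one (o : OO e q) : vB o 1 = q - (o.2.2.1 : ℕ) := by
  unfold vB
  have h1 : (1 : Fin (e + 3)).val = 1 := rfl
  simp only [h1, one_ne_zero, if_false, if_true]

lemma vB_jj (o : OO e q) {k : Fin (e + 1)} (hk : k ≠ 0) :
    vB o (jj k) = q - (o.2.2.2 k : ℕ) := by
  unfold vB jj
  have h0 : k.val ≠ 0 := fun h => hk (Fin.ext h)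
  have h1 : ¬(k.val + 1 = 0) := by omega
  have h2 : k.val + 1 - 1 < e + 1 := by have := k.2; omega
  have h3 : ¬(k.val + 1 = 1) := by omega
  simp only [h1, h3, if_false, h2, dif_pos]
  rfl

/-- the last parts through a point of given position and level -/
lemma cardB (hs : ∀ j, s j ≤ 1) :
    (Finset.univ.filter fun o : OO e q => c i < vB o i / 2 ^ k ∧
      ∀ j, j ≠ i → c j = vB o j / 2 ^ (k + s j)).card ≤ q ^ 3 * (2 ^ (k + 1)) ^ (e + 1) := by
  rcases last_or i with hi | ⟨i', hi⟩
  · have h0 : (Finset.univ.filter fun o : OO e q => c i < vB o i / 2 ^ k ∧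
      ∀ j, j ≠ i → c j = vB o j / 2 ^ (k + s j)) = ∅ := by
      refine Finset.filter_eq_empty_iff.2 fun o _ h => ?_
      rw [hi, vB_last] at h
      simp at h
    rw [h0]
    exact Nat.zero_le _
  · obtain ⟨f, hf⟩ : ∃ f : Fin (e + 2) → ℕ, f = fun j => nA q c i k s (gB q j) (dir j) := ⟨_, rfl⟩
    have h1 : ∏ j, f j ≤ q * (2 ^ (k + 1)) ^ (e + 1) := by
      refine prod_le_dir (i := i') ?_ fun j hj => ?_
      · rw [hf]; exact nA_le _ _
      · rw [hf]
        refine nA_le' hs (gB_inj j) fun h => hj ?_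
        rw [hi] at h
        exact dir_inj h
    have h2 : (Finset.univ.filter fun o : OO e q => c i < vB o i / 2 ^ k ∧
        ∀ j, j ≠ i → c j = vB o j / 2 ^ (k + s j)) ⊆
        (Finset.univ : Finset (Fin q)) ×ˢ
          ((Finset.univ.filter fun a : Fin q => cnd c i k s (dir 0) (gB q (0 : Fin (e + 2)) a)) ×ˢ
          ((Finset.univ.filter fun a : Fin q => cnd c i k s (dir 1) (gB q (1 : Fin (e + 2)) a)) ×ˢ
            Fintype.piFinset fun l : Fin (e + 1) => Finset.univ.filter fun a : Fin q =>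
              l ≠ 0 → cnd c i k s (dir l.succ) (gB q l.succ a))) := by
      intro o ho
      have ho' := (Finset.mem_filter.1 ho).2.2
      simp only [Finset.mem_product, Finset.mem_filter, Finset.mem_univ, true_and,
        Fintype.mem_piFinset]
      refine ⟨fun hj => ?_, fun hj => ?_, fun l hl hj => ?_⟩
      · rw [dir_zero] at hj ⊢
        rw [ho' 0 hj, vB_zero]
        rfl
      · rw [dir_one] at hj ⊢
        rw [ho' 1 hj, vB_one]
        rfl
      · rw [dir_succ] at hj ⊢
        rw [ho' (jj l) hj, vB_jj o hl]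
        rfl
    refine (Finset.card_le_card h2).trans ?_
    rw [Finset.card_product, Finset.card_product, Finset.card_product, Fintype.card_piFinset,
      Finset.card_univ, Fintype.card_fin]
    have h3 : ∏ j, f j = f 0 * (f 1 * ∏ l : Fin e, f l.succ.succ) := by
      rw [Fin.prod_univ_succ f, Fin.prod_univ_succ fun l : Fin (e + 1) => f l.succ]
      rfl
    rw [h3, hf] at h1
    unfold nA at h1
    have h4 : ∏ l : Fin (e + 1), (Finset.univ.filter fun a : Fin q =>
        l ≠ 0 → cnd c i k s (dir l.succ) (gB q l.succ a)).card =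
        q * ∏ l : Fin e, (Finset.univ.filter fun a : Fin q =>
          cnd c i k s (dir l.succ.succ) (gB q l.succ.succ a)).card := by
      rw [Fin.prod_univ_succ]
      congr 1
      · simp
      · refine Finset.prod_congr rfl fun l _ => ?_
        simp only [ne_eq, Fin.succ_ne_zero, not_false_eq_true, forall_const]
    rw [h4]
    calc _ = q * q * ((Finset.univ.filter fun a : Fin q =>
            cnd c i k s (dir 0) (gB q (0 : Fin (e + 2)) a)).card *
          ((Finset.univ.filter fun a : Fin q =>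
            cnd c i k s (dir 1) (gB q (1 : Fin (e + 2)) a)).card *
          ∏ l : Fin e, (Finset.univ.filter fun a : Fin q =>
              cnd c i k s (dir l.succ.succ) (gB q l.succ.succ a)).card)) := by ring
      _ ≤ q * q * (q * (2 ^ (k + 1)) ^ (e + 1)) := Nat.mul_le_mul_left _ h1
      _ = _ := by ring

/-- the levels of a position -/
lemma level {v : Fin (e + 3) → ℕ} {T : ℕ} (hT : ∑ j, v j ≤ T) (h1 : c i < v i / 2 ^ k)
    (h2 : ∀ j, j ≠ i → c j = v j / 2 ^ (k + s j)) : 2 ^ k * (∑ j, c j + 1) ≤ T := by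
  have h3 : ∑ j, c j + 1 ≤ ∑ j, v j / 2 ^ k := by
    rw [← Finset.add_sum_erase _ _ (Finset.mem_univ i),
      ← Finset.add_sum_erase Finset.univ (fun j => v j / 2 ^ k) (Finset.mem_univ i)]
    have h4 : ∑ j ∈ Finset.univ.erase i, c j ≤ ∑ j ∈ Finset.univ.erase i, v j / 2 ^ k := by
      refine Finset.sum_le_sum fun j hj => ?_
      rw [h2 j (Finset.mem_erase.1 hj).1]
      exact Nat.div_le_div_left (Nat.pow_le_pow_right (by norm_num) (by omega)) (by positivity)
    omega
  calc 2 ^ k * (∑ j, c j + 1) ≤ 2 ^ k * ∑ j, v j / 2 ^ k := Nat.mul_le_mul_left _ h3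
    _ = ∑ j, 2 ^ k * (v j / 2 ^ k) := Finset.mul_sum _ _ _
    _ ≤ ∑ j, v j := Finset.sum_le_sum fun j _ => Nat.mul_div_le _ _
    _ ≤ T := hT

/-- summing over the levels -/
lemma sum_levels {v : OO e q → Fin (e + 3) → ℕ} {T n : ℕ} (hT : ∀ o, ∑ j, v o j ≤ T)
    (hs : ∀ k : ℕ, (Finset.univ.filter fun o : OO e q => c i < v o i / 2 ^ k ∧
      ∀ j, j ≠ i → c j = v o j / 2 ^ (k + s j)).card ≤ q ^ 3 * (2 ^ (k + 1)) ^ (e + 1))
    {P : OO e q → Prop} [DecidablePred P] (hP : ∀ o, P o → ∃ k < n, c i < v o i / 2 ^ k ∧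
      ∀ j, j ≠ i → c j = v o j / 2 ^ (k + s j)) :
    ((Finset.univ.filter P).card : ℝ) ≤
      2 * (q : ℝ) ^ 3 * (2 * (T / ((∑ j, c j : ℕ) + 1))) ^ (e + 1) := by
  classical
  obtain ⟨t, ht⟩ : ∃ t : ℕ, t = ∑ j, c j := ⟨_, rfl⟩
  have ht0 : (0 : ℝ) < (t : ℝ) + 1 := by positivity
  have h1 : Finset.univ.filter P ⊆ (Finset.range n).biUnion fun k =>
      Finset.univ.filter fun o : OO e q => (2 : ℝ) ^ k ≤ T / ((t : ℝ) + 1) ∧
        (c i < v o i / 2 ^ k ∧ ∀ j, j ≠ i → c j = v o j / 2 ^ (k + s j)) := by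
    intro o ho
    obtain ⟨k, hk, h2, h3⟩ := hP o (Finset.mem_filter.1 ho).2
    refine Finset.mem_biUnion.2 ⟨k, Finset.mem_range.2 hk, Finset.mem_filter.2
      ⟨Finset.mem_univ _, ?_, h2, h3⟩⟩
    rw [le_div_iff₀ ht0]
    have := level (hT o) h2 h3
    rw [ht]
    exact_mod_cast this
  have h2 : ((Finset.univ.filter P).card : ℝ) ≤ ∑ k ∈ Finset.range n,
      (q : ℝ) ^ 3 * (if (2 : ℝ) ^ k ≤ T / ((t : ℝ) + 1) then ((2 : ℝ) ^ (k + 1)) ^ (e + 1)
        else 0) := by
    refine le_trans (Nat.cast_le.2 ((Finset.card_le_card h1).trans Finset.card_biUnion_le)) ?_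
    rw [Nat.cast_sum]
    refine Finset.sum_le_sum fun k _ => ?_
    split_ifs with h3
    · simp only [h3, true_and]
      exact_mod_cast hs k
    · simp only [h3, false_and, Finset.filter_false, Finset.card_empty, Nat.cast_zero, mul_zero,
        le_refl]
  refine h2.trans ?_
  rw [← Finset.mul_sum, ← ht]
  have h3 := geo_cut (p := e + 1) (by omega) (X := T / ((t : ℝ) + 1)) (by positivity) n
  calc _ ≤ (q : ℝ) ^ 3 * (2 * (2 * (T / ((t : ℝ) + 1))) ^ (e + 1)) :=
        mul_le_mul_of_nonneg_left h3 (by positivity)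
    _ = _ := by ring

lemma sum_vA (o : OO e q) : ∑ j, vA o j ≤ 3 * (e + 3) * q := by
  calc _ ≤ ∑ _j : Fin (e + 3), 3 * q := Finset.sum_le_sum fun j _ => vA_le o j
    _ = _ := by rw [Finset.sum_const, Finset.card_univ, Fintype.card_fin, smul_eq_mul]; ring

lemma sum_vB (o : OO e q) : ∑ j, vB o j ≤ 3 * (e + 3) * q := by
  calc _ ≤ ∑ _j : Fin (e + 3), 3 * q :=
        Finset.sum_le_sum fun j _ => (vB_le o j).trans (by omega)
    _ = _ := by rw [Finset.sum_const, Finset.card_univ, Fintype.card_fin, smul_eq_mul]; ring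

lemma cast_count {a b : ℕ} (h : (a : ZMod (2 * m)) = b) (ha : a < 2 * m) (hb : b < 2 * m) :
    a = b := by
  have : NeZero m := ⟨by rintro rfl; omega⟩
  exact cast_inj' h ha hb

/-- the number of the first parts through a link -/
lemma countA (hqm : 5 * q < 2 * m) (x : Fin (e + 3) → ZMod (2 * m)) (o : OO e q)
    {w1 w2 : List (Fin (e + 3))} {i : Fin (e + 3)} (h : stA o = w1 ++ i :: w2) :
    ((Finset.univ.filter fun o' : OO e q =>
      ((x + dsp eT w1, i) : Ed (e + 3) (2 * m)) ∈ lk eT x (stA o')).card : ℝ) ≤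
      2 * (q : ℝ) ^ 3 * (2 * ((3 * (e + 3) * q : ℕ) / ((w1.length : ℝ) + 1))) ^ (e + 1) := by
  have key := sum_levels (c := fun j => w1.count j) (i := i) (s := fun j => if j < i then 0 else 1)
    (v := vA) (n := 3 * q) sum_vA (fun k => cardA (c := fun j => w1.count j) (i := i) (k := k)
      (s := fun j => if j < i then 0 else 1) (fun j => by
        show (if j < i then 0 else 1) ≤ 1
        split_ifs <;> omega))
    (P := fun o' : OO e q => ((x + dsp eT w1, i) : Ed (e + 3) (2 * m)) ∈ lk eT x (stA o'))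
    (fun o' ho' => by
      obtain ⟨w1', w2', h1, h2⟩ := mem_lk ho'
      simp only at h1 h2
      have h3 : ∀ j, w1.count j = w1'.count j := by
        intro j
        have h4 : (dsp eT w1 : Fin (e + 3) → ZMod (2 * m)) j = (dsp eT w1' : _) j := by
          rw [add_left_cancel h2]
        rw [dsp_apply, dsp_apply] at h4
        have c1 : w1.count j ≤ 3 * q := by
          have := vA_le o j
          rw [← count_stA, h, List.count_append] at this
          omega
        have c2 : w1'.count j ≤ 3 * q := by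
          have := vA_le o' j
          rw [← count_stA, h1, List.count_append] at this
          omega
        exact cast_count h4 (by omega) (by omega)
      obtain ⟨k, hk, g1, g2, g3⟩ := fan_split (vA_lt o') h1
      refine ⟨k, hk, by rw [h3]; exact g1, fun j hj => ?_⟩
      rw [h3]
      rcases lt_or_gt_of_ne hj with hji | hji
      · rw [g2 j hji, if_pos hji, add_zero]
      · rw [g3 j hji, if_neg (not_lt_of_gt hji)])
  have hl : ∑ j, w1.count j = w1.length := (length_count w1).symm
  rw [hl] at key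
  exact key

/-- the number of the last parts through a link -/
lemma countB (hqm : 5 * q < 2 * m) (z : Fin (e + 3) → ZMod (2 * m))
    {y : OO e q → Fin (e + 3) → ZMod (2 * m)} (hy : ∀ o, y o + dsp eT (stB o) = z) (o : OO e q)
    {w1 w2 : List (Fin (e + 3))} {i : Fin (e + 3)} (h : stB o = w1 ++ i :: w2) :
    ((Finset.univ.filter fun o' : OO e q =>
      ((y o + dsp eT w1, i) : Ed (e + 3) (2 * m)) ∈ lk eT (y o') (stB o')).card : ℝ) ≤
      2 * (q : ℝ) ^ 3 * (2 * ((3 * (e + 3) * q : ℕ) / ((w2.length : ℝ) + 1))) ^ (e + 1) := by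
  have key := sum_levels (c := fun j => w2.count j) (i := i) (s := fun j => if j < i then 1 else 0)
    (v := vB) (n := 3 * q) sum_vB (fun k => cardB (c := fun j => w2.count j) (i := i) (k := k)
      (s := fun j => if j < i then 1 else 0) (fun j => by
        show (if j < i then 1 else 0) ≤ 1
        split_ifs <;> omega))
    (P := fun o' : OO e q => ((y o + dsp eT w1, i) : Ed (e + 3) (2 * m)) ∈ lk eT (y o') (stB o'))
    (fun o' ho' => by
      obtain ⟨w1', w2', h1, h2⟩ := mem_lk ho'
      simp only at h1 h2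
      have h3 : ∀ j, w2.count j = w2'.count j := by
        intro j
        have e1 : y o + dsp eT w1 + dsp eT (i :: w2) = z := by
          rw [add_assoc, ← dsp_append, ← h]; exact hy o
        have e2 : y o' + dsp eT w1' + dsp eT (i :: w2') = z := by
          rw [add_assoc, ← dsp_append, ← h1]; exact hy o'
        rw [← h2, ← e1, add_right_inj, dsp_cons, dsp_cons, add_right_inj] at e2
        have h4 := congrFun e2 j
        rw [dsp_apply, dsp_apply] at h4
        have c1 : w2.count j ≤ q := by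
          have := vB_le o j
          have h5 : (i :: w2).count j = w2.count j + if i = j then 1 else 0 := by
            rw [List.count_cons]; simp
          rw [← count_stB, h, List.count_append, h5] at this
          omega
        have c2 : w2'.count j ≤ q := by
          have := vB_le o' j
          have h5 : (i :: w2').count j = w2'.count j + if i = j then 1 else 0 := by
            rw [List.count_cons]; simp
          rw [← count_stB, h1, List.count_append, h5] at this
          omega
        exact (cast_count h4 (by omega) (by omega)).symm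
      obtain ⟨k, hk, g1, g2, g3⟩ := bfan_split (vB_lt o') h1
      refine ⟨k, hk, by rw [h3]; exact g1, fun j hj => ?_⟩
      rw [h3]
      rcases lt_or_gt_of_ne hj with hji | hji
      · rw [g2 j hji, if_pos hji]
      · rw [g3 j hji, if_neg (not_lt_of_gt hji), add_zero])
  have hl : ∑ j, w2.count j = w2.length := (length_count w2).symm
  rw [hl] at key
  exact key

/-- the constant of the overlaps -/
def CH (e : ℕ) : ℝ := 2 * (6 * ((e : ℝ) + 3)) ^ (e + 1)

/-- the bound of the overlaps -/
def HH (e q : ℕ) : ℝ := CH e * (q : ℝ) ^ (e + 4) * (1 + Real.log (5 * (e + 3) * q : ℕ))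

lemma sum_gh {len : ℕ} (hlen : len ≤ 5 * (e + 3) * q) (hq : 1 ≤ q) :
    ∑ t ∈ Finset.range len, 2 * (q : ℝ) ^ 3 * (2 * ((3 * (e + 3) * q : ℕ) / ((t : ℝ) + 1))) ^
      (e + 1) ≤ HH e q := by
  have h1 : ∀ t ∈ Finset.range len, 2 * (q : ℝ) ^ 3 *
      (2 * ((3 * (e + 3) * q : ℕ) / ((t : ℝ) + 1))) ^ (e + 1) ≤
      CH e * (q : ℝ) ^ (e + 4) * (1 / ((t : ℝ) + 1)) := by
    intro t _
    have ht : (0 : ℝ) < (t : ℝ) + 1 := by positivity
    have h2 : (1 / ((t : ℝ) + 1)) ^ (e + 1) ≤ 1 / ((t : ℝ) + 1) := by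
      have h3 : 1 / ((t : ℝ) + 1) ≤ 1 := by
        rw [div_le_one ht]
        have : (0 : ℝ) ≤ t := Nat.cast_nonneg t
        linarith
      calc (1 / ((t : ℝ) + 1)) ^ (e + 1) ≤ (1 / ((t : ℝ) + 1)) ^ 1 :=
            pow_le_pow_of_le_one (by positivity) h3 (by omega)
        _ = _ := pow_one _
    have h4 : 2 * (q : ℝ) ^ 3 * (2 * ((3 * (e + 3) * q : ℕ) / ((t : ℝ) + 1))) ^ (e + 1) =
        CH e * (q : ℝ) ^ (e + 4) * (1 / ((t : ℝ) + 1)) ^ (e + 1) := by
      unfold CH
      have h5 : 2 * (((3 * (e + 3) * q : ℕ) : ℝ) / ((t : ℝ) + 1)) =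
          (6 * ((e : ℝ) + 3)) * q * (1 / ((t : ℝ) + 1)) := by
        push_cast
        ring
      rw [h5, mul_pow, mul_pow]
      ring
    rw [h4]
    exact mul_le_mul_of_nonneg_left h2 (by unfold CH; positivity)
  refine (Finset.sum_le_sum h1).trans ?_
  rw [← Finset.mul_sum]
  unfold HH
  refine mul_le_mul_of_nonneg_left ?_ (by unfold CH; positivity)
  refine (Finset.sum_le_sum_of_subset_of_nonneg (Finset.range_subset_range.2 hlen) fun t _ _ => by
    positivity).trans (harm_le _)

/-- the overlaps of the first parts -/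
lemma ovA (hq : 1 ≤ q) (hqm : 5 * (e + 3) * q < 2 * m) (x : Fin (e + 3) → ZMod (2 * m))
    (o : OO e q) : ∑ f ∈ (lk eT x (stA o)).toFinset,
      ((Finset.univ.filter fun o' : OO e q => f ∈ lk eT x (stA o')).card : ℝ) ≤ HH e q := by
  have hlen : (stA o).length ≤ 5 * (e + 3) * q := by
    rw [length_count]
    simp only [count_stA]
    exact (sum_vA o).trans (Nat.mul_le_mul_right _ (Nat.mul_le_mul_right _ (by norm_num)))
  have hq5 : 5 * q < 2 * m := by nlinarith
  rw [List.sum_toFinset _ (lk_nodup x (lt_of_le_of_lt hlen hqm))]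
  refine (sum_lk_le (u := (eT : Fin (e + 3) → Fin (e + 3) → ZMod (2 * m))) (x := x)
    (h := fun f => ((Finset.univ.filter fun o' : OO e q => f ∈ lk eT x (stA o')).card : ℝ))
    (g := fun t => 2 * (q : ℝ) ^ 3 * (2 * ((3 * (e + 3) * q : ℕ) / ((t : ℝ) + 1))) ^ (e + 1))
    (fun w1 i w2 h => countA hq5 x o h)).trans (sum_gh hlen hq)

/-- the overlaps of the last parts -/
lemma ovB (hq : 1 ≤ q) (hqm : 5 * (e + 3) * q < 2 * m) (z : Fin (e + 3) → ZMod (2 * m))
    {y : OO e q → Fin (e + 3) → ZMod (2 * m)} (hy : ∀ o, y o + dsp eT (stB o) = z)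
    (o : OO e q) : ∑ f ∈ (lk eT (y o) (stB o)).toFinset,
      ((Finset.univ.filter fun o' : OO e q => f ∈ lk eT (y o') (stB o')).card : ℝ) ≤ HH e q := by
  have hlen : (stB o).length ≤ 5 * (e + 3) * q := by
    rw [length_count]
    simp only [count_stB]
    exact (sum_vB o).trans (Nat.mul_le_mul_right _ (Nat.mul_le_mul_right _ (by norm_num)))
  have hq5 : 5 * q < 2 * m := by nlinarith
  rw [List.sum_toFinset _ (lk_nodup (y o) (lt_of_le_of_lt hlen hqm))]
  refine (sum_lk_le' (u := (eT : Fin (e + 3) → Fin (e + 3) → ZMod (2 * m))) (x := y o)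
    (h := fun f => ((Finset.univ.filter fun o' : OO e q => f ∈ lk eT (y o') (stB o')).card : ℝ))
    (g := fun t => 2 * (q : ℝ) ^ 3 * (2 * ((3 * (e + 3) * q : ℕ) / ((t : ℝ) + 1))) ^ (e + 1))
    (fun w1 i w2 h => countB hq5 z hy o h)).trans (sum_gh hlen hq)

end

end Pool.Agent.Q234.SQ
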