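import Mathlib
import Pool.Agent.Y14.Fam

/-!
# Response of averages of transports to the noise, link by link
-/

open MeasureTheory Matrix Filter
open scoped Matrix.Norms.Frobenius ContDiff Topology
open Pool.Agent.H906R3.YM Pool.Agent.W793.YM
open Pool.Agent.Y14

namespace Pool.Agent.Q234.SQ

set_option linter.unusedSectionVars false
set_option linter.unusedVariables false

noncomputable section

section mat

variable {N : ℕ}

lemma sum_norm_EE' (Z : Mat N) : ∑ κ, ‖Z * EE κ‖ ^ 2 = 2 * N * ‖Z‖ ^ 2 := by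
  have h1 : ∀ κ : Fin N × Fin N × Bool, ‖Z * EE κ‖ ^ 2 = ∑ a, ‖Z a κ.1‖ ^ 2 := by
    intro κ
    rw [norm_sq_entries]
    refine Finset.sum_congr rfl fun a _ => ?_
    rw [Finset.sum_eq_single κ.2.1]
    · rw [Matrix.mul_apply, Finset.sum_eq_single κ.1]
      · rw [EE_apply, if_pos ⟨rfl, rfl⟩, norm_mul]
        split_ifs <;> simp
      · intro c _ hc
        rw [EE_apply, if_neg (fun h => hc h.1.symm), mul_zero]
      · simp
    · intro b _ hb
      rw [Matrix.mul_apply, Finset.sum_eq_zero, norm_zero]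
      · ring
      · intro c _
        rw [EE_apply, if_neg (fun h => hb h.2.symm), mul_zero]
    · simp
  simp only [h1]
  rw [Fintype.sum_prod_type]
  simp only [Finset.sum_const, Finset.card_univ, Fintype.card_prod, Fintype.card_fin,
    Fintype.card_bool, nsmul_eq_mul]
  rw [← Finset.mul_sum, norm_sq_entries, Finset.sum_comm]
  push_cast
  ring

end mat

section path

variable {N : ℕ} {E : Type*} [DecidableEq E] [Fintype E] {J : Finset E}

lemma av_noise_sqR (δ : ℝ) {e : E} (he : e ∈ J) {Z : (IJ J N → Bool) → Mat N} (hZ : Ind e Z) :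
    av (fun s => ‖Z s * mx J (sg δ s) e‖ ^ 2) = 2 * N * δ ^ 2 * av (fun s => ‖Z s‖ ^ 2) := by
  have h1 : ∀ s, ‖Z s * mx J (sg δ s) e‖ ^ 2 = ∑ κ, ∑ κ', sg δ s (⟨e, he⟩, κ) *
      sg δ s (⟨e, he⟩, κ') * ip (Z s * EE κ) (Z s * EE κ') := by
    intro s
    have e1 : Z s * mx J (sg δ s) e = ∑ κ, sg δ s (⟨e, he⟩, κ) • (Z s * EE κ) := by
      unfold mx
      rw [dif_pos he, Finset.mul_sum]
      exact Finset.sum_congr rfl fun κ _ => mul_smul_comm _ _ _
    have e2 : ∀ (K : Fin N × Fin N × Bool → Mat N) (B : Mat N), ip (∑ κ, K κ) B =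
        ∑ κ, ip (K κ) B := by
      intro K B
      rw [ip_apply, conjTranspose_sum, Finset.sum_mul, trace_sum, Complex.re_sum]
      rfl
    have e3 : ∀ (c : ℝ) (A B : Mat N), ip (c • A) B = c * ip A B := by
      intro c A B
      rw [ip_apply, ip_apply, conjTranspose_smul, smul_mul_assoc, trace_smul]
      simp
    rw [norm_sq_ip, e1, e2]
    refine Finset.sum_congr rfl fun κ _ => ?_
    rw [map_sum]
    refine Finset.sum_congr rfl fun κ' _ => ?_
    rw [map_smul, e3, smul_eq_mul]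
    ring
  simp only [h1]
  rw [av_sum]
  have h2 : ∀ κ, av (fun s => ∑ κ', sg δ s (⟨e, he⟩, κ) *
      sg δ s (⟨e, he⟩, κ') * ip (Z s * EE κ) (Z s * EE κ')) =
      δ ^ 2 * av (fun s => ‖Z s * EE κ‖ ^ 2) := by
    intro κ
    rw [av_sum, Finset.sum_eq_single κ]
    · rw [← av_smul]
      congr 1
      funext s
      have : sg δ s (⟨e, he⟩, κ) * sg δ s (⟨e, he⟩, κ) = δ ^ 2 := by
        unfold sg; split_ifs <;> ring
      rw [this, norm_sq_ip]
    · intro κ' _ hκ
      refine av_odd (S := fun i : IJ J N => i = (⟨e, he⟩, κ)) fun s => ?_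
      have e1 : Z (fl (fun i : IJ J N => i = (⟨e, he⟩, κ)) s) = Z s := by
        refine hZ _ _ fun i hi => ?_
        unfold fl
        rw [if_neg]
        rintro rfl
        exact hi rfl
      rw [e1, sg_fl, sg_fl, if_pos rfl, if_neg (fun h => hκ (Prod.ext_iff.1 h).2)]
      ring
    · simp
  simp only [h2]
  rw [← Finset.mul_sum, ← av_sum]
  simp only [sum_norm_EE']
  rw [av_smul]; ring

/-- one more link with noise, on the right -/
lemma noise_stepR (δ : ℝ) {e : E} (he : e ∈ J) (X : Mat N) {Y Z : (IJ J N → Bool) → Mat N}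
    (hY : Ind e Y) (hZ : Ind e Z) :
    av (fun s => ‖Y s * X + Z s * mx J (sg δ s) e‖ ^ 2) =
      av (fun s => ‖Y s * X‖ ^ 2) + 2 * N * δ ^ 2 * av (fun s => ‖Z s‖ ^ 2) := by
  simp only [nsq_add]
  rw [av_add, av_add, av_noise_sqR δ he hZ]
  have h1 : av (fun s => 2 * ip (Y s * X) (Z s * mx J (sg δ s) e)) = 0 := by
    refine av_odd (S := fun i : IJ J N => i.1.1 = e) fun s => ?_
    have h2 := mx_sg_fl (N := N) (J := J) δ (fun e' => e' = e) s e
    rw [if_pos rfl] at h2
    rw [hY.fl, hZ.fl, h2, mul_neg, map_neg]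
    ring
  rw [h1]; ring

/-- the noise on the links of `T` -/
def sT (T : Finset E) (δ : ℝ) (s : IJ J N → Bool) : IJ J N → ℝ :=
  fun i => if i.1.1 ∈ T then sg δ s i else 0

variable {x : IJ J N → ℝ} {δ : ℝ} {T : Finset E}

lemma mx_sT (s : IJ J N → Bool) (e : E) :
    mx J (sT T δ s) e = if e ∈ T then mx J (sg δ s) e else 0 := by
  split_ifs with h
  · refine mx_congr fun i hi => ?_
    unfold sT
    rw [if_pos (by rw [hi]; exact h)]
  · unfold mx
    split_ifs with he
    · refine Finset.sum_eq_zero fun κ _ => ?_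
      unfold sT
      rw [if_neg h, zero_smul]
    · rfl

lemma sT_empty (s : IJ J N → Bool) : sT (∅ : Finset E) δ s = 0 := by
  funext i; simp [sT]

lemma sT_univ (s : IJ J N → Bool) : sT (Finset.univ : Finset E) δ s = sg δ s := by
  funext i; simp [sT]

/-- the noisy transport -/
def pT (J : Finset E) (x : IJ J N → ℝ) (δ : ℝ) (T : Finset E) (l : List E)
    (s : IJ J N → Bool) : Mat N := pm J (x + sT T δ s) l

lemma pT_nil (s : IJ J N → Bool) : pT J x δ T [] s = 1 := pm_nil _

lemma pT_cons (e : E) (l : List E) (s : IJ J N → Bool) :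
    pT J x δ T (e :: l) s = (mx J x e + if e ∈ T then mx J (sg δ s) e else 0) * pT J x δ T l s := by
  unfold pT
  rw [pm_cons, mx_add, mx_sT]

lemma pT_append (l l' : List E) (s : IJ J N → Bool) :
    pT J x δ T (l ++ l') s = pT J x δ T l s * pT J x δ T l' s := pm_append _ _ _

lemma ind_mul {e : E} {Y Z : (IJ J N → Bool) → Mat N} (hY : Ind e Y) (hZ : Ind e Z) :
    Ind e fun s => Y s * Z s := fun s s' h => by
  simp only
  rw [hY s s' h, hZ s s' h]

lemma ind_sub {e : E} {Y Z : (IJ J N → Bool) → Mat N} (hY : Ind e Y) (hZ : Ind e Z) :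
    Ind e fun s => Y s - Z s := fun s s' h => by
  simp only
  rw [hY s s' h, hZ s s' h]

lemma ind_sum {e : E} {K : Type*} (S : Finset K) {Y : K → (IJ J N → Bool) → Mat N}
    (hY : ∀ k, Ind e (Y k)) : Ind e fun s => ∑ k ∈ S, Y k s := fun s s' h => by
  simp only
  exact Finset.sum_congr rfl fun k _ => hY k s s' h

lemma ind_const {e : E} (A : Mat N) : Ind (J := J) e fun _ => A := fun _ _ _ => rfl

lemma ind_pT {e : E} {l : List E} (he : e ∉ l) : Ind e (pT J x δ T l) := by
  intro s s' h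
  refine pm_congr fun i hi => ?_
  have : i.1.1 ≠ e := by rintro rfl; exact he hi
  rw [Pi.add_apply, Pi.add_apply]
  unfold sT sg
  rw [h i this]

lemma ind_pT' {e : E} (he : e ∉ T) (l : List E) : Ind e (pT J x δ T l) := by
  intro s s' h
  refine pm_congr fun i hi => ?_
  rw [Pi.add_apply, Pi.add_apply]
  unfold sT
  by_cases hT : i.1.1 ∈ T
  · have : i.1.1 ≠ e := by rintro rfl; exact he hT
    rw [if_pos hT, if_pos hT]
    unfold sg
    rw [h i this]
  · rw [if_neg hT, if_neg hT]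

lemma ind_xi {e e' : E} (he : e' ≠ e) (c : Mat N) :
    Ind e fun s : IJ J N → Bool => c + if e' ∈ T then mx J (sg δ s) e' else 0 := by
  intro s s' h
  have h1 := ind_mx (N := N) (J := J) (δ := δ) he s s' h
  simp only at h1 ⊢
  rw [h1]

lemma stepL {e : E} (he : e ∈ J) (hX : (mx J x e)ᴴ * mx J x e = 1)
    {Z : (IJ J N → Bool) → Mat N} (hZ : Ind e Z) :
    av (fun s => ‖(mx J x e + if e ∈ T then mx J (sg δ s) e else 0) * Z s‖ ^ 2) ≤
      (1 + 2 * N * δ ^ 2) * av (fun s => ‖Z s‖ ^ 2) := by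
  have h0 : 0 ≤ av (fun s => ‖Z s‖ ^ 2) := av_nonneg fun s => sq_nonneg _
  have h1 : (0 : ℝ) ≤ 2 * N * δ ^ 2 := by positivity
  by_cases hT : e ∈ T
  · simp only [if_pos hT, add_mul]
    rw [noise_step δ he _ hZ hZ]
    simp only [norm_unit_mul hX]
    exact le_of_eq (by ring)
  · simp only [if_neg hT, add_zero, norm_unit_mul hX]
    nlinarith

lemma stepR {e : E} (he : e ∈ J) (hX : (mx J x e)ᴴ * mx J x e = 1)
    {Z : (IJ J N → Bool) → Mat N} (hZ : Ind e Z) :
    av (fun s => ‖Z s * (mx J x e + if e ∈ T then mx J (sg δ s) e else 0)‖ ^ 2) ≤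
      (1 + 2 * N * δ ^ 2) * av (fun s => ‖Z s‖ ^ 2) := by
  have h0 : 0 ≤ av (fun s => ‖Z s‖ ^ 2) := av_nonneg fun s => sq_nonneg _
  have h1 : (0 : ℝ) ≤ 2 * N * δ ^ 2 := by positivity
  by_cases hT : e ∈ T
  · simp only [if_pos hT, mul_add]
    rw [noise_stepR δ he _ hZ hZ]
    simp only [norm_mul_unit hX]
    exact le_of_eq (by ring)
  · simp only [if_neg hT, add_zero, norm_mul_unit hX]
    nlinarith

lemma peelL {l : List E} (hl : l.Nodup) (hu : Un J x l) {Z : (IJ J N → Bool) → Mat N}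
    (hZ : ∀ e ∈ l, Ind e Z) :
    av (fun s => ‖pT J x δ T l s * Z s‖ ^ 2) ≤
      (1 + 2 * N * δ ^ 2) ^ l.length * av (fun s => ‖Z s‖ ^ 2) := by
  induction l with
  | nil => simp only [pT_nil, one_mul, List.length_nil, pow_zero, le_refl]
  | cons e l ih =>
    have hl' := List.nodup_cons.1 hl
    have hu' : Un J x l := fun e' he' => hu e' (List.mem_cons_of_mem _ he')
    obtain ⟨he, hX⟩ := hu e List.mem_cons_self
    have h1 := stepL (T := T) (δ := δ) he hX
      (ind_mul (ind_pT (x := x) (δ := δ) (T := T) hl'.1) (hZ e List.mem_cons_self))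
    have h2 := ih hl'.2 hu' fun e' he' => hZ e' (List.mem_cons_of_mem _ he')
    have e4 : (fun s : IJ J N → Bool => ‖pT J x δ T (e :: l) s * Z s‖ ^ 2) =
        fun s => ‖(mx J x e + if e ∈ T then mx J (sg δ s) e else 0) * (pT J x δ T l s * Z s)‖ ^ 2 := by
      funext s; rw [pT_cons, mul_assoc]
    rw [e4]
    refine h1.trans ?_
    have e3 : (1 + 2 * (N : ℝ) * δ ^ 2) ^ (e :: l).length =
        (1 + 2 * N * δ ^ 2) * (1 + 2 * N * δ ^ 2) ^ l.length := by
      rw [List.length_cons]; exact pow_succ' _ _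
    rw [e3, mul_assoc (1 + 2 * (N : ℝ) * δ ^ 2)]
    exact mul_le_mul_of_nonneg_left h2 (by positivity)

lemma peelR {l : List E} (hl : l.Nodup) (hu : Un J x l) {Z : (IJ J N → Bool) → Mat N}
    (hZ : ∀ e ∈ l, Ind e Z) :
    av (fun s => ‖Z s * pT J x δ T l s‖ ^ 2) ≤
      (1 + 2 * N * δ ^ 2) ^ l.length * av (fun s => ‖Z s‖ ^ 2) := by
  induction l generalizing Z with
  | nil => simp only [pT_nil, mul_one, List.length_nil, pow_zero, one_mul, le_refl]
  | cons e l ih =>
    have hl' := List.nodup_cons.1 hl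
    have hu' : Un J x l := fun e' he' => hu e' (List.mem_cons_of_mem _ he')
    obtain ⟨he, hX⟩ := hu e List.mem_cons_self
    have h1 := stepR (T := T) (δ := δ) he hX (hZ e List.mem_cons_self)
    have h2 := ih hl'.2 hu' (Z := fun s => Z s * (mx J x e + if e ∈ T then mx J (sg δ s) e else 0))
      fun e' he' => ind_mul (hZ e' (List.mem_cons_of_mem _ he')) (ind_xi (by
        rintro rfl; exact hl'.1 he') _)
    have e4 : (fun s : IJ J N → Bool => ‖Z s * pT J x δ T (e :: l) s‖ ^ 2) =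
        fun s => ‖Z s * (mx J x e + if e ∈ T then mx J (sg δ s) e else 0) * pT J x δ T l s‖ ^ 2 := by
      funext s; rw [pT_cons, mul_assoc]
    rw [e4]
    refine h2.trans ?_
    have e3 : (1 + 2 * (N : ℝ) * δ ^ 2) ^ (e :: l).length =
        (1 + 2 * N * δ ^ 2) ^ l.length * (1 + 2 * N * δ ^ 2) := by
      rw [List.length_cons]; exact pow_succ _ _
    rw [e3, mul_assoc ((1 + 2 * (N : ℝ) * δ ^ 2) ^ l.length)]
    exact mul_le_mul_of_nonneg_left h1 (by positivity)

/-- the variation -/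
def dl (J : Finset E) (x : IJ J N → ℝ) (δ : ℝ) (T : Finset E) (e : E) (l : List E)
    (s : IJ J N → Bool) : Mat N := pT J x δ (insert e T) l s - pT J x δ T l s

lemma dl_nil (e : E) (s : IJ J N → Bool) : dl J x δ T e [] s = 0 := by
  unfold dl; rw [pT_nil, pT_nil, sub_self]

lemma pT_ins {e : E} {l : List E} (he : e ∉ l) (s : IJ J N → Bool) :
    pT J x δ (insert e T) l s = pT J x δ T l s := by
  refine pm_congr fun i hi => ?_
  have h1 : i.1.1 ≠ e := by rintro rfl; exact he hi
  rw [Pi.add_apply, Pi.add_apply]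
  unfold sT
  have h2 : i.1.1 ∈ insert e T ↔ i.1.1 ∈ T := by
    rw [Finset.mem_insert]
    exact ⟨fun h => h.resolve_left h1, Or.inr⟩
  simp only [h2]

lemma dl_not {e : E} {l : List E} (he : e ∉ l) (s : IJ J N → Bool) : dl J x δ T e l s = 0 := by
  unfold dl; rw [pT_ins he, sub_self]

lemma dl_self {e : E} (heT : e ∉ T) {l : List E} (he : e ∉ l) (s : IJ J N → Bool) :
    dl J x δ T e (e :: l) s = mx J (sg δ s) e * pT J x δ T l s := by
  unfold dl
  rw [pT_cons, pT_cons, pT_ins he, if_pos (Finset.mem_insert_self _ _), if_neg heT]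
  noncomm_ring

lemma dl_ne {e f : E} (h : f ≠ e) (l : List E) (s : IJ J N → Bool) :
    dl J x δ T e (f :: l) s =
      (mx J x f + if f ∈ T then mx J (sg δ s) f else 0) * dl J x δ T e l s := by
  unfold dl
  have h2 : f ∈ insert e T ↔ f ∈ T := by
    rw [Finset.mem_insert]
    exact ⟨fun h' => h'.resolve_left h, Or.inr⟩
  rw [pT_cons, pT_cons]
  simp only [h2]
  rw [mul_sub]

lemma dl_append {e : E} {l l' : List E} (hl : (l ++ l').Nodup) (s : IJ J N → Bool) :
    dl J x δ T e (l ++ l') s =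
      dl J x δ T e l s * pT J x δ T l' s + pT J x δ T l s * dl J x δ T e l' s := by
  by_cases h : e ∈ l
  · have h' : e ∉ l' := fun h1 => (List.disjoint_of_nodup_append hl) h h1
    rw [dl_not h', mul_zero, add_zero]
    unfold dl
    rw [pT_append, pT_append, pT_ins h', sub_mul]
  · rw [dl_not h, zero_mul, zero_add]
    unfold dl
    rw [pT_append, pT_append, pT_ins h, mul_sub]

lemma ind_dl {e f : E} {l : List E} (he : f ∉ l) : Ind f (dl J x δ T e l) :=
  ind_sub (ind_pT he) (ind_pT he)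

lemma dl_fl {e : E} (heT : e ∉ T) {l : List E} (hl : l.Nodup) (s : IJ J N → Bool) :
    dl J x δ T e l (fl (fun i : IJ J N => i.1.1 = e) s) = -dl J x δ T e l s := by
  induction l with
  | nil => rw [dl_nil, dl_nil, neg_zero]
  | cons f l ih =>
    have hl' := List.nodup_cons.1 hl
    by_cases h : f = e
    · subst h
      rw [dl_self heT hl'.1, dl_self heT hl'.1]
      have h2 := mx_sg_fl (N := N) (J := J) δ (fun e' => e' = f) s f
      rw [if_pos rfl] at h2
      rw [h2, (ind_pT (x := x) (δ := δ) (T := T) hl'.1).fl, neg_mul]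
    · rw [dl_ne h, dl_ne h, ih hl'.2, mul_neg]
      rw [(ind_xi (T := T) (δ := δ) (J := J) h (mx J x f)).fl]

lemma dlL {e : E} (heT : e ∉ T) {l : List E} (hl : l.Nodup) (hu : Un J x l)
    {Z : (IJ J N → Bool) → Mat N} (hZ : ∀ f ∈ l, Ind f Z) :
    av (fun s => ‖dl J x δ T e l s * Z s‖ ^ 2) ≤
      2 * N * δ ^ 2 * (1 + 2 * N * δ ^ 2) ^ l.length * av (fun s => ‖Z s‖ ^ 2) := by
  have h0 : 0 ≤ av (fun s => ‖Z s‖ ^ 2) := av_nonneg fun s => sq_nonneg _
  induction l with
  | nil =>
    simp only [dl_nil, zero_mul, norm_zero, ne_eq, OfNat.ofNat_ne_zero, not_false_eq_true,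
      zero_pow, av_const]
    positivity
  | cons f l ih =>
    have hl' := List.nodup_cons.1 hl
    have hu' : Un J x l := fun e' he' => hu e' (List.mem_cons_of_mem _ he')
    obtain ⟨hf, hX⟩ := hu f List.mem_cons_self
    have h1 : (1 : ℝ) ≤ 1 + 2 * N * δ ^ 2 := by
      have : (0 : ℝ) ≤ 2 * N * δ ^ 2 := by positivity
      linarith
    by_cases h : f = e
    · subst h
      have e4 : (fun s : IJ J N → Bool => ‖dl J x δ T f (f :: l) s * Z s‖ ^ 2) =
          fun s => ‖mx J (sg δ s) f * (pT J x δ T l s * Z s)‖ ^ 2 := by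
        funext s; rw [dl_self heT hl'.1, mul_assoc]
      rw [e4]
      rw [av_noise_sq δ hf (ind_mul (ind_pT hl'.1) (hZ f List.mem_cons_self)), mul_assoc (2 * N * δ ^ 2)]
      refine mul_le_mul_of_nonneg_left ?_ (by positivity)
      refine (peelL hl'.2 hu' fun e' he' => hZ e' (List.mem_cons_of_mem _ he')).trans ?_
      refine mul_le_mul_of_nonneg_right (pow_le_pow_right₀ h1 ?_) h0
      rw [List.length_cons]; omega
    · have e4 : (fun s : IJ J N → Bool => ‖dl J x δ T e (f :: l) s * Z s‖ ^ 2) =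
          fun s => ‖(mx J x f + if f ∈ T then mx J (sg δ s) f else 0) *
            (dl J x δ T e l s * Z s)‖ ^ 2 := by
        funext s; rw [dl_ne h, mul_assoc]
      rw [e4]
      refine (stepL hf hX (ind_mul (ind_dl hl'.1) (hZ f List.mem_cons_self))).trans ?_
      have h2 := ih hl'.2 hu' fun e' he' => hZ e' (List.mem_cons_of_mem _ he')
      have e3 : (1 + 2 * (N : ℝ) * δ ^ 2) ^ (f :: l).length =
          (1 + 2 * N * δ ^ 2) * (1 + 2 * N * δ ^ 2) ^ l.length := by
        rw [List.length_cons]; exact pow_succ' _ _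
      rw [e3]
      calc _ ≤ (1 + 2 * N * δ ^ 2) * (2 * N * δ ^ 2 * (1 + 2 * N * δ ^ 2) ^ l.length *
            av (fun s => ‖Z s‖ ^ 2)) := mul_le_mul_of_nonneg_left h2 (by positivity)
        _ = _ := by ring

lemma dlR {e : E} (heT : e ∉ T) {l : List E} (hl : l.Nodup) (hu : Un J x l)
    {Z : (IJ J N → Bool) → Mat N} (hZ : ∀ f ∈ l, Ind f Z) :
    av (fun s => ‖Z s * dl J x δ T e l s‖ ^ 2) ≤
      2 * N * δ ^ 2 * (1 + 2 * N * δ ^ 2) ^ l.length * av (fun s => ‖Z s‖ ^ 2) := by
  induction l generalizing Z with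
  | nil =>
    have h0 : 0 ≤ av (fun s => ‖Z s‖ ^ 2) := av_nonneg fun s => sq_nonneg _
    simp only [dl_nil, mul_zero, norm_zero, ne_eq, OfNat.ofNat_ne_zero, not_false_eq_true,
      zero_pow, av_const]
    positivity
  | cons f l ih =>
    have h0 : 0 ≤ av (fun s => ‖Z s‖ ^ 2) := av_nonneg fun s => sq_nonneg _
    have hl' := List.nodup_cons.1 hl
    have hu' : Un J x l := fun e' he' => hu e' (List.mem_cons_of_mem _ he')
    obtain ⟨hf, hX⟩ := hu f List.mem_cons_self
    have h1 : (1 : ℝ) ≤ 1 + 2 * N * δ ^ 2 := by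
      have : (0 : ℝ) ≤ 2 * N * δ ^ 2 := by positivity
      linarith
    by_cases h : f = e
    · subst h
      have e4 : (fun s : IJ J N → Bool => ‖Z s * dl J x δ T f (f :: l) s‖ ^ 2) =
          fun s => ‖Z s * mx J (sg δ s) f * pT J x δ T l s‖ ^ 2 := by
        funext s; rw [dl_self heT hl'.1, mul_assoc]
      rw [e4]
      refine (peelR hl'.2 hu' (Z := fun s => Z s * mx J (sg δ s) f) fun e' he' =>
        ind_mul (hZ e' (List.mem_cons_of_mem _ he')) (ind_mx (by
          rintro rfl; exact hl'.1 he'))).trans ?_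
      rw [av_noise_sqR δ hf (hZ f List.mem_cons_self), List.length_cons]
      have h2 : (1 + 2 * (N : ℝ) * δ ^ 2) ^ l.length ≤ (1 + 2 * N * δ ^ 2) ^ (l.length + 1) :=
        pow_le_pow_right₀ h1 (by omega)
      calc _ ≤ (1 + 2 * (N : ℝ) * δ ^ 2) ^ (l.length + 1) * (2 * N * δ ^ 2 *
            av (fun s => ‖Z s‖ ^ 2)) := mul_le_mul_of_nonneg_right h2 (by positivity)
        _ = _ := by ring
    · have e4 : (fun s : IJ J N → Bool => ‖Z s * dl J x δ T e (f :: l) s‖ ^ 2) =
          fun s => ‖Z s * (mx J x f + if f ∈ T then mx J (sg δ s) f else 0) *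
            dl J x δ T e l s‖ ^ 2 := by
        funext s; rw [dl_ne h, mul_assoc]
      rw [e4]
      refine (ih hl'.2 hu' (Z := fun s => Z s *
        (mx J x f + if f ∈ T then mx J (sg δ s) f else 0)) fun e' he' =>
        ind_mul (hZ e' (List.mem_cons_of_mem _ he')) (ind_xi (by
          rintro rfl; exact hl'.1 he') _)).trans ?_
      have e3 : (1 + 2 * (N : ℝ) * δ ^ 2) ^ (f :: l).length =
          (1 + 2 * N * δ ^ 2) ^ l.length * (1 + 2 * N * δ ^ 2) := by
        rw [List.length_cons]; exact pow_succ _ _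
      rw [e3]
      calc _ ≤ 2 * N * δ ^ 2 * (1 + 2 * N * δ ^ 2) ^ l.length * ((1 + 2 * N * δ ^ 2) *
            av (fun s => ‖Z s‖ ^ 2)) :=
            mul_le_mul_of_nonneg_left (stepR hf hX (hZ f List.mem_cons_self)) (by positivity)
        _ = _ := by ring

/-- the effect of the noise on a transport -/
lemma pT_sub {l : List E} (hl : l.Nodup) (hu : Un J x l) :
    av (fun s => ‖pT J x δ T l s - pm J x l‖ ^ 2) ≤
      2 * N * δ ^ 2 * l.length * (N * (1 + 2 * N * δ ^ 2) ^ l.length) := by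
  induction l with
  | nil => simp [pT_nil, pm_nil, av_const]
  | cons e l ih =>
    have hl' := List.nodup_cons.1 hl
    have hu' : Un J x l := fun e' he' => hu e' (List.mem_cons_of_mem _ he')
    obtain ⟨he, hX⟩ := hu e List.mem_cons_self
    have h2 := ih hl'.2 hu'
    have h3 : (1 + 2 * (N : ℝ) * δ ^ 2) ^ l.length ≤ (1 + 2 * (N : ℝ) * δ ^ 2) ^ (l.length + 1) :=
      pow_le_pow_right₀ (by nlinarith [show (0 : ℝ) ≤ 2 * N * δ ^ 2 by positivity]) (by omega)
    have h4 : (0 : ℝ) ≤ 2 * N * δ ^ 2 := by positivity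
    have h5 : (0 : ℝ) ≤ N := Nat.cast_nonneg _
    have h6 := mul_le_mul_of_nonneg_left h3 (mul_nonneg h4 h5)
    have h7 := mul_le_mul_of_nonneg_left h3
      (mul_nonneg (mul_nonneg h4 h5) (Nat.cast_nonneg l.length : (0 : ℝ) ≤ l.length))
    have h8 : av (fun s => ‖pT J x δ T l s‖ ^ 2) ≤ (1 + 2 * N * δ ^ 2) ^ l.length * N := by
      have := peelL (δ := δ) (T := T) hl'.2 hu' (Z := fun _ => 1) fun e _ => ind_const 1
      simp only [mul_one, norm_one_sq, av_const] at this
      exact this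
    rw [List.length_cons]
    by_cases hT : e ∈ T
    · have h1 : ∀ s, pT J x δ T (e :: l) s - pm J x (e :: l) =
          mx J x e * (pT J x δ T l s - pm J x l) +
          mx J (sg δ s) e * pT J x δ T l s := fun s => by
        rw [pT_cons, pm_cons, if_pos hT]; noncomm_ring
      simp only [h1]
      rw [noise_step δ he _ (ind_sub (ind_pT hl'.1) (ind_const _)) (ind_pT hl'.1)]
      simp only [norm_unit_mul hX]
      have h9 := mul_le_mul_of_nonneg_left h8 h4
      push_cast
      nlinarith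
    · have h1 : ∀ s, pT J x δ T (e :: l) s - pm J x (e :: l) =
          mx J x e * (pT J x δ T l s - pm J x l) := fun s => by
        rw [pT_cons, pm_cons, if_neg hT]; noncomm_ring
      simp only [h1, norm_unit_mul hX]
      push_cast
      have h10 : (0 : ℝ) ≤ 2 * N * δ ^ 2 * N * (1 + 2 * N * δ ^ 2) ^ (l.length + 1) := by
        positivity
      nlinarith

end path

end

end Pool.Agent.Q234.SQ
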