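import Mathlib
import Pool.Agent.Q234.SQ.Noise

/-!
# Response of averages of transports to the noise: families of paths
-/

open MeasureTheory Matrix Filter
open scoped Matrix.Norms.Frobenius ContDiff Topology
open Pool.Agent.H906R3.YM Pool.Agent.W793.YM
open Pool.Agent.Y14

namespace Pool.Agent.Q234.SQ

set_option linter.unusedSectionVars false
set_option linter.unusedVariables false

noncomputable section

variable {N : ℕ} {E : Type*} [DecidableEq E] [Fintype E] {J : Finset E} {x : IJ J N → ℝ} {δ : ℝ}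

lemma nsq4 (t1 t2 t3 t4 : Mat N) : ‖t1 + t2 + t3 - t4‖ ^ 2 ≤
    4 * (‖t1‖ ^ 2 + ‖t2‖ ^ 2 + ‖t3‖ ^ 2 + ‖t4‖ ^ 2) := by
  have h1 : ‖t1 + t2 + t3 - t4‖ ≤ ‖t1‖ + ‖t2‖ + ‖t3‖ + ‖t4‖ :=
    (norm_sub_le _ _).trans (add_le_add ((norm_add_le _ _).trans
      (add_le_add (norm_add_le _ _) le_rfl)) le_rfl)
  have h2 := pow_le_pow_left₀ (norm_nonneg _) h1 2
  nlinarith [sq_nonneg (‖t1‖ - ‖t2‖), sq_nonneg (‖t1‖ - ‖t3‖), sq_nonneg (‖t1‖ - ‖t4‖),
    sq_nonneg (‖t2‖ - ‖t3‖), sq_nonneg (‖t2‖ - ‖t4‖), sq_nonneg (‖t3‖ - ‖t4‖)]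

lemma nsq3 (t1 t2 t3 : Mat N) : ‖t1 + t2 - t3‖ ^ 2 ≤
    3 * (‖t1‖ ^ 2 + ‖t2‖ ^ 2 + ‖t3‖ ^ 2) := by
  have h1 : ‖t1 + t2 - t3‖ ≤ ‖t1‖ + ‖t2‖ + ‖t3‖ :=
    (norm_sub_le _ _).trans (add_le_add (norm_add_le _ _) le_rfl)
  have h2 := pow_le_pow_left₀ (norm_nonneg _) h1 2
  nlinarith [sq_nonneg (‖t1‖ - ‖t2‖), sq_nonneg (‖t1‖ - ‖t3‖), sq_nonneg (‖t2‖ - ‖t3‖)]

/-- sums of terms which vanish outside a set -/
lemma av_sum_sub {O : Type*} [Fintype O] (F : Finset O) {t : O → (IJ J N → Bool) → Mat N}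
    (h0 : ∀ o ∉ F, ∀ s, t o s = 0) {c : O → ℝ} (hc : ∀ o ∈ F, av (fun s => ‖t o s‖ ^ 2) ≤ c o) :
    av (fun s => ‖∑ o, t o s‖ ^ 2) ≤ F.card * ∑ o ∈ F, c o := by
  have h1 : ∀ s, ‖∑ o, t o s‖ ^ 2 ≤ ∑ o ∈ F, (F.card : ℝ) * ‖t o s‖ ^ 2 := by
    intro s
    have h2 : ∑ o, t o s = ∑ o ∈ F, t o s :=
      (Finset.sum_subset (Finset.subset_univ F) fun o _ ho => h0 o ho s).symm
    rw [h2, ← Finset.mul_sum]
    exact nsq_sum_le _ _
  refine (av_mono h1).trans ?_
  rw [av_sum, Finset.mul_sum]
  refine Finset.sum_le_sum fun o ho => ?_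
  rw [av_smul]
  exact mul_le_mul_of_nonneg_left (hc o ho) (Nat.cast_nonneg _)

/-- double counting -/
lemma swap_count {O : Type*} [Fintype O] (A : O → List E) {c : O → ℝ} (hc : ∀ o, 0 ≤ c o) {H : ℝ}
    (hA : ∀ o, ∑ e ∈ (A o).toFinset,
      ((Finset.univ.filter fun o' => e ∈ A o').card : ℝ) ≤ H) :
    ∑ e : E, ((Finset.univ.filter fun o => e ∈ A o).card : ℝ) *
      ∑ o ∈ Finset.univ.filter (fun o => e ∈ A o), c o ≤ H * ∑ o, c o := by
  have h1 : ∀ e : E, ((Finset.univ.filter fun o => e ∈ A o).card : ℝ) *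
      ∑ o ∈ Finset.univ.filter (fun o => e ∈ A o), c o =
      ∑ o, if e ∈ A o then ((Finset.univ.filter fun o => e ∈ A o).card : ℝ) * c o else 0 := by
    intro e
    rw [Finset.mul_sum, Finset.sum_filter]
  simp only [h1]
  rw [Finset.sum_comm, Finset.mul_sum]
  refine Finset.sum_le_sum fun o _ => ?_
  rw [← Finset.sum_filter]
  have h2 : (Finset.univ.filter fun e => e ∈ A o) = (A o).toFinset := by
    ext e; simp
  rw [h2, ← Finset.sum_mul]
  exact mul_le_mul_of_nonneg_right (hA o) (hc o)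

lemma swap_count' {O : Type*} [Fintype O] (R : O → List E) {K ℓ : ℕ} {c : ℝ} (hc : 0 ≤ c)
    (hn : ∀ o, (R o).Nodup) (hl : ∀ o, (R o).length ≤ ℓ)
    (hK : ∀ e, (Finset.univ.filter fun o => e ∈ R o).card ≤ K) :
    ∑ e : E, ((Finset.univ.filter fun o => e ∈ R o).card : ℝ) *
      ∑ _o ∈ Finset.univ.filter (fun o => e ∈ R o), c ≤ K * (c * ℓ * Fintype.card O) := by
  have h1 : ∀ e : E, ((Finset.univ.filter fun o => e ∈ R o).card : ℝ) *
      ∑ _o ∈ Finset.univ.filter (fun o => e ∈ R o), c ≤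
      K * ∑ o, if e ∈ R o then c else 0 := by
    intro e
    rw [Finset.sum_filter]
    refine mul_le_mul_of_nonneg_right (by exact_mod_cast hK e) (Finset.sum_nonneg fun o _ => ?_)
    split_ifs
    · exact hc
    · exact le_rfl
  refine (Finset.sum_le_sum fun e _ => h1 e).trans ?_
  rw [← Finset.mul_sum, Finset.sum_comm]
  refine mul_le_mul_of_nonneg_left ?_ (Nat.cast_nonneg _)
  calc _ ≤ ∑ _o : O, c * ℓ := by
        refine Finset.sum_le_sum fun o _ => ?_
        rw [← Finset.sum_filter]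
        have h2 : (Finset.univ.filter fun e => e ∈ R o) = (R o).toFinset := by
          ext e; simp
        rw [h2, Finset.sum_const, nsmul_eq_mul, List.toFinset_card_of_nodup (hn o), mul_comm]
        exact mul_le_mul_of_nonneg_left (by exact_mod_cast hl o) hc
    _ = _ := by rw [Finset.sum_const, Finset.card_univ, nsmul_eq_mul]; ring

/-- the estimates for the families of paths -/
theorem fam_noise2 {O : Type*} [Fintype O] {A R R' B : O → List E}
    (hP : ∀ o, (A o ++ R o ++ B o).Nodup) (hP' : ∀ o, (A o ++ R' o ++ B o).Nodup)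
    (hu : ∀ o, Un J x (A o ++ R o ++ B o)) (hu' : ∀ o, Un J x (A o ++ R' o ++ B o)) {K ℓ : ℕ}
    {H : ℝ} (hK : ∀ e, (Finset.univ.filter fun o => e ∈ R o).card ≤ K)
    (hK' : ∀ e, (Finset.univ.filter fun o => e ∈ R' o).card ≤ K)
    (hA : ∀ o, ∑ e ∈ (A o).toFinset,
      ((Finset.univ.filter fun o' => e ∈ A o').card : ℝ) ≤ H)
    (hB : ∀ o, ∑ e ∈ (B o).toFinset,
      ((Finset.univ.filter fun o' => e ∈ B o').card : ℝ) ≤ H)
    (hL : ∀ o, (A o ++ R o ++ B o).length ≤ ℓ) (hL' : ∀ o, (A o ++ R' o ++ B o).length ≤ ℓ)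
    (hδ : 2 * N * δ ^ 2 * ℓ ≤ 1) :
    av (fun s => ‖∑ o, (pm J (x + sg δ s) (A o ++ R o ++ B o) -
        pm J (x + sg δ s) (A o ++ R' o ++ B o)) -
      ∑ o, (pm J x (A o ++ R o ++ B o) - pm J x (A o ++ R' o ++ B o))‖ ^ 2) ≤
      72 * (2 * N * δ ^ 2) * H * ∑ o, (‖pm J x (R o) - pm J x (R' o)‖ ^ 2 +
        6 * (2 * N * δ ^ 2 * ℓ * N)) +
        24 * (2 * N * δ ^ 2) * N * K * ℓ * Fintype.card O := by
  obtain ⟨σ, hσ⟩ : ∃ σ : ℝ, σ = 2 * N * δ ^ 2 := ⟨_, rfl⟩
  have hσ0 : 0 ≤ σ := by rw [hσ]; positivity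
  have hN0 : (0 : ℝ) ≤ N := Nat.cast_nonneg _
  have hℓ0 : (0 : ℝ) ≤ ℓ := Nat.cast_nonneg _
  rw [← hσ]
  rw [← hσ] at hδ
  have p3 : ∀ {k : ℕ}, k ≤ ℓ → (1 + σ) ^ k ≤ 3 := fun hk => pow_le_three hσ0 hk hδ
  -- the parts
  have uA : ∀ o, Un J x (A o) := fun o => (hu o).sub fun e he => by simp [he]
  have uR : ∀ o, Un J x (R o) := fun o => (hu o).sub fun e he => by simp [he]
  have uB : ∀ o, Un J x (B o) := fun o => (hu o).sub fun e he => by simp [he]
  have uR' : ∀ o, Un J x (R' o) := fun o => (hu' o).sub fun e he => by simp [he]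
  have nA : ∀ o, (A o).Nodup := fun o => (hP o).of_append_left.of_append_left
  have nR : ∀ o, (R o).Nodup := fun o => (hP o).of_append_left.of_append_right
  have nB : ∀ o, (B o).Nodup := fun o => (hP o).of_append_right
  have nR' : ∀ o, (R' o).Nodup := fun o => (hP' o).of_append_left.of_append_right
  have nAR : ∀ o, (A o ++ R o).Nodup := fun o => (hP o).of_append_left
  have nAR' : ∀ o, (A o ++ R' o).Nodup := fun o => (hP' o).of_append_left
  have dAR : ∀ o, ∀ f ∈ A o, f ∉ R o := fun o f h1 h2 =>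
    (List.disjoint_of_nodup_append (nAR o)) h1 h2
  have dAR' : ∀ o, ∀ f ∈ A o, f ∉ R' o := fun o f h1 h2 =>
    (List.disjoint_of_nodup_append (nAR' o)) h1 h2
  have dAB : ∀ o, ∀ f ∈ A o, f ∉ B o := fun o f h1 h2 =>
    (List.disjoint_of_nodup_append (hP o)) (List.mem_append_left _ h1) h2
  have dRB : ∀ o, ∀ f ∈ R o, f ∉ B o := fun o f h1 h2 =>
    (List.disjoint_of_nodup_append (hP o)) (List.mem_append_right _ h1) h2
  have dRB' : ∀ o, ∀ f ∈ R' o, f ∉ B o := fun o f h1 h2 =>
    (List.disjoint_of_nodup_append (hP' o)) (List.mem_append_right _ h1) h2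
  have len : ∀ o, (A o).length + (R o).length + (B o).length ≤ ℓ := by
    intro o
    have := hL o
    simp only [List.length_append] at this
    omega
  have len' : ∀ o, (A o).length + (R' o).length + (B o).length ≤ ℓ := by
    intro o
    have := hL' o
    simp only [List.length_append] at this
    omega
  obtain ⟨DD, hDD⟩ : ∃ DD : O → ℝ, DD = fun o => 3 * (‖pm J x (R o) - pm J x (R' o)‖ ^ 2 +
    6 * (σ * ℓ * N)) := ⟨_, rfl⟩
  have hDD0 : ∀ o, 0 ≤ DD o := fun o => by rw [hDD]; positivity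
  -- the difference of the two ways around the rectangle
  have hD : ∀ (T : Finset E) (o : O),
      av (fun s => ‖pT J x δ T (R o) s - pT J x δ T (R' o) s‖ ^ 2) ≤ DD o := by
    intro T o
    have h1 : ∀ s, ‖pT J x δ T (R o) s - pT J x δ T (R' o) s‖ ^ 2 ≤
        3 * (‖pm J x (R o) - pm J x (R' o)‖ ^ 2 + ‖pT J x δ T (R o) s - pm J x (R o)‖ ^ 2 +
          ‖pT J x δ T (R' o) s - pm J x (R' o)‖ ^ 2) := by
      intro s
      have e1 : pT J x δ T (R o) s - pT J x δ T (R' o) s =
          (pm J x (R o) - pm J x (R' o)) + (pT J x δ T (R o) s - pm J x (R o)) -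
            (pT J x δ T (R' o) s - pm J x (R' o)) := by abel
      rw [e1]
      exact nsq3 _ _ _
    refine (av_mono h1).trans ?_
    rw [av_smul, av_add, av_add, av_const]
    have key : ∀ l : List E, l.Nodup → Un J x l → l.length ≤ ℓ →
        av (fun s => ‖pT J x δ T l s - pm J x l‖ ^ 2) ≤ 3 * (σ * ℓ * N) := by
      intro l hl hul hlen
      refine (pT_sub hl hul).trans ?_
      rw [← hσ]
      have h2 : (l.length : ℝ) ≤ ℓ := by exact_mod_cast hlen
      calc _ ≤ σ * ℓ * (N * 3) := by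
            refine mul_le_mul (mul_le_mul_of_nonneg_left h2 hσ0)
              (mul_le_mul_of_nonneg_left (p3 hlen) hN0) (by positivity) (by positivity)
        _ = _ := by ring
    have k1 := key (R o) (nR o) (uR o) (by have := len o; omega)
    have k2 := key (R' o) (nR' o) (uR' o) (by have := len' o; omega)
    rw [hDD]
    simp only
    linarith
  -- one link
  obtain ⟨FA, hFA⟩ : ∃ FA : E → Finset O, FA = fun e => Finset.univ.filter fun o => e ∈ A o :=
    ⟨_, rfl⟩
  obtain ⟨FB, hFB⟩ : ∃ FB : E → Finset O, FB = fun e => Finset.univ.filter fun o => e ∈ B o :=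
    ⟨_, rfl⟩
  obtain ⟨FR, hFR⟩ : ∃ FR : E → Finset O, FR = fun e => Finset.univ.filter fun o => e ∈ R o :=
    ⟨_, rfl⟩
  obtain ⟨FR', hFR'⟩ : ∃ FR : E → Finset O, FR = fun e => Finset.univ.filter fun o => e ∈ R' o :=
    ⟨_, rfl⟩
  obtain ⟨bb, hbb⟩ : ∃ bb : E → ℝ, bb = fun e => 4 * (
    (FA e).card * ∑ o ∈ FA e, 3 * σ * DD o + (FB e).card * ∑ o ∈ FB e, 3 * σ * DD o +
    (FR e).card * ∑ o ∈ FR e, 3 * σ * N + (FR' e).card * ∑ o ∈ FR' e, 3 * σ * N) := ⟨_, rfl⟩
  obtain ⟨W, hW⟩ : ∃ W : Finset E → (IJ J N → Bool) → Mat N, W = fun T s =>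
    ∑ o, (pT J x δ T (A o ++ R o ++ B o) s - pT J x δ T (A o ++ R' o ++ B o) s) := ⟨_, rfl⟩
  have hone : ∀ (T : Finset E) (e : E), e ∉ T →
      av (fun s => ‖W (insert e T) s - W T s‖ ^ 2) ≤ bb e := by
    intro T e heT
    have e1 : ∀ s, W (insert e T) s - W T s =
        ∑ o, dl J x δ T e (A o) s * ((pT J x δ T (R o) s - pT J x δ T (R' o) s) *
          pT J x δ T (B o) s) +
        ∑ o, pT J x δ T (A o) s * ((pT J x δ T (R o) s - pT J x δ T (R' o) s) *
          dl J x δ T e (B o) s) +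
        ∑ o, pT J x δ T (A o) s * (dl J x δ T e (R o) s * pT J x δ T (B o) s) -
        ∑ o, pT J x δ T (A o) s * (dl J x δ T e (R' o) s * pT J x δ T (B o) s) := by
      intro s
      rw [hW]
      simp only [← Finset.sum_sub_distrib, ← Finset.sum_add_distrib]
      refine Finset.sum_congr rfl fun o _ => ?_
      have h1 := dl_append (x := x) (δ := δ) (T := T) (e := e) (hP o) s
      have h2 := dl_append (x := x) (δ := δ) (T := T) (e := e) (hP' o) s
      rw [dl_append (nAR o), pT_append] at h1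
      rw [dl_append (nAR' o), pT_append] at h2
      have h3 : pT J x δ (insert e T) (A o ++ R o ++ B o) s -
          pT J x δ (insert e T) (A o ++ R' o ++ B o) s -
          (pT J x δ T (A o ++ R o ++ B o) s - pT J x δ T (A o ++ R' o ++ B o) s) =
          dl J x δ T e (A o ++ R o ++ B o) s - dl J x δ T e (A o ++ R' o ++ B o) s := by
        unfold dl; abel
      rw [h3, h1, h2]
      noncomm_ring
    simp only [e1]
    refine (av_mono fun s => nsq4 _ _ _ _).trans ?_
    rw [av_smul, av_add, av_add, av_add, hbb]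
    simp only
    refine mul_le_mul_of_nonneg_left ?_ (by norm_num)
    have iD : ∀ o f, f ∉ R o → f ∉ R' o → Ind f fun s : IJ J N → Bool =>
        pT J x δ T (R o) s - pT J x δ T (R' o) s := fun o f h1 h2 =>
      ind_sub (ind_pT h1) (ind_pT h2)
    have m1 : 2 * N * δ ^ 2 = σ := hσ.symm
    refine add_le_add (add_le_add (add_le_add ?_ ?_) ?_) ?_
    · refine av_sum_sub (FA e) (fun o ho s => ?_) fun o ho => ?_
      · have : e ∉ A o := fun h => ho (by rw [hFA]; simp [h])
        rw [dl_not this, zero_mul]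
      · refine (dlL (δ := δ) heT (nA o) (uA o) fun f hf => ind_mul (iD o f (dAR o f hf) (dAR' o f hf))
          (ind_pT (dAB o f hf))).trans ?_
        rw [m1]
        have h1 := peelR (δ := δ) (T := T) (nB o) (uB o)
          (Z := fun s => pT J x δ T (R o) s - pT J x δ T (R' o) s) fun f hf =>
          iD o f (fun h => dRB o f h hf) (fun h => dRB' o f h hf)
        rw [m1] at h1
        have h2 : (1 + σ) ^ (A o).length * (1 + σ) ^ (B o).length ≤ 3 := by
          rw [← pow_add]
          exact p3 (by have := len o; omega)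
        calc _ ≤ σ * (1 + σ) ^ (A o).length * ((1 + σ) ^ (B o).length * DD o) := by
              refine mul_le_mul_of_nonneg_left (h1.trans ?_) (by positivity)
              exact mul_le_mul_of_nonneg_left (hD T o) (by positivity)
          _ = ((1 + σ) ^ (A o).length * (1 + σ) ^ (B o).length) * (σ * DD o) := by ring
          _ ≤ 3 * (σ * DD o) := mul_le_mul_of_nonneg_right h2 (mul_nonneg hσ0 (hDD0 o))
          _ = _ := by ring
    · refine av_sum_sub (FB e) (fun o ho s => ?_) fun o ho => ?_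
      · have : e ∉ B o := fun h => ho (by rw [hFB]; simp [h])
        rw [dl_not this, mul_zero, mul_zero]
      · refine (peelL (δ := δ) (T := T) (nA o) (uA o) fun f hf =>
          ind_mul (iD o f (dAR o f hf) (dAR' o f hf)) (ind_dl (dAB o f hf))).trans ?_
        rw [m1]
        have h1 := dlR (δ := δ) heT (nB o) (uB o)
          (Z := fun s => pT J x δ T (R o) s - pT J x δ T (R' o) s) fun f hf =>
          iD o f (fun h => dRB o f h hf) (fun h => dRB' o f h hf)
        rw [m1] at h1
        have h2 : (1 + σ) ^ (A o).length * (1 + σ) ^ (B o).length ≤ 3 := by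
          rw [← pow_add]
          exact p3 (by have := len o; omega)
        calc _ ≤ (1 + σ) ^ (A o).length * (σ * (1 + σ) ^ (B o).length * DD o) := by
              refine mul_le_mul_of_nonneg_left (h1.trans ?_) (by positivity)
              exact mul_le_mul_of_nonneg_left (hD T o) (by positivity)
          _ = ((1 + σ) ^ (A o).length * (1 + σ) ^ (B o).length) * (σ * DD o) := by ring
          _ ≤ 3 * (σ * DD o) := mul_le_mul_of_nonneg_right h2 (mul_nonneg hσ0 (hDD0 o))
          _ = _ := by ring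
    · refine av_sum_sub (FR e) (fun o ho s => ?_) fun o ho => ?_
      · have : e ∉ R o := fun h => ho (by rw [hFR]; simp [h])
        rw [dl_not this, zero_mul, mul_zero]
      · refine (peelL (δ := δ) (T := T) (nA o) (uA o) fun f hf =>
          ind_mul (ind_dl (dAR o f hf)) (ind_pT (dAB o f hf))).trans ?_
        have h1 := dlL (δ := δ) heT (nR o) (uR o) (Z := fun s => pT J x δ T (B o) s)
          fun f hf => ind_pT (dRB o f hf)
        have h3 := peelL (δ := δ) (T := T) (nB o) (uB o) (Z := fun _ => 1) fun f _ => ind_const 1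
        simp only [mul_one, norm_one_sq, av_const] at h3
        rw [m1] at h1 h3 ⊢
        have h2 : (1 + σ) ^ (A o).length * ((1 + σ) ^ (R o).length * (1 + σ) ^ (B o).length) ≤
            3 := by
          rw [← pow_add, ← pow_add]
          exact p3 (by have := len o; omega)
        calc _ ≤ (1 + σ) ^ (A o).length * (σ * (1 + σ) ^ (R o).length *
              ((1 + σ) ^ (B o).length * N)) := by
              refine mul_le_mul_of_nonneg_left (h1.trans ?_) (by positivity)
              exact mul_le_mul_of_nonneg_left h3 (by positivity)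
          _ = ((1 + σ) ^ (A o).length * ((1 + σ) ^ (R o).length * (1 + σ) ^ (B o).length)) *
              (σ * N) := by ring
          _ ≤ 3 * (σ * N) := mul_le_mul_of_nonneg_right h2 (mul_nonneg hσ0 hN0)
          _ = _ := by ring
    · refine av_sum_sub (FR' e) (fun o ho s => ?_) fun o ho => ?_
      · have : e ∉ R' o := fun h => ho (by rw [hFR']; simp [h])
        rw [dl_not this, zero_mul, mul_zero]
      · refine (peelL (δ := δ) (T := T) (nA o) (uA o) fun f hf =>
          ind_mul (ind_dl (dAR' o f hf)) (ind_pT (dAB o f hf))).trans ?_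
        have h1 := dlL (δ := δ) heT (nR' o) (uR' o) (Z := fun s => pT J x δ T (B o) s)
          fun f hf => ind_pT (dRB' o f hf)
        have h3 := peelL (δ := δ) (T := T) (nB o) (uB o) (Z := fun _ => 1) fun f _ => ind_const 1
        simp only [mul_one, norm_one_sq, av_const] at h3
        rw [m1] at h1 h3 ⊢
        have h2 : (1 + σ) ^ (A o).length * ((1 + σ) ^ (R' o).length * (1 + σ) ^ (B o).length) ≤
            3 := by
          rw [← pow_add, ← pow_add]
          exact p3 (by have := len' o; omega)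
        calc _ ≤ (1 + σ) ^ (A o).length * (σ * (1 + σ) ^ (R' o).length *
              ((1 + σ) ^ (B o).length * N)) := by
              refine mul_le_mul_of_nonneg_left (h1.trans ?_) (by positivity)
              exact mul_le_mul_of_nonneg_left h3 (by positivity)
          _ = ((1 + σ) ^ (A o).length * ((1 + σ) ^ (R' o).length * (1 + σ) ^ (B o).length)) *
              (σ * N) := by ring
          _ ≤ 3 * (σ * N) := mul_le_mul_of_nonneg_right h2 (mul_nonneg hσ0 hN0)
          _ = _ := by ring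
  -- orthogonality
  have hind : ∀ T : Finset E, av (fun s => ‖W T s - W ∅ s‖ ^ 2) ≤ ∑ e ∈ T, bb e := by
    intro T
    induction T using Finset.induction_on with
    | empty =>
      simp only [sub_self, norm_zero, ne_eq, OfNat.ofNat_ne_zero, not_false_eq_true, zero_pow,
        av_const, Finset.sum_empty, le_refl]
    | insert e T heT ih =>
      rw [Finset.sum_insert heT]
      have iW : Ind e fun s => W T s - W ∅ s := by
        refine ind_sub ?_ ?_
        · rw [hW]
          exact ind_sum _ fun o => ind_sub (ind_pT' heT _) (ind_pT' heT _)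
        · rw [hW]
          exact ind_sum _ fun o => ind_sub (ind_pT' (Finset.notMem_empty e) _)
            (ind_pT' (Finset.notMem_empty e) _)
      have oW : ∀ s, W (insert e T) (fl (fun i : IJ J N => i.1.1 = e) s) -
          W T (fl (fun i : IJ J N => i.1.1 = e) s) = -(W (insert e T) s - W T s) := by
        intro s
        have e1 : ∀ s, W (insert e T) s - W T s =
            ∑ o, (dl J x δ T e (A o ++ R o ++ B o) s - dl J x δ T e (A o ++ R' o ++ B o) s) := by
          intro s
          rw [hW]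
          simp only [← Finset.sum_sub_distrib]
          refine Finset.sum_congr rfl fun o _ => ?_
          unfold dl; abel
        rw [e1, e1, ← Finset.sum_neg_distrib]
        refine Finset.sum_congr rfl fun o _ => ?_
        rw [dl_fl heT (hP o), dl_fl heT (hP' o)]
        abel
      have e2 : ∀ s, ‖W (insert e T) s - W ∅ s‖ ^ 2 = ‖W (insert e T) s - W T s‖ ^ 2 +
          2 * ip (W (insert e T) s - W T s) (W T s - W ∅ s) + ‖W T s - W ∅ s‖ ^ 2 := by
        intro s
        rw [← nsq_add]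
        congr 2
        abel
      simp only [e2]
      rw [av_add, av_add]
      have e3 : av (fun s => 2 * ip (W (insert e T) s - W T s) (W T s - W ∅ s)) = 0 := by
        refine av_odd (S := fun i : IJ J N => i.1.1 = e) fun s => ?_
        have h1 := iW.fl s
        rw [oW, h1, ip_neg_neg]
        ring
      rw [e3, add_zero]
      exact add_le_add (hone T e heT) ih
  have hfin := hind Finset.univ
  have e1 : ∀ s, W Finset.univ s - W ∅ s = ∑ o, (pm J (x + sg δ s) (A o ++ R o ++ B o) -
        pm J (x + sg δ s) (A o ++ R' o ++ B o)) -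
      ∑ o, (pm J x (A o ++ R o ++ B o) - pm J x (A o ++ R' o ++ B o)) := by
    intro s
    rw [hW]
    unfold pT
    simp only [sT_univ, sT_empty, add_zero]
  simp only [e1] at hfin
  refine hfin.trans ?_
  rw [hbb]
  simp only
  rw [← Finset.mul_sum, Finset.sum_add_distrib, Finset.sum_add_distrib, Finset.sum_add_distrib]
  have s1 := swap_count A (c := fun o => 3 * σ * DD o)
    (fun o => mul_nonneg (by positivity) (hDD0 o)) hA
  have s2 := swap_count B (c := fun o => 3 * σ * DD o)
    (fun o => mul_nonneg (by positivity) (hDD0 o)) hB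
  have s3 := swap_count' R (c := 3 * σ * N) (by positivity) nR
    (fun o => (by have := len o; omega : (R o).length ≤ ℓ)) hK
  have s4 := swap_count' R' (c := 3 * σ * N) (by positivity) nR'
    (fun o => (by have := len' o; omega : (R' o).length ≤ ℓ)) hK'
  rw [hFA, hFB, hFR, hFR']
  simp only at s1 s2 s3 s4 ⊢
  have s5 : ∑ o, 3 * σ * DD o = 9 * σ * ∑ o, (‖pm J x (R o) - pm J x (R' o)‖ ^ 2 +
        6 * (σ * ℓ * N)) := by
    rw [hDD, Finset.mul_sum]
    refine Finset.sum_congr rfl fun o _ => ?_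
    ring
  rw [s5] at s1 s2
  linarith

end

end Pool.Agent.Q234.SQ
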