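import Mathlib
import Pool.Agent.Q234.SQ.Par

/-!
# The response of the transports to the shift
-/

open MeasureTheory Matrix Filter
open scoped Matrix.Norms.Frobenius Topology
open Pool.Agent.H906R3.YM hiding Pl
open Pool.Agent.W793.YM Pool.Agent.TH618.YM
open Pool.Agent.Y14

namespace Pool.Agent.Q234.SQ

set_option linter.unusedSectionVars false
set_option linter.unusedVariables false

noncomputable section

variable {G : Type*} [Group G] [TopologicalSpace G] [IsTopologicalGroup G] [CompactSpace G]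
  [SecondCountableTopology G] [MeasurableSpace G] [BorelSpace G] {N n : ℕ} {L : LD G N n}
  {e m : ℕ} [NeZero m] {q : ℕ}

variable (L) in
/-- the error of the response of a segment -/
def ER (q : ℕ) (U : Ed (e + 3) (2 * m) → G) (g : G) (y : Fin (e + 3) → ZMod (2 * m)) (r : ℕ) : ℝ :=
  ∑ k ∈ Finset.range r, 2 * kk q (y + k • eT 0) *
    dd L (g * tp eT U y (List.replicate k 0)) (TT q U (y + k • eT 0))

lemma ER_succ (U : Ed (e + 3) (2 * m) → G) (g : G) (y : Fin (e + 3) → ZMod (2 * m)) (r : ℕ) :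
    ER L q U g y (r + 1) = 2 * kk q y * dd L g (TT q U y) +
      ER L q U (g * U (y, 0)) (y + eT 0) r := by
  unfold ER
  rw [Finset.sum_range_succ', zero_smul, add_zero, add_comm]
  congr 1
  · rw [List.replicate_zero, tp_nil, mul_one]
  · refine Finset.sum_congr rfl fun k _ => ?_
    rw [add_smul, one_smul, add_comm (k • eT 0), add_assoc, List.replicate_succ, tp_cons,
      mul_assoc g]

/-- the response of a segment -/
lemma resp_seg (a : Fin n) (s : ℝ) (U : Ed (e + 3) (2 * m) → G) (g : G)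
    (y : Fin (e + 3) → ZMod (2 * m)) (r : ℕ) :
    dd L (g * tp eT (Ps L q a s U) y (List.replicate r 0))
      (L.ex a (s * KK q y r) * (g * tp eT U y (List.replicate r 0))) ≤ |s| * ER L q U g y r := by
  induction r generalizing g y with
  | zero =>
    unfold KK ER
    simp only [List.replicate_zero, tp_nil, Finset.range_zero, Finset.sum_empty, mul_zero,
      L.ex_zero, one_mul, dd_self, le_refl]
  | succ r ih =>
    rw [KK_succ, ER_succ, List.replicate_succ, tp_cons, tp_cons]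
    have e1 : Ps L q a s U (y, 0) = hh L q a s U y * U (y, 0) := by
      unfold Ps
      rw [if_pos rfl]
    rw [e1]
    obtain ⟨P, hP⟩ : ∃ P, P = tp eT (Ps L q a s U) (y + eT 0) (List.replicate r 0) := ⟨_, rfl⟩
    obtain ⟨P', hP'⟩ : ∃ P', P' = tp eT U (y + eT 0) (List.replicate r 0) := ⟨_, rfl⟩
    have ih' := ih (g * U (y, 0)) (y + eT 0)
    rw [← hP, ← hP'] at ih' ⊢
    obtain ⟨E, hE⟩ : ∃ E, E = L.ex a (s * KK q (y + eT 0) r) := ⟨_, rfl⟩
    obtain ⟨E0, hE0⟩ : ∃ E0, E0 = L.ex a (s * kk q y) := ⟨_, rfl⟩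
    rw [← hE] at ih'
    rw [mul_add, L.ex_add, ← hE, ← hE0]
    have e2 : g * (hh L q a s U y * U (y, 0) * P) =
        (g * hh L q a s U y * g⁻¹) * (g * U (y, 0) * P) := by group
    have e3 : E0 * E * (g * (U (y, 0) * P')) = E0 * (E * (g * U (y, 0) * P')) := by group
    rw [e2, e3]
    refine (dd_tri _ ((g * hh L q a s U y * g⁻¹) * (E * (g * U (y, 0) * P'))) _).trans ?_
    rw [dd_lmul, dd_rmul]
    have h3 : dd L (g * hh L q a s U y * g⁻¹) E0 ≤ |s| * (2 * kk q y * dd L g (TT q U y)) := by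
      have e4 : g * hh L q a s U y * g⁻¹ = (g * (TT q U y)⁻¹) * E0 * (g * (TT q U y)⁻¹)⁻¹ := by
        unfold hh
        rw [hE0]
        group
      rw [e4, dd_comm]
      refine (dd_conj _ _).trans ?_
      rw [← dd_dv]
      have h4 : dv L E0 ≤ |s| * kk q y := by
        rw [hE0]
        refine (dv_ex a _).trans (le_of_eq ?_)
        rw [abs_mul, abs_of_nonneg (kk_nonneg q y)]
      have h5 := mul_le_mul_of_nonneg_right h4 (dd_nonneg (L := L) g (TT q U y))
      linarith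
    rw [mul_add]
    linarith

/-! ### unshifted transports -/

lemma tp_Ps_of {a : Fin n} {s : ℝ} {U : Ed (e + 3) (2 * m) → G}
    {x : Fin (e + 3) → ZMod (2 * m)} {w : List (Fin (e + 3))}
    (h : ∀ w1 w2, w = w1 ++ 0 :: w2 → kk q (x + dsp eT w1) = 0) :
    tp eT (Ps L q a s U) x w = tp eT U x w := by
  refine tp_congr fun f hf => Ps_eq ?_
  rintro ⟨h1, h2⟩
  obtain ⟨w1, w2, h3, h4⟩ := mem_lk hf
  rw [h1] at h3
  rw [h4] at h2
  exact h2 (h w1 w2 h3)

lemma tp_Ps_hi (hq : 1 ≤ q) (a : Fin n) (s : ℝ) (U : Ed (e + 3) (2 * m) → G)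
    {c w : List (Fin (e + 3))} (hc : 4 * q ≤ c.count 1) (hw : (c ++ w).count 1 < 2 * m) :
    tp eT (Ps L q a s U) (dsp eT c) w = tp eT U (dsp eT c) w := by
  refine tp_Ps_of fun w1 w2 h => ?_
  rw [← dsp_append]
  rw [h, List.count_append, List.count_append] at hw
  exact kk_hi hq (by rw [List.count_append]; omega) (by rw [List.count_append]; omega)

lemma tp_Ps_rt (hq : 1 ≤ q) (a : Fin n) (s : ℝ) (U : Ed (e + 3) (2 * m) → G)
    {c w : List (Fin (e + 3))} (hc : 2 * q ≤ c.count 0) (hw : (c ++ w).count 0 < 2 * m) :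
    tp eT (Ps L q a s U) (dsp eT c) w = tp eT U (dsp eT c) w := by
  refine tp_Ps_of fun w1 w2 h => ?_
  rw [← dsp_append]
  rw [h, List.count_append, List.count_append] at hw
  exact kk_rt hq (by rw [List.count_append]; omega) (by rw [List.count_append]; omega)

lemma tp_Ps_dir (a : Fin n) (s : ℝ) (U : Ed (e + 3) (2 * m) → G)
    (x : Fin (e + 3) → ZMod (2 * m)) {i : Fin (e + 3)} (hi : i ≠ 0) (k : ℕ) :
    tp eT (Ps L q a s U) x (List.replicate k i) = tp eT U x (List.replicate k i) := by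
  refine tp_congr fun f hf => Ps_eq fun h => hi ?_
  rw [← (mem_lk_rep hf).1]
  exact h.1

lemma tp_Ps_cb (hq : 1 ≤ q) (a : Fin n) (s : ℝ) (U : Ed (e + 3) (2 * m) → G)
    {x : Fin (e + 3) → ZMod (2 * m)} (hx : x 1 = 0) (v : Fin (e + 3) → ℕ) :
    tp eT (Ps L q a s U) x (cb v) = tp eT U x (cb v) := by
  refine tp_congr fun f hf => Ps_eq fun h => ?_
  obtain ⟨k, _, hk⟩ := cb_lk0 hf h.1
  refine h.2 (kk_axis hq one_ne ?_)
  rw [hk, Pi.add_apply, hx]
  have h1 : (k • (eT 0 : Fin (e + 3) → ZMod (2 * m))) 1 = 0 := by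
    simp [eT]
  rw [h1, add_zero]

lemma count_TPP (o : OO e q) (j : Fin (e + 3)) : (Tq e q ++ PP o).count j ≤ 5 * q := by
  rw [List.count_append, count_Tq, count_PP]
  split_ifs with h
  · rw [h, zz_last]; omega
  · have := zz_le (e := e) (q := q) j; omega

lemma count_TQQ (o : OO e q) (j : Fin (e + 3)) : (Tq e q ++ QQ o).count j ≤ 5 * q := by
  rw [List.count_append, count_Tq, count_QQ]
  split_ifs with h
  · rw [h, zz_last]; omega
  · have := zz_le (e := e) (q := q) j; omega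

variable (L) in
/-- the transports of the loops -/
def gP (o : OO e q) (U : Ed (e + 3) (2 * m) → G) : G :=
  tp eT U 0 (Tq e q ++ PP o) * (tp eT U 0 (Tq e q ++ P0 e q))⁻¹

variable (L) in
/-- the transports of the loops -/
def gQ (o : OO e q) (U : Ed (e + 3) (2 * m) → G) : G :=
  tp eT U 0 (Tq e q ++ QQ o) * (tp eT U 0 (Tq e q ++ P0 e q))⁻¹

lemma tp_Ps_T (a : Fin n) (s : ℝ) (U : Ed (e + 3) (2 * m) → G)
    (x : Fin (e + 3) → ZMod (2 * m)) :
    tp eT (Ps L q a s U) x (Tq e q) = tp eT U x (Tq e q) := tp_Ps_dir a s U x last_ne0 _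

lemma kk_left (hq : 1 ≤ q) {w : List (Fin (e + 3))} (h : w.count 0 < q)
    (h' : w.count 0 < 2 * m) : kk q (dsp eT w : Fin (e + 3) → ZMod (2 * m)) = 0 := by
  by_contra h1
  have h2 := (kk_ne hq h1).1.1
  rw [wv_dsp h'] at h2
  omega

lemma tp_Ps_TA (hq : 1 ≤ q) (hqm : 5 * q < 2 * m) (a : Fin n) (s : ℝ)
    (U : Ed (e + 3) (2 * m) → G) (o : OO e q) :
    tp eT (Ps L q a s U) 0 (Tq e q ++ stA o) = tp eT U 0 (Tq e q ++ stA o) := by
  refine tp_Ps_of fun w1 w2 h => ?_
  rw [zero_add]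
  have h1 : (Tq e q ++ stA o).count 0 = (o.1 : ℕ) := by
    rw [List.count_append, count_Tq, if_neg (Ne.symm last_ne0), count_stA, vA_zero, zero_add]
  rw [h, List.count_append] at h1
  have h2 := o.1.2
  exact kk_left hq (by omega) (by omega)

lemma tp_Ps_P0 (hq : 1 ≤ q) (hqm : 5 * q < 2 * m) (a : Fin n) (s : ℝ)
    (U : Ed (e + 3) (2 * m) → G) :
    tp eT (Ps L q a s U) 0 (Tq e q ++ P0 e q) = tp eT U 0 (Tq e q ++ P0 e q) := by
  have hc := count_TP0 (e := e) (q := q) 1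
  unfold P0 at hc ⊢
  rw [← List.append_assoc] at hc ⊢
  rw [tp3, tp3, tp_Ps_T, tp_Ps_dir a s U _ one_ne, tp_Ps_hi hq a s U _ (by omega)]
  rw [List.count_append, List.count_replicate_self]
  omega

lemma tp_Ps_Q (hq : 1 ≤ q) (hqm : 5 * q < 2 * m) (a : Fin n) (s : ℝ)
    (U : Ed (e + 3) (2 * m) → G) (o : OO e q) :
    tp eT (Ps L q a s U) 0 (Tq e q ++ QQ o) = tp eT U 0 (Tq e q ++ QQ o) := by
  have hc := count_TQQ (e := e) (q := q) o 1
  have e1 : Tq e q ++ QQ o = (Tq e q ++ stA o) ++ List.replicate (rv o) 1 ++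
      (List.replicate (rr o) 0 ++ stB o) := by
    unfold QQ
    simp only [List.append_assoc]
  rw [e1] at hc ⊢
  rw [tp3, tp3, tp_Ps_TA hq hqm, tp_Ps_dir a s U _ one_ne, tp_Ps_hi hq a s U _ (by omega)]
  rw [List.count_append, List.count_append, List.count_replicate_self, count_stA, vA_one]
  unfold rv
  have := (o.2.2.2 0).2
  omega

lemma gQ_Ps (hq : 1 ≤ q) (hqm : 5 * q < 2 * m) (a : Fin n) (s : ℝ)
    (U : Ed (e + 3) (2 * m) → G) (o : OO e q) : gQ o (Ps L q a s U) = gQ o U := by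
  unfold gQ
  rw [tp_Ps_Q hq hqm, tp_Ps_P0 hq hqm]

/-- the position of the segment -/
def yA (m : ℕ) (o : OO e q) : Fin (e + 3) → ZMod (2 * m) := dsp eT (Tq e q ++ stA o)

lemma gP_Ps (hq : 1 ≤ q) (hqm : 5 * q < 2 * m) (a : Fin n) (s : ℝ)
    (U : Ed (e + 3) (2 * m) → G) (o : OO e q) :
    dd L (gP o (Ps L q a s U)) (L.ex a (s * KK q (yA m o) (rr o)) * gP o U) ≤
      |s| * ER L q U (tp eT U 0 (Tq e q ++ stA o)) (yA m o) (rr o) := by
  have hc := count_TPP (e := e) (q := q) o 0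
  have e1 : Tq e q ++ PP o = (Tq e q ++ stA o) ++ List.replicate (rr o) 0 ++
      (List.replicate (rv o) 1 ++ stB o) := by
    unfold PP
    simp only [List.append_assoc]
  have h1 : tp eT (Ps L q a s U) 0 (Tq e q ++ PP o) = tp eT U 0 (Tq e q ++ stA o) *
      tp eT (Ps L q a s U) (yA m o) (List.replicate (rr o) 0) *
      tp eT U (dsp eT ((Tq e q ++ stA o) ++ List.replicate (rr o) 0))
        (List.replicate (rv o) 1 ++ stB o) := by
    rw [e1] at hc ⊢
    rw [tp3, tp_Ps_TA hq hqm, tp_Ps_rt (L := L) hq a s U (c := (Tq e q ++ stA o) ++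
      List.replicate (rr o) 0) ?_ (by omega)]
    · rfl
    · rw [List.count_append, List.count_append, List.count_replicate_self, count_stA, vA_zero]
      unfold rr
      have := (o.1).2
      omega
  have h2 : tp eT U 0 (Tq e q ++ PP o) = tp eT U 0 (Tq e q ++ stA o) *
      tp eT U (yA m o) (List.replicate (rr o) 0) *
      tp eT U (dsp eT ((Tq e q ++ stA o) ++ List.replicate (rr o) 0))
        (List.replicate (rv o) 1 ++ stB o) := by
    rw [e1, tp3]
    rfl
  unfold gP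
  rw [tp_Ps_P0 hq hqm, h1, h2]
  obtain ⟨B, hB⟩ : ∃ B, B = tp eT U (dsp eT ((Tq e q ++ stA o) ++ List.replicate (rr o) 0))
    (List.replicate (rv o) 1 ++ stB o) := ⟨_, rfl⟩
  obtain ⟨W, hW⟩ : ∃ W, W = (tp eT U 0 (Tq e q ++ P0 e q))⁻¹ := ⟨_, rfl⟩
  obtain ⟨A, hA⟩ : ∃ A, A = tp eT U 0 (Tq e q ++ stA o) := ⟨_, rfl⟩
  rw [← hB, ← hW, ← hA]
  have e2 : L.ex a (s * KK q (yA m o) (rr o)) *
      (A * tp eT U (yA m o) (List.replicate (rr o) 0) * B * W) =
      L.ex a (s * KK q (yA m o) (rr o)) *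
      (A * tp eT U (yA m o) (List.replicate (rr o) 0)) * B * W := by group
  rw [e2, dd_rmul, dd_rmul]
  exact resp_seg a s U A (yA m o) (rr o)

end

end Pool.Agent.Q234.SQ
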