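import Mathlib
import Pool.Agent.Q234.SQ.Resp

/-!
# The size of the response
-/

open MeasureTheory Matrix Filter
open scoped Matrix.Norms.Frobenius Topology
open Pool.Agent.H906R3.YM hiding Pl
open Pool.Agent.W793.YM Pool.Agent.TH618.YM
open Pool.Agent.Y14

namespace Pool.Agent.Q234.SQ

set_option linter.unusedSectionVars false
set_option linter.unusedVariables false

noncomputable section

variable {G : Type*} [Group G] [TopologicalSpace G] [IsTopologicalGroup G] [CompactSpace G]
  [SecondCountableTopology G] [MeasurableSpace G] [BorelSpace G] (μ : Measure G)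
  [IsProbabilityMeasure μ] [μ.IsMulLeftInvariant] [μ.IsMulRightInvariant] [μ.IsInvInvariant]
  {N n : ℕ} {L : LD G N n} {e m : ℕ} [NeZero m] {q : ℕ} {β : ℝ}

/-! ### the weight of a segment -/

lemma yA_add (o : OO e q) (k : ℕ) : yA m o + k • eT 0 =
    (dsp eT ((Tq e q ++ stA o) ++ List.replicate k 0) : Fin (e + 3) → ZMod (2 * m)) := by
  unfold yA
  rw [dsp_append (Tq e q ++ stA o), dsp_rep]

lemma count_seg (o : OO e q) (k : ℕ) (j : Fin (e + 3)) :
    ((Tq e q ++ stA o) ++ List.replicate k 0).count j =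
      (if j = Fin.last (e + 2) then 2 * q else 0) + vA o j + if j = 0 then k else 0 := by
  rw [List.count_append, List.count_append, count_Tq, count_stA, List.count_replicate]
  congr 1
  by_cases h : j = 0
  · subst h; simp
  · have h' : ¬(0 : Fin (e + 3)) = j := fun h1 => h h1.symm
    simp [h, h']

lemma seg_le (o : OO e q) {k : ℕ} (hk : k ≤ 3 * q) (j : Fin (e + 3)) :
    ((Tq e q ++ stA o) ++ List.replicate k 0).count j ≤ 5 * q := by
  rw [count_seg]
  have h1 := vA_le o j
  have h2 := o.1.2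
  by_cases h0 : j = 0
  · subst h0
    rw [if_neg (Ne.symm last_ne0), if_pos rfl, vA_zero]
    omega
  · rw [if_neg h0]
    split_ifs <;> omega

lemma kk_out (hq : 1 ≤ q) (hqm : 5 * q < 2 * m) (o : OO e q) {k : ℕ} (hk : k < rr o)
    (h : k ∉ Ij o) : kk q (yA m o + k • eT 0) = 0 := by
  by_contra hc
  have h1 := (kk_ne hq hc).1
  have h3 := seg_le o (k := k) (by have := rr_le o; omega) 0
  rw [yA_add, wv_dsp (by omega), count_seg, if_neg (Ne.symm last_ne0), if_pos rfl, vA_zero] at h1
  refine h (Finset.mem_Ico.2 ?_)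
  have h2 := o.1.2
  omega

lemma kk_in (hq : 1 ≤ q) (hqm : 5 * q < 2 * m) (o : OO e q) {k : ℕ} (h : k ∈ Ij o) :
    (1 / 2 : ℝ) ^ (e + 2) ≤ kk q (yA m o + k • eT 0) := by
  have h1 := Finset.mem_Ico.1 h
  have h2 := o.1.2
  have hk : k ≤ 3 * q := by omega
  rw [yA_add]
  have hw : ∀ j, wv (dsp eT ((Tq e q ++ stA o) ++ List.replicate k 0) :
      Fin (e + 3) → ZMod (2 * m)) j = (if j = Fin.last (e + 2) then 2 * q else 0) + vA o j +
        if j = 0 then k else 0 := fun j => by
    have := seg_le o hk j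
    rw [wv_dsp (by omega), count_seg]
  refine kk_low hq ?_ fun j hj => ?_
  · rw [hw, if_neg (Ne.symm last_ne0), if_pos rfl, vA_zero]
    omega
  · rw [hw, if_neg hj]
    by_cases h3 : j = Fin.last (e + 2)
    · rw [if_pos h3, h3, vA_last]
      omega
    · rw [if_neg h3]
      have := vA_mid o hj h3
      omega

lemma KK_eq (hq : 1 ≤ q) (hqm : 5 * q < 2 * m) (o : OO e q) :
    KK q (yA m o) (rr o) = ∑ k ∈ Ij o, kk q (yA m o + k • eT 0) := by
  unfold KK
  refine (Finset.sum_subset (Ij_sub o) fun k hk hk' => ?_).symm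
  exact kk_out hq hqm o (Finset.mem_range.1 hk) hk'

lemma KK_le (hq : 1 ≤ q) (hqm : 5 * q < 2 * m) (o : OO e q) : KK q (yA m o) (rr o) ≤ q := by
  rw [KK_eq hq hqm]
  calc _ ≤ ∑ _k ∈ Ij o, (1 : ℝ) := Finset.sum_le_sum fun k _ => kk_le _ _
    _ = q := by rw [Finset.sum_const, Ij_card, nsmul_eq_mul, mul_one]

lemma KK_ge (hq : 1 ≤ q) (hqm : 5 * q < 2 * m) (o : OO e q) :
    (1 / 2 : ℝ) ^ (e + 2) * q ≤ KK q (yA m o) (rr o) := by
  rw [KK_eq hq hqm]
  calc (1 / 2 : ℝ) ^ (e + 2) * q = ∑ _k ∈ Ij o, (1 / 2 : ℝ) ^ (e + 2) := by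
        rw [Finset.sum_const, Ij_card, nsmul_eq_mul]; ring
    _ ≤ _ := Finset.sum_le_sum fun k hk => kk_in hq hqm o hk

/-! ### sorted words -/

variable {κ r : ℝ}

variable (L) in
/-- the transport along `w` is close to the one along the comb with the same end point -/
def SC (m : ℕ) [NeZero m] (β : ℝ) (w : List (Fin (e + 3))) (b : ℝ) : Prop :=
  CL μ L m β w (Y14.cb fun k => w.count k) b

/-- the unit of the errors -/
def uu (e q : ℕ) (κ : ℝ) : ℝ := un (e + 3) κ (16 * q)

lemma uu_nonneg (hκ : 0 ≤ κ) : 0 ≤ uu e q κ := un_nonneg hκ _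

lemma SC.nil : SC μ L (e := e) m β [] 0 := by
  unfold SC
  have h : (Y14.cb fun k : Fin (e + 3) => ([] : List (Fin (e + 3))).count k) = [] := by
    simp only [List.count_nil]
    exact cmb_zero _
  rw [h]
  exact CL.refl μ _

lemma un_rep (hκ : 0 ≤ κ) : ((e + 3 : ℕ) : ℝ) * (κ * Real.sqrt (16 * q)) ≤ uu e q κ := by
  unfold uu un
  have h1 : (1 : ℝ) ≤ ((e + 3 : ℕ) : ℝ) := by
    have : 1 ≤ e + 3 := by omega
    exact_mod_cast this
  exact le_mul_of_one_le_left (by positivity) h1

lemma SC.rep (h : HR μ L (e + 3) m β κ r) (hr : 16 * (q : ℝ) ≤ r) {nn : ℕ}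
    {w : List (Fin (e + 3))} {b : ℝ} (hw : SC μ L m β w b) (i : Fin (e + 3))
    (hc : ∀ k, (w ++ List.replicate nn i).count k ≤ 16 * q) :
    SC μ L m β (w ++ List.replicate nn i) (b + uu e q κ) := by
  have h1 : ∀ k, (w.count k : ℝ) ≤ 16 * q := fun k => by
    have := hc k; rw [List.count_append] at this
    have h2 : w.count k ≤ 16 * q := by omega
    exact_mod_cast h2
  have h2 : (nn : ℝ) ≤ 16 * q := by
    have := hc i; rw [List.count_append, List.count_replicate_self] at this
    have h2 : nn ≤ 16 * q := by omega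
    exact_mod_cast h2
  have h3 := (hw.appr μ (List.replicate nn i)).trans μ
    (CL.rep μ (L := L) (m := m) (β := β) h h2 hr h1 i)
  have e1 : (fun k => (w ++ List.replicate nn i).count k) =
      fun k => w.count k + if k = i then nn else 0 := by
    funext k
    rw [List.count_append, List.count_replicate]
    congr 1
    by_cases hk : k = i
    · subst hk; simp
    · have h' : ¬i = k := fun h1 => hk h1.symm
      simp [hk, h']
  unfold SC
  rw [e1]
  exact h3.mono μ (add_le_add le_rfl (un_rep h.1))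

lemma SC.cb (h : HR μ L (e + 3) m β κ r) (hr : 16 * (q : ℝ) ≤ r)
    {w : List (Fin (e + 3))} {b : ℝ} (hw : SC μ L m β w b) (v' : Fin (e + 3) → ℕ)
    (hc : ∀ k, (w ++ Y14.cb v').count k ≤ 16 * q) :
    SC μ L m β (w ++ Y14.cb v') (b + uu e q κ) := by
  have h1 : ∀ k, ((w.count k + v' k : ℕ) : ℝ) ≤ 16 * q := fun k => by
    have := hc k; rw [List.count_append, count_cb] at this
    exact_mod_cast this
  have h3 := (hw.appr μ (Y14.cb v')).trans μ (CL.cb μ (L := L) (m := m) (β := β) h hr h1)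
  have e1 : (fun k => (w ++ Y14.cb v').count k) = fun k => w.count k + v' k := by
    funext k
    rw [List.count_append, count_cb]
  unfold SC
  rw [e1]
  exact h3

/-- replacing the last part of a word -/
lemma SC.repl {w w1 w2 : List (Fin (e + 3))} {b c : ℝ} (hw : SC μ L m β (w ++ w2) b)
    (h : CL μ L m β w1 w2 c) : SC μ L m β (w ++ w1) (c + b) := by
  have e1 : (fun k => (w ++ w1).count k) = fun k => (w ++ w2).count k := by
    funext k
    rw [List.count_append, List.count_append, h.1 k]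
  unfold SC at hw ⊢
  rw [e1]
  exact (h.appl μ w).trans μ hw

lemma SC.stA (h : HR μ L (e + 3) m β κ r) (hr : 16 * (q : ℝ) ≤ r)
    {w : List (Fin (e + 3))} {b : ℝ} (hw : SC μ L m β w b) (o : OO e q)
    (hc : ∀ k, (w ++ SQ.stA o).count k ≤ 16 * q) :
    SC μ L m β (w ++ SQ.stA o) (b + 5 * uu e q κ) := by
  have hc' : ∀ k, (w ++ Y14.cb (vA o)).count k ≤ 16 * q := fun k => by
    have := hc k
    rwa [List.count_append, count_stA, ← count_cb (vA o) k, ← List.count_append] at this
  have h1 := SC.cb μ h hr hw (vA o) hc'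
  have h2 := CL.fan μ (L := L) (m := m) (β := β) h (vA_lt o) (s := 16 * (q : ℝ))
    (by positivity) hr fun j => by
      have h3 : vA o j ≤ 16 * q := (vA_le o j).trans (by omega)
      exact_mod_cast h3
  refine CL.mono μ (SC.repl μ h1 h2) (le_of_eq ?_)
  unfold uu; ring

lemma SC.stB (h : HR μ L (e + 3) m β κ r) (hr : 16 * (q : ℝ) ≤ r)
    {w : List (Fin (e + 3))} {b : ℝ} (hw : SC μ L m β w b) (o : OO e q)
    (hc : ∀ k, (w ++ SQ.stB o).count k ≤ 16 * q) :
    SC μ L m β (w ++ SQ.stB o) (b + 5 * uu e q κ) := by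
  have hc' : ∀ k, (w ++ Y14.cb (vB o)).count k ≤ 16 * q := fun k => by
    have := hc k
    rwa [List.count_append, count_stB, ← count_cb (vB o) k, ← List.count_append] at this
  have h1 := SC.cb μ h hr hw (vB o) hc'
  have h2 := CL.bfan μ (L := L) (m := m) (β := β) h (vB_lt o) (s := 16 * (q : ℝ))
    (by positivity) hr fun j => by
      have h3 : vB o j ≤ 16 * q := (vB_le o j).trans (by omega)
      exact_mod_cast h3
  refine CL.mono μ (SC.repl μ h1 h2) (le_of_eq ?_)
  unfold uu; ring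

lemma SC.cmp {w w' : List (Fin (e + 3))} {b b' : ℝ} (h : SC μ L m β w b)
    (h' : SC μ L m β w' b') (hc : ∀ k, w.count k = w'.count k) :
    en μ L β (fun U : Ed (e + 3) (2 * m) → G => dd L (tp eT U 0 w) (tp eT U 0 w')) ≤ b + b' := by
  have e1 : (fun k => w'.count k) = fun k => w.count k := funext fun k => (hc k).symm
  unfold SC at h h'
  rw [e1] at h'
  exact (h.trans μ (h'.symm μ)).2 0

lemma SC_T (h : HR μ L (e + 3) m β κ r) (hr : 16 * (q : ℝ) ≤ r) :
    SC μ L m β (Tq e q) (uu e q κ) := by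
  have h := SC.rep μ (L := L) h hr (nn := 2 * q) (SC.nil μ)
    (Fin.last (e + 2)) (fun k => by
      rw [List.nil_append]
      have := count_Tq (e := e) (q := q) k
      unfold Tq at this
      rw [this]
      split_ifs <;> omega)
  rw [List.nil_append, zero_add] at h
  exact h

lemma le16 {w : List (Fin (e + 3))} (h : ∀ k, w.count k ≤ 5 * q) (k : Fin (e + 3)) :
    w.count k ≤ 16 * q := (h k).trans (by omega)

/-- the error of the segments -/
lemma seg_en (h : HR μ L (e + 3) m β κ r) (hq : 1 ≤ q) (hr : 16 * (q : ℝ) ≤ r)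
    (hqm : 5 * q < 2 * m) (o : OO e q) {k : ℕ} (hk : k ≤ 3 * q)
    (hkk : kk q (yA m o + k • eT 0) ≠ 0) :
    en μ L β (fun U : Ed (e + 3) (2 * m) → G =>
      dd L (tp eT U 0 (Tq e q ++ SQ.stA o) * tp eT U (yA m o) (List.replicate k 0))
        (TT q U (yA m o + k • eT 0))) ≤ 11 * uu e q κ := by
  have hc := seg_le o hk
  have c1 := le16 hc
  have h1 := SC.rep μ (L := L) h hr (SC.stA μ h hr (SC_T μ h hr) o (count_le_of c1)) 0 c1
  obtain ⟨v, hv⟩ : ∃ v : Fin (e + 3) → ℕ, v = fun j =>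
    ((Tq e q ++ SQ.stA o) ++ List.replicate k 0).count j := ⟨_, rfl⟩
  have hwv : wv (yA m o + k • eT 0) = v := by
    rw [hv]
    funext j
    rw [yA_add, wv_dsp (by have := hc j; omega)]
  have hvl : ∀ j, v j < 2 ^ lv q := by
    intro j
    have h2 := lv_gt q
    have h3 := kk_ne hq hkk
    rw [hwv] at h3
    by_cases hj : j = 0
    · subst hj; omega
    · have := h3.2 j hj; omega
  have hr2 : (2 : ℝ) ^ lv q ≤ r := by
    refine le_trans ?_ hr
    exact_mod_cast lv_le hq
  have h4 := CL.trw μ (L := L) (m := m) (β := β) h hvl hr2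
  have h2 : ∀ U : Ed (e + 3) (2 * m) → G, TT q U (yA m o + k • eT 0) =
      tp eT U 0 (SQ.trw (lv q) v) := by
    intro U
    unfold TT
    rw [hwv]
  have h5 : ∀ U : Ed (e + 3) (2 * m) → G,
      tp eT U 0 (Tq e q ++ SQ.stA o) * tp eT U (yA m o) (List.replicate k 0) =
      tp eT U 0 ((Tq e q ++ SQ.stA o) ++ List.replicate k 0) := by
    intro U
    rw [tp2 U (Tq e q ++ SQ.stA o)]
    rfl
  simp only [h2, h5]
  unfold SC at h1
  rw [← hv] at h1
  refine (h1.trans μ (h4.symm μ)).2 0 |>.trans ?_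
  have h6 : un (e + 3) κ (2 ^ lv q) ≤ uu e q κ := by
    unfold uu
    refine un_mono h.1 ?_
    exact_mod_cast lv_le hq
  linarith

/-- the loops are close to the identity -/
lemma gP_en (h : HR μ L (e + 3) m β κ r) (hr : 16 * (q : ℝ) ≤ r) (o : OO e q) :
    en μ L β (fun U : Ed (e + 3) (2 * m) → G => dv L (gP o U)) ≤ 16 * uu e q κ := by
  have hc := le16 (count_TPP (e := e) (q := q) o)
  have e1 : Tq e q ++ PP o = (((Tq e q ++ SQ.stA o) ++ List.replicate (rr o) 0) ++
      List.replicate (rv o) 1) ++ SQ.stB o := by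
    unfold PP
    simp only [List.append_assoc]
  have hc' := hc
  rw [e1] at hc'
  have c1 := count_le_of hc'
  have c2 := count_le_of c1
  have c3 := count_le_of c2
  have s1 := SC.stA μ (L := L) h hr (SC_T μ h hr) o c3
  have s2 := SC.rep μ h hr s1 0 c2
  have s3 := SC.rep μ h hr s2 1 c1
  have s4 := SC.stB μ h hr s3 o hc'
  rw [← e1] at s4
  have hz := le16 (count_TP0 (e := e) (q := q))
  have e2 : Tq e q ++ P0 e q = (Tq e q ++ List.replicate (5 * q) 1) ++ Y14.cb (vZ e q) := by
    unfold P0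
    simp only [List.append_assoc]
  have hz' := hz
  rw [e2] at hz'
  have t1 := SC.rep μ (L := L) h hr (SC_T μ h hr) 1 (count_le_of hz')
  have t2 := SC.cb μ h hr t1 (vZ e q) hz'
  rw [← e2] at t2
  have hf := SC.cmp μ s4 t2 fun k => by
    rw [List.count_append, List.count_append, count_PP, count_P0]
  unfold gP
  simp only [← dd_dv]
  refine hf.trans (le_of_eq ?_)
  ring

lemma gQ_en (h : HR μ L (e + 3) m β κ r) (hr : 16 * (q : ℝ) ≤ r) (o : OO e q) :
    en μ L β (fun U : Ed (e + 3) (2 * m) → G => dv L (gQ o U)) ≤ 16 * uu e q κ := by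
  have hc := le16 (count_TQQ (e := e) (q := q) o)
  have e1 : Tq e q ++ QQ o = (((Tq e q ++ SQ.stA o) ++ List.replicate (rv o) 1) ++
      List.replicate (rr o) 0) ++ SQ.stB o := by
    unfold QQ
    simp only [List.append_assoc]
  have hc' := hc
  rw [e1] at hc'
  have c1 := count_le_of hc'
  have c2 := count_le_of c1
  have c3 := count_le_of c2
  have s1 := SC.stA μ (L := L) h hr (SC_T μ h hr) o c3
  have s2 := SC.rep μ h hr s1 1 c2
  have s3 := SC.rep μ h hr s2 0 c1
  have s4 := SC.stB μ h hr s3 o hc'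
  rw [← e1] at s4
  have hz := le16 (count_TP0 (e := e) (q := q))
  have e2 : Tq e q ++ P0 e q = (Tq e q ++ List.replicate (5 * q) 1) ++ Y14.cb (vZ e q) := by
    unfold P0
    simp only [List.append_assoc]
  have hz' := hz
  rw [e2] at hz'
  have t1 := SC.rep μ (L := L) h hr (SC_T μ h hr) 1 (count_le_of hz')
  have t2 := SC.cb μ h hr t1 (vZ e q) hz'
  rw [← e2] at t2
  have hf := SC.cmp μ s4 t2 fun k => by
    rw [List.count_append, List.count_append, count_QQ, count_P0]
  unfold gQ
  simp only [← dd_dv]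
  refine hf.trans (le_of_eq ?_)
  ring

end

end Pool.Agent.Q234.SQ
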