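import Mathlib
import Pool.Agent.Q234.SQ.Resp2
import Pool.Agent.Y14.Var2

/-!
# The field
-/

open MeasureTheory Matrix Filter
open scoped Matrix.Norms.Frobenius Topology
open Pool.Agent.H906R3.YM hiding Pl
open Pool.Agent.W793.YM Pool.Agent.TH618.YM
open Pool.Agent.Y14

namespace Pool.Agent.Q234.SQ

set_option linter.unusedSectionVars false
set_option linter.unusedVariables false

noncomputable section

variable {G : Type*} [Group G] [TopologicalSpace G] [IsTopologicalGroup G] [CompactSpace G]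
  [SecondCountableTopology G] [MeasurableSpace G] [BorelSpace G] (μ : Measure G)
  [IsProbabilityMeasure μ] [μ.IsMulLeftInvariant] [μ.IsMulRightInvariant] [μ.IsInvInvariant]
  {N n : ℕ} {L : LD G N n} {e m : ℕ} [NeZero m] {q : ℕ} {β κ r : ℝ}

variable (L) in
/-- the field, transported to the origin -/
def psi (q : ℕ) (U : Ed (e + 3) (2 * m) → G) : Mat N :=
  ((Fintype.card (OO e q) : ℝ))⁻¹ • ∑ o : OO e q, (L.rho (gP o U) - L.rho (gQ o U))

lemma gP_cont (o : OO e q) : Continuous fun U : Ed (e + 3) (2 * m) → G => gP o U :=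
  (tp_cont _ _).mul (tp_cont _ _).inv

lemma gQ_cont (o : OO e q) : Continuous fun U : Ed (e + 3) (2 * m) → G => gQ o U :=
  (tp_cont _ _).mul (tp_cont _ _).inv

lemma psi_cont : Continuous fun U : Ed (e + 3) (2 * m) → G => psi L q U := by
  have h1 : Continuous fun U : Ed (e + 3) (2 * m) → G =>
      ∑ o : OO e q, (L.rho (gP o U) - L.rho (gQ o U)) :=
    continuous_finsetSum _ fun o _ =>
      (L.cont.comp (gP_cont (m := m) o)).sub (L.cont.comp (gQ_cont (m := m) o))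
  exact h1.const_smul ((Fintype.card (OO e q) : ℝ))⁻¹

lemma psi_eq (U : Ed (e + 3) (2 * m) → G) : psi L q U = L.rho (tp eT U 0 (Tq e q)) *
    phi eT L q U (dsp eT (Tq e q)) * L.rho (tp eT U 0 (Tq e q ++ P0 e q))⁻¹ := by
  unfold psi phi
  rw [mul_smul_comm, smul_mul_assoc, Finset.mul_sum, Finset.sum_mul]
  congr 1
  refine Finset.sum_congr rfl fun o _ => ?_
  unfold gP gQ
  rw [tp2 U (Tq e q) (PP o), tp2 U (Tq e q) (QQ o), mul_sub, sub_mul, map_mul, map_mul, map_mul,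
    map_mul]

lemma norm_psi (U : Ed (e + 3) (2 * m) → G) :
    ‖psi L q U‖ = ‖phi eT L q U ((2 * q) • eT (Fin.last (e + 2)))‖ := by
  rw [psi_eq, norm_rmul, norm_lmul]
  unfold Tq
  rw [dsp_rep]

/-- the mean weight -/
def Kb (e q m : ℕ) [NeZero m] : ℝ :=
  ((Fintype.card (OO e q) : ℝ))⁻¹ * ∑ o : OO e q, KK q (yA m o) (rr o)

lemma Kb_le (hq : 1 ≤ q) (hqm : 5 * q < 2 * m) : Kb e q m ≤ q :=
  avg_le hq fun o => KK_le hq hqm o

lemma Kb_ge (hq : 1 ≤ q) (hqm : 5 * q < 2 * m) : (1 / 2 : ℝ) ^ (e + 2) * q ≤ Kb e q m := by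
  have h0 := card_pos (e := e) hq
  unfold Kb
  rw [le_inv_mul_iff₀ h0]
  calc (Fintype.card (OO e q) : ℝ) * ((1 / 2 : ℝ) ^ (e + 2) * q) =
      ∑ _o : OO e q, (1 / 2 : ℝ) ^ (e + 2) * q := by
        rw [Finset.sum_const, Finset.card_univ, nsmul_eq_mul]
    _ ≤ _ := Finset.sum_le_sum fun o _ => KK_ge hq hqm o

variable (L) in
/-- the error of the response -/
def Er (q : ℕ) (s : ℝ) (U : Ed (e + 3) (2 * m) → G) : ℝ :=
  ((Fintype.card (OO e q) : ℝ))⁻¹ * ∑ o : OO e q,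
    (ER L q U (tp eT U 0 (Tq e q ++ stA o)) (yA m o) (rr o) + |s| * (q : ℝ) ^ 2 +
      q * dv L (gP o U))

lemma ER_nonneg (U : Ed (e + 3) (2 * m) → G) (g : G) (y : Fin (e + 3) → ZMod (2 * m)) (r : ℕ) :
    0 ≤ ER L q U g y r :=
  Finset.sum_nonneg fun _ _ => mul_nonneg (mul_nonneg zero_le_two (kk_nonneg _ _)) (dd_nonneg _ _)

lemma Er_nonneg (s : ℝ) (U : Ed (e + 3) (2 * m) → G) : 0 ≤ Er L q s U := by
  unfold Er
  refine mul_nonneg (by positivity) (Finset.sum_nonneg fun o _ => ?_)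
  have h1 := ER_nonneg (L := L) (q := q) U (tp eT U 0 (Tq e q ++ stA o)) (yA m o) (rr o)
  have h2 : 0 ≤ |s| * (q : ℝ) ^ 2 := by positivity
  have h3 : 0 ≤ (q : ℝ) * dv L (gP o U) := mul_nonneg (Nat.cast_nonneg _) (dv_nonneg _)
  linarith

/-- the response of the field -/
lemma psi_resp (hq : 1 ≤ q) (hqm : 5 * q < 2 * m) (a : Fin n) (s : ℝ)
    (U : Ed (e + 3) (2 * m) → G) :
    ‖psi L q (Ps L q a s U) - psi L q U - (s * Kb e q m) • L.X a‖ ≤ |s| * Er L q s U := by
  have e1 : psi L q (Ps L q a s U) - psi L q U - (s * Kb e q m) • L.X a =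
      ((Fintype.card (OO e q) : ℝ))⁻¹ • ∑ o : OO e q, (L.rho (gP o (Ps L q a s U)) -
        L.rho (gP o U) - (s * KK q (yA m o) (rr o)) • L.X a) := by
    unfold psi Kb
    simp only [gQ_Ps hq hqm]
    rw [← smul_sub, ← Finset.sum_sub_distrib]
    have e2 : (s * (((Fintype.card (OO e q) : ℝ))⁻¹ * ∑ o : OO e q, KK q (yA m o) (rr o))) •
        L.X a = ((Fintype.card (OO e q) : ℝ))⁻¹ • ∑ o : OO e q,
          (s * KK q (yA m o) (rr o)) • L.X a := by
      rw [← Finset.sum_smul, ← Finset.mul_sum, smul_smul]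
      congr 1
      ring
    rw [e2, ← smul_sub, ← Finset.sum_sub_distrib]
    congr 1
    refine Finset.sum_congr rfl fun o _ => ?_
    abel
  have h0 := card_pos (e := e) hq
  rw [e1, norm_smul, norm_inv, Real.norm_natCast]
  unfold Er
  rw [mul_left_comm]
  refine mul_le_mul_of_nonneg_left ?_ (inv_nonneg.2 h0.le)
  refine (norm_sum_le _ _).trans ?_
  rw [Finset.mul_sum]
  refine Finset.sum_le_sum fun o _ => ?_
  refine (one_resp a _ _ _).trans ?_
  have h1 := gP_Ps (L := L) hq hqm a s U o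
  have h2 := KK_le hq hqm o
  have h3 := KK_nonneg (q := q) (yA m o) (rr o)
  have h4 : (s * KK q (yA m o) (rr o)) ^ 2 ≤ |s| * (|s| * (q : ℝ) ^ 2) := by
    rw [mul_pow, ← mul_assoc, ← sq, sq_abs]
    exact mul_le_mul_of_nonneg_left (pow_le_pow_left₀ h3 h2 2) (sq_nonneg _)
  have h5 : |s * KK q (yA m o) (rr o)| * dv L (gP o U) ≤ |s| * (q * dv L (gP o U)) := by
    rw [abs_mul, abs_of_nonneg h3, mul_assoc]
    exact mul_le_mul_of_nonneg_left (mul_le_mul_of_nonneg_right h2 (dv_nonneg _)) (abs_nonneg _)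
  rw [mul_add, mul_add]
  linarith

lemma ERd_cont (o : OO e q) (k : ℕ) : Continuous fun U : Ed (e + 3) (2 * m) → G =>
    dd L (tp eT U 0 (Tq e q ++ stA o) * tp eT U (yA m o) (List.replicate k 0))
        (TT q U (yA m o + k • eT 0)) :=
  dd_cont ((tp_cont _ _).mul (tp_cont _ _)) (tp_cont _ _)

lemma ER_cont (o : OO e q) : Continuous fun U : Ed (e + 3) (2 * m) → G =>
    ER L q U (tp eT U 0 (Tq e q ++ stA o)) (yA m o) (rr o) :=
  continuous_finsetSum _ fun k _ => continuous_const.mul (ERd_cont o k)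

lemma dvP_cont (o : OO e q) : Continuous fun U : Ed (e + 3) (2 * m) → G => dv L (gP o U) :=
  dv_cont.comp (gP_cont o)

lemma dvQ_cont (o : OO e q) : Continuous fun U : Ed (e + 3) (2 * m) → G => dv L (gQ o U) :=
  dv_cont.comp (gQ_cont o)

lemma Er_cont (s : ℝ) : Continuous (Er L q s : (Ed (e + 3) (2 * m) → G) → ℝ) :=
  continuous_const.mul (continuous_finsetSum _ fun o _ =>
    ((ER_cont o).add continuous_const).add (continuous_const.mul (dvP_cont o)))

/-! ### the part orthogonal to the Lie algebra -/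

variable (L) in
/-- bound of the orthogonal part -/
def Nr (C0 : ℝ) (q : ℕ) (U : Ed (e + 3) (2 * m) → G) : ℝ :=
  ((Fintype.card (OO e q) : ℝ))⁻¹ * ∑ o : OO e q,
    (Real.sqrt C0 * dv L (gP o U) ^ 2 + Real.sqrt C0 * dv L (gQ o U) ^ 2)

lemma nr_psi (hq : 1 ≤ q) {C0 : ℝ} (hC0 : 0 ≤ C0)
    (hcar : ∀ g : G, dv L g ^ 2 ≤ ∑ a, fi L a g ^ 2 + C0 * dv L g ^ 4)
    (U : Ed (e + 3) (2 * m) → G) : ‖nr L (psi L q U)‖ ≤ Nr L C0 q U := by
  have h0 := card_pos (e := e) hq
  unfold psi Nr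
  rw [nr_smul, nr_sum, norm_smul, norm_inv, Real.norm_natCast]
  refine mul_le_mul_of_nonneg_left ?_ (inv_nonneg.2 h0.le)
  refine (norm_sum_le _ _).trans (Finset.sum_le_sum fun o _ => ?_)
  have e1 : L.rho (gP o U) - L.rho (gQ o U) = (L.rho (gP o U) - 1) - (L.rho (gQ o U) - 1) := by
    abel
  rw [e1, nr_sub]
  exact (norm_sub_le _ _).trans (add_le_add (nr_rho hC0 hcar _) (nr_rho hC0 hcar _))

lemma Nr_nonneg {C0 : ℝ} (U : Ed (e + 3) (2 * m) → G) : 0 ≤ Nr L C0 q U := by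
  unfold Nr
  refine mul_nonneg (by positivity) (Finset.sum_nonneg fun o _ => ?_)
  have h1 := Real.sqrt_nonneg C0
  positivity

lemma Nr_cont {C0 : ℝ} : Continuous (Nr L C0 q : (Ed (e + 3) (2 * m) → G) → ℝ) :=
  continuous_const.mul (continuous_finsetSum _ fun o _ =>
    (continuous_const.mul ((dvP_cont o).pow 2)).add (continuous_const.mul ((dvQ_cont o).pow 2)))


lemma ER_en (h : HR μ L (e + 3) m β κ r) (hr : 16 * (q : ℝ) ≤ r) (hq : 1 ≤ q)
    (hqm : 5 * q < 2 * m) (o : OO e q) : en μ L β (fun U : Ed (e + 3) (2 * m) → G =>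
      ER L q U (tp eT U 0 (Tq e q ++ stA o)) (yA m o) (rr o)) ≤ 22 * (q * uu e q κ) := by
  have hu := uu_nonneg (e := e) (q := q) h.1
  unfold ER
  refine (en_sum μ (Finset.range (rr o)) fun k => continuous_const.mul (ERd_cont o k)).trans ?_
  have h1 : ∀ k ∈ Finset.range (rr o), en μ L β (fun U : Ed (e + 3) (2 * m) → G =>
      2 * kk q (yA m o + k • eT 0) *
      dd L (tp eT U 0 (Tq e q ++ stA o) * tp eT U (yA m o) (List.replicate k 0))
        (TT q U (yA m o + k • eT 0))) ≤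
      if k ∈ Ij o then 22 * uu e q κ else 0 := by
    intro k hk
    have hk' := Finset.mem_range.1 hk
    rw [en_smul μ (mul_nonneg zero_le_two (kk_nonneg _ _))]
    split_ifs with h'
    · have hne : kk q (yA m o + k • eT 0) ≠ 0 := by
        have := kk_in hq hqm o h'
        have h0 : (0 : ℝ) < (1 / 2 : ℝ) ^ (e + 2) := by positivity
        linarith
      have h2 := seg_en μ (L := L) h hq hr hqm o (k := k) (by have := rr_le o; omega) hne
      have h3 := kk_le q (yA m o + k • eT 0)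
      have h4 := kk_nonneg q (yA m o + k • eT 0)
      calc _ ≤ 2 * kk q (yA m o + k • eT 0) * (11 * uu e q κ) :=
            mul_le_mul_of_nonneg_left h2 (by linarith)
        _ ≤ 2 * 1 * (11 * uu e q κ) :=
            mul_le_mul_of_nonneg_right (by linarith) (by positivity)
        _ = _ := by ring
    · rw [kk_out hq hqm o hk' h']
      simp
  refine (Finset.sum_le_sum h1).trans (le_of_eq ?_)
  rw [← Finset.sum_filter, Finset.filter_mem_eq_inter, Finset.inter_eq_right.2 (Ij_sub o),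
    Finset.sum_const, Ij_card, nsmul_eq_mul]
  ring

/-- the error of the response -/
lemma Er_en (h : HR μ L (e + 3) m β κ r) (hr : 16 * (q : ℝ) ≤ r) (hq : 1 ≤ q)
    (hqm : 5 * q < 2 * m) (s : ℝ) :
    en μ L β (Er L q s : (Ed (e + 3) (2 * m) → G) → ℝ) ≤
      q * (38 * uu e q κ + |s| * q) := by
  have h0 := card_pos (e := e) hq
  unfold Er
  rw [en_smul μ (inv_nonneg.2 h0.le)]
  have hc1 : ∀ o : OO e q, Continuous fun U : Ed (e + 3) (2 * m) → G =>
      ER L q U (tp eT U 0 (Tq e q ++ stA o)) (yA m o) (rr o) + |s| * (q : ℝ) ^ 2 :=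
    fun o => (ER_cont o).add continuous_const
  have hc2 : ∀ o : OO e q, Continuous fun U : Ed (e + 3) (2 * m) → G =>
      (q : ℝ) * dv L (gP o U) := fun o => continuous_const.mul (dvP_cont o)
  refine le_trans (mul_le_mul_of_nonneg_left (en_sum μ Finset.univ fun o =>
    (hc1 o).add (hc2 o)) (inv_nonneg.2 h0.le)) ?_
  refine avg_le hq fun o => ?_
  refine (en_add μ (hc1 o) (hc2 o)).trans ?_
  have h1 := en_add μ (L := L) (β := β) (ER_cont (L := L) (m := m) o)
    (continuous_const (y := |s| * (q : ℝ) ^ 2))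
  rw [en_const μ (by positivity)] at h1
  have h2 := ER_en μ (L := L) h hr hq hqm o
  have h3 := gP_en μ (L := L) h hr o
  have h4 : en μ L β (fun U : Ed (e + 3) (2 * m) → G => (q : ℝ) * dv L (gP o U)) ≤
      q * (16 * uu e q κ) := by
    rw [en_smul μ (Nat.cast_nonneg q)]
    exact mul_le_mul_of_nonneg_left h3 (Nat.cast_nonneg q)
  have h5 : (q : ℝ) * (38 * uu e q κ + |s| * q) =
      22 * (q * uu e q κ) + |s| * (q : ℝ) ^ 2 + q * (16 * uu e q κ) := by ring
  rw [h5]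
  linarith

lemma EX_Nr (h : HR μ L (e + 3) m β κ r) (hr : 16 * (q : ℝ) ≤ r) (hq : 1 ≤ q)
    {C0 : ℝ} (hC0 : 0 ≤ C0) : EX μ L β (Nr L C0 q : (Ed (e + 3) (2 * m) → G) → ℝ) ≤
      2 * Real.sqrt C0 * (16 * uu e q κ) ^ 2 := by
  have h0 := card_pos (e := e) hq
  have hs := Real.sqrt_nonneg C0
  have c1 : ∀ o : OO e q, Continuous fun U : Ed (e + 3) (2 * m) → G =>
      Real.sqrt C0 * dv L (gP o U) ^ 2 := fun o => continuous_const.mul ((dvP_cont o).pow 2)
  have c2 : ∀ o : OO e q, Continuous fun U : Ed (e + 3) (2 * m) → G =>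
      Real.sqrt C0 * dv L (gQ o U) ^ 2 := fun o => continuous_const.mul ((dvQ_cont o).pow 2)
  unfold Nr
  have c3 : ∀ o : OO e q, Continuous fun U : Ed (e + 3) (2 * m) → G =>
      Real.sqrt C0 * dv L (gP o U) ^ 2 + Real.sqrt C0 * dv L (gQ o U) ^ 2 :=
    fun o => (c1 o).add (c2 o)
  rw [EX_smul, EX_fsum μ _ c3]
  refine avg_le hq fun o => ?_
  rw [EX_add μ (c1 o) (c2 o), EX_smul, EX_smul, ← en_sq, ← en_sq]
  have h1 := gP_en μ (L := L) h hr o
  have h2 := gQ_en μ (L := L) h hr o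
  have h3 := pow_le_pow_left₀ (en_nonneg μ _) h1 2
  have h4 := pow_le_pow_left₀ (en_nonneg μ _) h2 2
  nlinarith [mul_le_mul_of_nonneg_left h3 hs, mul_le_mul_of_nonneg_left h4 hs]

end

end Pool.Agent.Q234.SQ
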