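import Mathlib
import Pool.Agent.Q234.SQ.Count
import Pool.Agent.Q234.SQ.Fam
import Pool.Agent.Q234.SQ.Psi
import Pool.Agent.Y14.Dif3

/-!
# The variation of the observable under time shifts
-/

open MeasureTheory Matrix Filter
open scoped Matrix.Norms.Frobenius Topology
open Pool.Agent.H906R3.YM hiding Pl
open Pool.Agent.W793.YM Pool.Agent.TH618.YM
open Pool.Agent.Y14

namespace Pool.Agent.Q234.SQ

set_option linter.unusedSectionVars false
set_option linter.unusedVariables false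

noncomputable section

variable {G : Type*} [Group G] [TopologicalSpace G] [IsTopologicalGroup G] [CompactSpace G]
  [SecondCountableTopology G] [MeasurableSpace G] [BorelSpace G] (μ : Measure G)
  [IsProbabilityMeasure μ] [μ.IsMulLeftInvariant] [μ.IsMulRightInvariant] [μ.IsInvInvariant]
  {N n : ℕ} {L : LD G N n} {e m : ℕ} [NeZero m] {q : ℕ} {β κ r : ℝ}

/-! ### the paths as lists of links -/

lemma dsp_stA (o : OO e q) : (dsp eT (stA o) : Fin (e + 3) → ZMod (2 * m)) = dsp eT (cb (vA o)) :=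
  dsp_of_count fun j => by rw [count_stA, count_cb]

lemma lk_PP (o : OO e q) : lk eT (eT (Fin.last (e + 2)) : Fin (e + 3) → ZMod (2 * m)) (PP o) =
    lk eT (eT (Fin.last (e + 2))) (stA o) ++
      (lk eT (yR m o) (List.replicate (rr o) 0) ++ lk eT (yV m o) (List.replicate (rv o) 1)) ++
      lk eT (yB m o) (stB o) := by
  unfold PP yR yV yB
  rw [lk_append, lk_append, lk_append, dsp_append (stA o), dsp_stA, add_assoc,
    ← dsp_append (cb (vA o)) (List.replicate (rr o) 0),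
    ← dsp_append (cb (vA o)) (List.replicate (rr o) 0 ++ List.replicate (rv o) 1)]

lemma lk_QQ (o : OO e q) : lk eT (eT (Fin.last (e + 2)) : Fin (e + 3) → ZMod (2 * m)) (QQ o) =
    lk eT (eT (Fin.last (e + 2))) (stA o) ++
      (lk eT (yR m o) (List.replicate (rv o) 1) ++ lk eT (yS m o) (List.replicate (rr o) 0)) ++
      lk eT (yB m o) (stB o) := by
  have h1 : (dsp eT (cb (vA o) ++ (List.replicate (rr o) 0 ++ List.replicate (rv o) 1)) :
      Fin (e + 3) → ZMod (2 * m)) =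
      dsp eT (cb (vA o) ++ (List.replicate (rv o) 1 ++ List.replicate (rr o) 0)) := by
    rw [dsp_append, dsp_append, dsp_append, dsp_append,
      add_comm (dsp eT (List.replicate (rr o) 0))]
  unfold QQ yR yS yB
  rw [h1, lk_append, lk_append, lk_append, dsp_append (stA o), dsp_stA, add_assoc,
    ← dsp_append (cb (vA o)) (List.replicate (rv o) 1),
    ← dsp_append (cb (vA o)) (List.replicate (rv o) 1 ++ List.replicate (rr o) 0)]

lemma yB_end (o : OO e q) : yB m o + dsp eT (stB o) =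
    (eT (Fin.last (e + 2)) + ct (2 * m) (zz e q) : Fin (e + 3) → ZMod (2 * m)) := by
  unfold yB
  rw [add_assoc, ← dsp_append]
  congr 1
  funext j
  rw [dsp_apply]
  unfold ct
  simp only [List.count_append, count_cb, count_stB, List.count_replicate, ← cnt_aux o j,
    beq_iff_eq]

lemma mem_dir0 {y : Fin (e + 3) → ZMod (2 * m)} {k : ℕ} {f : Ed (e + 3) (2 * m)}
    (h : f ∈ lk eT y (List.replicate k 0)) : f.2 = 0 := (mem_lk_rep h).1

lemma mem_dir1 {y : Fin (e + 3) → ZMod (2 * m)} {k : ℕ} {f : Ed (e + 3) (2 * m)}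
    (h : f ∈ lk eT y (List.replicate k 1)) : f.2 = 1 := (mem_lk_rep h).1

/-- the number of rectangles through a link -/
lemma cntR (hqm : 5 * q < 2 * m) (f : Ed (e + 3) (2 * m)) :
    (Finset.univ.filter fun o : OO e q => f ∈ lk eT (yR m o) (List.replicate (rr o) 0) ++
      lk eT (yV m o) (List.replicate (rv o) 1)).card ≤ q ^ 3 := by
  by_cases hf : f.2 = 0
  · refine le_trans (Finset.card_le_card fun o ho => ?_) (fib1 hqm (c0 f))
    rw [Finset.mem_filter] at ho ⊢
    refine ⟨ho.1, ?_⟩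
    rcases List.mem_append.1 ho.2 with h | h
    · exact (c0_rep h).symm
    · exact absurd ((mem_dir1 h).symm.trans hf) one_ne
  · refine le_trans (Finset.card_le_card fun o ho => ?_) (fib2 hqm (c1' f))
    rw [Finset.mem_filter] at ho ⊢
    refine ⟨ho.1, ?_⟩
    rcases List.mem_append.1 ho.2 with h | h
    · exact absurd (mem_dir0 h) hf
    · exact (c1_rep h).symm

lemma cntR' (hqm : 5 * q < 2 * m) (f : Ed (e + 3) (2 * m)) :
    (Finset.univ.filter fun o : OO e q => f ∈ lk eT (yR m o) (List.replicate (rv o) 1) ++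
      lk eT (yS m o) (List.replicate (rr o) 0)).card ≤ q ^ 3 := by
  by_cases hf : f.2 = 0
  · refine le_trans (Finset.card_le_card fun o ho => ?_) (fib4 hqm (c0 f))
    rw [Finset.mem_filter] at ho ⊢
    refine ⟨ho.1, ?_⟩
    rcases List.mem_append.1 ho.2 with h | h
    · exact absurd ((mem_dir1 h).symm.trans hf) one_ne
    · exact (c0_rep h).symm
  · refine le_trans (Finset.card_le_card fun o ho => ?_) (fib3 hqm (c1' f))
    rw [Finset.mem_filter] at ho ⊢
    refine ⟨ho.1, ?_⟩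
    rcases List.mem_append.1 ho.2 with h | h
    · exact (c1_rep h).symm
    · exact absurd (mem_dir0 h) hf

/-! ### the observable -/

variable (L) in
/-- the observable at time `0` -/
def Fq (q : ℕ) (U : Ed (e + 3) (2 * m) → G) : ℝ := ‖phi eT L q U 0‖

lemma phi_cont (x : Fin (e + 3) → ZMod (2 * m)) :
    Continuous fun U : Ed (e + 3) (2 * m) → G => phi eT L q U x := by
  have h1 : Continuous fun U : Ed (e + 3) (2 * m) → G =>
      ∑ o : OO e q, (L.rho (tp eT U x (PP o)) - L.rho (tp eT U x (QQ o))) :=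
    continuous_finsetSum _ fun o _ =>
      (L.cont.comp (tp_cont x (PP o))).sub (L.cont.comp (tp_cont x (QQ o)))
  exact h1.const_smul ((Fintype.card (OO e q) : ℝ))⁻¹

lemma nphi_gt (γ : (Fin (e + 3) → ZMod (2 * m)) → G) (U : Ed (e + 3) (2 * m) → G)
    (x : Fin (e + 3) → ZMod (2 * m)) : ‖phi eT L q (gt γ U) x‖ = ‖phi eT L q U x‖ := by
  have h := phi_gauge (u := eT) (L := L) (q := q) γ U x
  have h1 : (gt γ U : Ed (e + 3) (2 * m) → G) =
      fun f => γ f.1 * U f * (γ (f.1 + eT f.2))⁻¹ := rfl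
  rw [h1, h, norm_rmul, norm_lmul]

lemma Fq_cont : Continuous fun U : Ed (e + 3) (2 * m) → G => Fq L q U := (phi_cont 0).norm

lemma Fq_GI : GI fun U : Ed (e + 3) (2 * m) → G => Fq L q U := fun γ U => nphi_gt γ U 0

lemma Fq_tr (z : Fin (e + 3) → ZMod (2 * m)) (U : Ed (e + 3) (2 * m) → G) :
    Fq L q (tr z U) = ‖phi eT L q U z‖ := by
  have h := phi_shift (u := eT) (L := L) (q := q) U z 0
  unfold Fq
  have h1 : (tr z U : Ed (e + 3) (2 * m) → G) = fun f => U (f.1 + z, f.2) := rfl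
  rw [h1, h, zero_add]

lemma PP_ne (o : OO e q) : ∀ i ∈ PP o, i ≠ Fin.last (e + 2) := fun i hi =>
  not_last (by rw [count_PP, zz_last]) hi

lemma QQ_ne (o : OO e q) : ∀ i ∈ QQ o, i ≠ Fin.last (e + 2) := fun i hi =>
  not_last (by rw [count_QQ, zz_last]) hi

lemma phi_fix (U : Ed (e + 3) (2 * m) → G) (x : Fin (e + 3) → ZMod (2 * m)) :
    phi eT L q (fix (Fin.last (e + 2)) U) x = phi eT L q U x := by
  unfold phi
  congr 1
  refine Finset.sum_congr rfl fun o _ => ?_
  rw [tp_fix U x (PP_ne o), tp_fix U x (QQ_ne o)]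

/-- the observable as a function of the coordinates -/
def Qf (e m q N : ℕ) [NeZero m] (hm : 2 ≤ m)
    (w : IJ (TR (d := e + 3) hm (Fin.last (e + 2))).J N → ℝ) : Mat N :=
  ((Fintype.card (OO e q) : ℝ))⁻¹ • ∑ o : OO e q,
    (pm (TR hm (Fin.last (e + 2))).J w (lk eT (eT (Fin.last (e + 2))) (PP o)) -
      pm (TR hm (Fin.last (e + 2))).J w (lk eT (eT (Fin.last (e + 2))) (QQ o)))

lemma Qf_phi (hm : 2 ≤ m) (U : Ed (e + 3) (2 * m) → G) :
    Qf e m q N hm (cv L (TR hm (Fin.last (e + 2))) U) =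
      phi eT L q U (eT (Fin.last (e + 2))) := by
  unfold Qf phi
  congr 1
  refine Finset.sum_congr rfl fun o _ => ?_
  rw [pm_tp (TR hm (Fin.last (e + 2))) U fun f hf => lk_J hm (by rw [count_PP, zz_last]) hf,
    pm_tp (TR hm (Fin.last (e + 2))) U fun f hf => lk_J hm (by rw [count_QQ, zz_last]) hf,
    rho_tp, rho_tp]

lemma Qf_tU (hm : 2 ≤ m) (U : Ed (e + 3) (2 * m) → G) :
    Qf e m q N hm (cv L (TR hm (Fin.last (e + 2))) ((TR hm (Fin.last (e + 2))).tU U)) =
      phi eT L q U 0 := by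
  rw [Qf_phi]
  unfold phi
  congr 1
  refine Finset.sum_congr rfl fun o _ => ?_
  rw [tp_tU hm U _ (PP_ne o), tp_tU hm U _ (QQ_ne o), rA_eT]

lemma Qf_MM (hm : 2 ≤ m) (hqm : 5 * (e + 3) * q < 2 * m) : MM (Qf e m q N hm) := by
  have h : ∀ o : OO e q, MM fun w : IJ (TR (d := e + 3) hm (Fin.last (e + 2))).J N → ℝ =>
      pm (TR hm (Fin.last (e + 2))).J w (lk eT (eT (Fin.last (e + 2))) (PP o)) -
      pm (TR hm (Fin.last (e + 2))).J w (lk eT (eT (Fin.last (e + 2))) (QQ o)) := fun o =>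
    (pm_MM (lk_nodup _ (lt_of_le_of_lt (len_PP o) hqm))).sub
      (pm_MM (lk_nodup _ (lt_of_le_of_lt (len_QQ o) hqm)))
  exact (MM.sum Finset.univ h).smul _

/-- the size of the error for one configuration -/
def Hb (L : LD G N n) (e q : ℕ) (β : ℝ) (U : Ed (e + 3) (2 * m) → G) : ℝ :=
  ((Fintype.card (OO e q) : ℝ))⁻¹ ^ 2 * (72 * (2 * N * (1 / β)) * HH e q *
    ∑ o : OO e q, (dv L (rect U (yR m o) 0 1 (rr o) (rv o)) ^ 2 +
      6 * (2 * N * (1 / β) * (5 * (e + 3) * q : ℕ) * N)) +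
    24 * (2 * N * (1 / β)) * N * (q ^ 3 : ℕ) * (5 * (e + 3) * q : ℕ) * Fintype.card (OO e q))

lemma dd_rect (U : Ed (e + 3) (2 * m) → G) (hm : 2 ≤ m) (o : OO e q) :
    ‖pm (TR hm (Fin.last (e + 2))).J (cv L (TR hm (Fin.last (e + 2))) U)
        (lk eT (yR m o) (List.replicate (rr o) 0) ++ lk eT (yV m o) (List.replicate (rv o) 1)) -
      pm (TR hm (Fin.last (e + 2))).J (cv L (TR hm (Fin.last (e + 2))) U)
        (lk eT (yR m o) (List.replicate (rv o) 1) ++ lk eT (yS m o) (List.replicate (rr o) 0))‖ =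
      dv L (rect U (yR m o) 0 1 (rr o) (rv o)) := by
  have e1 : lk eT (yR m o) (List.replicate (rr o) 0) ++ lk eT (yV m o) (List.replicate (rv o) 1) =
      lk eT (yR m o) (List.replicate (rr o) 0 ++ List.replicate (rv o) 1) := by
    unfold yR yV
    rw [lk_append, dsp_append, ← add_assoc]
  have e2 : lk eT (yR m o) (List.replicate (rv o) 1) ++ lk eT (yS m o) (List.replicate (rr o) 0) =
      lk eT (yR m o) (List.replicate (rv o) 1 ++ List.replicate (rr o) 0) := by
    unfold yR yS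
    rw [lk_append, dsp_append, ← add_assoc]
  have h1 := lk_PP (m := m) o
  have h2 := lk_QQ (m := m) o
  have j1 : ∀ f ∈ lk eT (yR m o) (List.replicate (rr o) 0 ++ List.replicate (rv o) 1),
      f ∈ (TR hm (Fin.last (e + 2))).J := fun f hf => by
    refine lk_J hm (w := PP o) (by rw [count_PP, zz_last]) ?_
    rw [h1, e1]
    simp only [List.mem_append]
    exact Or.inl (Or.inr hf)
  have j2 : ∀ f ∈ lk eT (yR m o) (List.replicate (rv o) 1 ++ List.replicate (rr o) 0),
      f ∈ (TR hm (Fin.last (e + 2))).J := fun f hf => by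
    refine lk_J hm (w := QQ o) (by rw [count_QQ, zz_last]) ?_
    rw [h2, e2]
    simp only [List.mem_append]
    exact Or.inl (Or.inr hf)
  rw [e1, e2, pm_tp (TR hm (Fin.last (e + 2))) U j1, pm_tp (TR hm (Fin.last (e + 2))) U j2,
    ← rho_tp, ← rho_tp]
  exact dd_swap U (yR m o) 0 1 (rr o) (rv o)

/-- the noise bound -/
lemma av_le (hm : 2 ≤ m) (hβ : 0 < β) (hq : 1 ≤ q) (hqm : 5 * (e + 3) * q < 2 * m)
    (hℓ : 2 * N * (1 / β) * (5 * (e + 3) * q : ℕ) ≤ 1) (U : Ed (e + 3) (2 * m) → G) :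
    av (fun s => ‖Qf e m q N hm (cv L (TR hm (Fin.last (e + 2))) U + sg (1 / Real.sqrt β) s) -
      Qf e m q N hm (cv L (TR hm (Fin.last (e + 2))) U)‖ ^ 2) ≤ Hb L e q β U := by
  have hβ2 : (1 / Real.sqrt β) ^ 2 = 1 / β := by
    rw [div_pow, one_pow, Real.sq_sqrt hβ.le]
  have hq5 : 5 * q < 2 * m := by nlinarith
  have hJ1 : ∀ o : OO e q, ∀ f ∈ lk eT (eT (Fin.last (e + 2)) : Fin (e + 3) → ZMod (2 * m)) (PP o),
      f ∈ (TR hm (Fin.last (e + 2))).J := fun o f hf => lk_J hm (by rw [count_PP, zz_last]) hf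
  have hJ2 : ∀ o : OO e q, ∀ f ∈ lk eT (eT (Fin.last (e + 2)) : Fin (e + 3) → ZMod (2 * m)) (QQ o),
      f ∈ (TR hm (Fin.last (e + 2))).J := fun o f hf => lk_J hm (by rw [count_QQ, zz_last]) hf
  have hn1 : ∀ o : OO e q,
      (lk eT (eT (Fin.last (e + 2)) : Fin (e + 3) → ZMod (2 * m)) (PP o)).Nodup :=
    fun o => lk_nodup _ (lt_of_le_of_lt (len_PP o) hqm)
  have hn2 : ∀ o : OO e q,
      (lk eT (eT (Fin.last (e + 2)) : Fin (e + 3) → ZMod (2 * m)) (QQ o)).Nodup :=
    fun o => lk_nodup _ (lt_of_le_of_lt (len_QQ o) hqm)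
  have hA : ∀ o : OO e q, ∑ f ∈ (lk eT (eT (Fin.last (e + 2)) : Fin (e + 3) → ZMod (2 * m))
      (stA o)).toFinset, ((Finset.univ.filter fun o' : OO e q =>
        f ∈ lk eT (eT (Fin.last (e + 2)) : Fin (e + 3) → ZMod (2 * m)) (stA o')).card : ℝ) ≤
        HH e q := fun o => ovA hq hqm _ o
  have hB : ∀ o : OO e q, ∑ f ∈ (lk eT (yB m o) (stB o)).toFinset,
      ((Finset.univ.filter fun o' : OO e q => f ∈ lk eT (yB m o') (stB o')).card : ℝ) ≤
        HH e q := fun o => ovB hq hqm _ yB_end o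
  have hP : ∀ o : OO e q, (lk eT (eT (Fin.last (e + 2)) : Fin (e + 3) → ZMod (2 * m)) (stA o) ++
      (lk eT (yR m o) (List.replicate (rr o) 0) ++ lk eT (yV m o) (List.replicate (rv o) 1)) ++
      lk eT (yB m o) (stB o)).Nodup := fun o => by have := hn1 o; rwa [lk_PP] at this
  have hP' : ∀ o : OO e q, (lk eT (eT (Fin.last (e + 2)) : Fin (e + 3) → ZMod (2 * m)) (stA o) ++
      (lk eT (yR m o) (List.replicate (rv o) 1) ++ lk eT (yS m o) (List.replicate (rr o) 0)) ++
      lk eT (yB m o) (stB o)).Nodup := fun o => by have := hn2 o; rwa [lk_QQ] at this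
  have hu : ∀ o : OO e q, Un (TR (d := e + 3) hm (Fin.last (e + 2))).J
      (cv L (TR hm (Fin.last (e + 2))) U)
      (lk eT (eT (Fin.last (e + 2)) : Fin (e + 3) → ZMod (2 * m)) (stA o) ++
      (lk eT (yR m o) (List.replicate (rr o) 0) ++ lk eT (yV m o) (List.replicate (rv o) 1)) ++
      lk eT (yB m o) (stB o)) := fun o => by
    have := Un_cv (L := L) (TR hm (Fin.last (e + 2))) U (hJ1 o); rwa [lk_PP] at this
  have hu' : ∀ o : OO e q, Un (TR (d := e + 3) hm (Fin.last (e + 2))).J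
      (cv L (TR hm (Fin.last (e + 2))) U)
      (lk eT (eT (Fin.last (e + 2)) : Fin (e + 3) → ZMod (2 * m)) (stA o) ++
      (lk eT (yR m o) (List.replicate (rv o) 1) ++ lk eT (yS m o) (List.replicate (rr o) 0)) ++
      lk eT (yB m o) (stB o)) := fun o => by
    have := Un_cv (L := L) (TR hm (Fin.last (e + 2))) U (hJ2 o); rwa [lk_QQ] at this
  have hL : ∀ o : OO e q, (lk eT (eT (Fin.last (e + 2)) : Fin (e + 3) → ZMod (2 * m)) (stA o) ++
      (lk eT (yR m o) (List.replicate (rr o) 0) ++ lk eT (yV m o) (List.replicate (rv o) 1)) ++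
      lk eT (yB m o) (stB o)).length ≤ 5 * (e + 3) * q := fun o => by
    have := len_PP o
    rw [← lk_length (u := eT) (eT (Fin.last (e + 2)) : Fin (e + 3) → ZMod (2 * m)) (PP o),
      lk_PP] at this
    exact this
  have hL' : ∀ o : OO e q, (lk eT (eT (Fin.last (e + 2)) : Fin (e + 3) → ZMod (2 * m)) (stA o) ++
      (lk eT (yR m o) (List.replicate (rv o) 1) ++ lk eT (yS m o) (List.replicate (rr o) 0)) ++
      lk eT (yB m o) (stB o)).length ≤ 5 * (e + 3) * q := fun o => by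
    have := len_QQ o
    rw [← lk_length (u := eT) (eT (Fin.last (e + 2)) : Fin (e + 3) → ZMod (2 * m)) (QQ o),
      lk_QQ] at this
    exact this
  have hδ : 2 * N * (1 / Real.sqrt β) ^ 2 * (5 * (e + 3) * q : ℕ) ≤ 1 := by
    rw [hβ2]; exact hℓ
  have key := fam_noise2 (δ := 1 / Real.sqrt β) hP hP' hu hu' (K := q ^ 3)
    (ℓ := 5 * (e + 3) * q) (H := HH e q) (fun f => by convert cntR hq5 f)
    (fun f => by convert cntR' hq5 f) (fun o => by convert hA o) (fun o => by convert hB o)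
    hL hL' hδ
  simp only [← lk_PP, ← lk_QQ, dd_rect, hβ2] at key
  have e1 : (fun s => ‖Qf e m q N hm (cv L (TR hm (Fin.last (e + 2))) U +
      sg (1 / Real.sqrt β) s) - Qf e m q N hm (cv L (TR hm (Fin.last (e + 2))) U)‖ ^ 2) =
      fun s => ((Fintype.card (OO e q) : ℝ))⁻¹ ^ 2 * ‖∑ o : OO e q,
        (pm (TR hm (Fin.last (e + 2))).J (cv L (TR hm (Fin.last (e + 2))) U +
          sg (1 / Real.sqrt β) s) (lk eT (eT (Fin.last (e + 2))) (PP o)) -
        pm (TR hm (Fin.last (e + 2))).J (cv L (TR hm (Fin.last (e + 2))) U +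
          sg (1 / Real.sqrt β) s) (lk eT (eT (Fin.last (e + 2))) (QQ o))) -
        ∑ o : OO e q, (pm (TR hm (Fin.last (e + 2))).J (cv L (TR hm (Fin.last (e + 2))) U)
          (lk eT (eT (Fin.last (e + 2))) (PP o)) -
        pm (TR hm (Fin.last (e + 2))).J (cv L (TR hm (Fin.last (e + 2))) U)
          (lk eT (eT (Fin.last (e + 2))) (QQ o)))‖ ^ 2 := by
    funext s
    unfold Qf
    rw [← smul_sub, norm_smul, mul_pow, norm_inv, Real.norm_natCast]
  rw [e1, av_smul]
  exact mul_le_mul_of_nonneg_left key (sq_nonneg _)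

end

end Pool.Agent.Q234.SQ
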