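import Mathlib
import Pool.Agent.Q234.SQ.Dif2

/-!
# The variation of the observable under time shifts: final bound
-/

open MeasureTheory Matrix Filter
open scoped Matrix.Norms.Frobenius Topology
open Pool.Agent.H906R3.YM hiding Pl
open Pool.Agent.W793.YM Pool.Agent.TH618.YM
open Pool.Agent.Y14

namespace Pool.Agent.Q234.SQ

set_option linter.unusedSectionVars false
set_option linter.unusedVariables false

noncomputable section

variable {G : Type*} [Group G] [TopologicalSpace G] [IsTopologicalGroup G] [CompactSpace G]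
  [SecondCountableTopology G] [MeasurableSpace G] [BorelSpace G] (μ : Measure G)
  [IsProbabilityMeasure μ] [μ.IsMulLeftInvariant] [μ.IsMulRightInvariant] [μ.IsInvInvariant]
  {N n : ℕ} {L : LD G N n} {e m : ℕ} [NeZero m] {q : ℕ} {β κ r : ℝ}

lemma Hb_cont : Continuous fun U : Ed (e + 3) (2 * m) → G => Hb L e q β U := by
  unfold Hb
  have h1 : Continuous fun U : Ed (e + 3) (2 * m) → G =>
      ∑ o : OO e q, (dv L (rect U (yR m o) 0 1 (rr o) (rv o)) ^ 2 +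
        6 * (2 * N * (1 / β) * (5 * (e + 3) * q : ℕ) * N)) :=
    continuous_finsetSum _ fun o _ => (dvr_cont o).add continuous_const
  exact continuous_const.mul ((continuous_const.mul h1).add continuous_const)

lemma Hb_GI : GI fun U : Ed (e + 3) (2 * m) → G => Hb L e q β U := fun γ U => by
  show Hb L e q β (gt γ U) = _
  unfold Hb
  simp only [rect_gt, dv_conj]

lemma Hb_fix (U : Ed (e + 3) (2 * m) → G) :
    Hb L e q β (fix (Fin.last (e + 2)) U) = Hb L e q β U := by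
  unfold Hb
  simp only [Y14.rect_fix zero_nel one_nel]

theorem dif_Zt (hm : 2 ≤ m) (hβ : 0 < β) (hq : 1 ≤ q) (hqm : 5 * (e + 3) * q < 2 * m)
    (hℓ : 2 * N * (1 / β) * (5 * (e + 3) * q : ℕ) ≤ 1) :
    Zt μ L β (fun U : Ed (e + 3) (2 * m) → G =>
      (Fq L q (tr (eT (Fin.last (e + 2))) U) - Fq L q U) ^ 2) ≤
      Zt μ L β (fun U : Ed (e + 3) (2 * m) → G => Hb L e q β U) := by
  obtain ⟨c, hc, hred⟩ := Zt_red μ (L := L) hm (Fin.last (e + 2)) β
  have c1 : Continuous fun U : Ed (e + 3) (2 * m) → G =>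
      (Fq L q (tr (eT (Fin.last (e + 2))) U) - Fq L q U) ^ 2 :=
    ((Fq_cont.comp (tr_cont _)).sub Fq_cont).pow 2
  have g1 : GI fun U : Ed (e + 3) (2 * m) → G =>
      (Fq L q (tr (eT (Fin.last (e + 2))) U) - Fq L q U) ^ 2 := fun γ U => by
    simp only [Fq_tr]
    unfold Fq
    rw [nphi_gt, nphi_gt]
  rw [hred _ c1 g1, hred _ Hb_cont Hb_GI]
  refine mul_le_mul_of_nonneg_left ?_ hc.le
  have hβ2 : (1 / Real.sqrt β) ^ 2 = 1 / β := by
    rw [div_pow, one_pow, Real.sq_sqrt hβ.le]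
  have hMM := Qf_MM (e := e) (q := q) (N := N) hm hqm
  have cQ := mm_cont hMM
  have cQ1 : Continuous fun U : Ed (e + 3) (2 * m) → G =>
      Qf e m q N hm (cv L (TR hm (Fin.last (e + 2))) U) := cQ.comp (cv_cont _)
  have cQ2 : Continuous fun U : Ed (e + 3) (2 * m) → G =>
      Qf e m q N hm (cv L (TR hm (Fin.last (e + 2))) ((TR hm (Fin.last (e + 2))).tU U)) :=
    cQ1.comp (TR hm (Fin.last (e + 2))).tU_cont
  have cQ3 : ∀ s, Continuous fun U : Ed (e + 3) (2 * m) → G =>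
      Qf e m q N hm (cv L (TR hm (Fin.last (e + 2))) U + sg (1 / Real.sqrt β) s) := fun s =>
    cQ.comp ((cv_cont _).add continuous_const)
  have h1 : (TR hm (Fin.last (e + 2))).Ew μ L β (wR L β m (Fin.last (e + 2))).1
      (fun U : Ed (e + 3) (2 * m) → G => (Fq L q (tr (eT (Fin.last (e + 2)))
        (fix (Fin.last (e + 2)) U)) - Fq L q (fix (Fin.last (e + 2)) U)) ^ 2) ≤
      (TR hm (Fin.last (e + 2))).Ew μ L β (wR L β m (Fin.last (e + 2))).1
      (fun U : Ed (e + 3) (2 * m) → G => ‖Qf e m q N hm (cv L (TR hm (Fin.last (e + 2))) U) -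
        Qf e m q N hm (cv L (TR hm (Fin.last (e + 2)))
          ((TR hm (Fin.last (e + 2))).tU U))‖ ^ 2) := by
    have e1 : (fun U : Ed (e + 3) (2 * m) → G => (Fq L q (tr (eT (Fin.last (e + 2)))
        (fix (Fin.last (e + 2)) U)) - Fq L q (fix (Fin.last (e + 2)) U)) ^ 2) =
        fun U => (‖Qf e m q N hm (cv L (TR hm (Fin.last (e + 2))) U)‖ -
          ‖Qf e m q N hm (cv L (TR hm (Fin.last (e + 2)))
            ((TR hm (Fin.last (e + 2))).tU U))‖) ^ 2 := by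
      funext U
      rw [Fq_tr, phi_fix, Qf_phi, Qf_tU]
      unfold Fq
      rw [phi_fix]
    rw [e1]
    refine Ew_mono μ _ (Sm_cont (wR L β m (Fin.last (e + 2)))) (wR_nonneg β _)
      ((cQ1.norm.sub cQ2.norm).pow 2) ((cQ1.sub cQ2).norm.pow 2) fun U => ?_
    rw [← sq_abs]
    exact pow_le_pow_left₀ (abs_nonneg _) (abs_norm_sub_norm_le _ _) 2
  refine h1.trans ?_
  refine (noise_domM μ (L := L) (TR hm (Fin.last (e + 2))) hβ hβ2 hMM
    (Sm_cont (wR L β m (Fin.last (e + 2)))) (wR_dep hm β (Fin.last (e + 2)))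
    (wR_nonneg β (Fin.last (e + 2)))).trans ?_
  refine Ew_mono μ _ (Sm_cont (wR L β m (Fin.last (e + 2)))) (wR_nonneg β _)
    (av_cont fun s => ((cQ3 s).sub cQ1).norm.pow 2) (Hb_cont.comp ?_) fun U => ?_
  · refine continuous_pi fun f => ?_
    unfold fix
    split_ifs
    · exact continuous_const
    · exact continuous_apply f
  · rw [Hb_fix]
    exact av_le hm hβ hq hqm hℓ U

/-- the constant of the bound -/
def CD (e N : ℕ) : ℝ := 144 * N * CH e * (3 + 60 * N ^ 2 * (e + 3)) + 240 * N ^ 2 * (e + 3)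

lemma CH_pos (e : ℕ) : 0 < CH e := by unfold CH; positivity

lemma CD_pos (hN : 1 ≤ N) : 0 < CD e N := by
  have : (1 : ℝ) ≤ N := by exact_mod_cast hN
  have := CH_pos e
  unfold CD; positivity

lemma EX_Hb (h : HR μ L (e + 3) m β κ r) (hr : 16 * (q : ℝ) ≤ r) (hβ : 0 < β) (hq : 1 ≤ q)
    (hκβ : 1 ≤ κ ^ 2 * β)
    (hD : (1 + Real.log (5 * (e + 3) * q : ℕ)) * κ ^ 2 * (q : ℝ) ^ (e + 1) ≤ 1) :
    EX μ L β (fun U : Ed (e + 3) (2 * m) → G => Hb L e q β U) ≤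
      CD e N * (q / (β * (q : ℝ) ^ (e + 1))) := by
  have hq1 : (1 : ℝ) ≤ q := by exact_mod_cast hq
  have hq0 : (0 : ℝ) < q := by linarith
  have hN0 : (0 : ℝ) ≤ N := Nat.cast_nonneg N
  have hCH := CH_pos e
  obtain ⟨M, hM⟩ : ∃ M : ℝ, M = (Fintype.card (OO e q) : ℝ) := ⟨_, rfl⟩
  have hM0 : 0 < M := by rw [hM]; exact card_pos hq
  have hMq : M = (q : ℝ) ^ (e + 4) := by
    rw [hM, card_OO]; push_cast; ring
  obtain ⟨σ, hσ⟩ : ∃ σ : ℝ, σ = 2 * N * (1 / β) := ⟨_, rfl⟩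
  obtain ⟨ℓ, hℓ⟩ : ∃ ℓ : ℝ, ℓ = ((5 * (e + 3) * q : ℕ) : ℝ) := ⟨_, rfl⟩
  have hσ0 : 0 ≤ σ := by rw [hσ]; positivity
  have hℓ1 : 1 ≤ ℓ := by
    rw [hℓ]
    have : 1 ≤ 5 * (e + 3) * q := Nat.one_le_iff_ne_zero.2 (by positivity)
    exact_mod_cast this
  have hℓ0 : 0 ≤ ℓ := by linarith
  obtain ⟨lam, hlam⟩ : ∃ lam : ℝ, lam = 1 + Real.log ℓ := ⟨_, rfl⟩
  have hlam0 : 0 ≤ lam := by
    rw [hlam]
    have := Real.log_nonneg hℓ1
    linarith
  have hHH : HH e q = CH e * M * lam := by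
    unfold HH
    rw [hMq, hlam, hℓ]
  have hHH0 : 0 ≤ HH e q := by rw [hHH]; positivity
  have hS : ∀ o : OO e q, EX μ L β (fun U : Ed (e + 3) (2 * m) → G =>
      dv L (rect U (yR m o) 0 1 (rr o) (rv o)) ^ 2) ≤ 3 * q * κ ^ 2 := by
    intro o
    have h1 : (rr o : ℝ) ≤ 3 * q := by exact_mod_cast rr_le o
    have h2 : (rv o : ℝ) ≤ 3 * q := by
      have h3 : rv o ≤ 3 * q := by
        unfold rv
        have := o.2.2.1.2
        omega
      exact_mod_cast h3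
    have h3 := h.2 0 1 (yR m o) (rr o) (rv o) (3 * q) (Ne.symm one_ne) h1 h2 (by linarith)
    simp only [dd_swap] at h3
    rw [← en_sq]
    refine (pow_le_pow_left₀ (en_nonneg μ _) h3 2).trans (le_of_eq ?_)
    rw [mul_pow, Real.sq_sqrt (by positivity)]
    ring
  have cS : Continuous fun U : Ed (e + 3) (2 * m) → G =>
      ∑ o : OO e q, dv L (rect U (yR m o) 0 1 (rr o) (rv o)) ^ 2 :=
    continuous_finsetSum _ fun o _ => dvr_cont o
  have hS' : EX μ L β (fun U : Ed (e + 3) (2 * m) → G =>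
      ∑ o : OO e q, dv L (rect U (yR m o) 0 1 (rr o) (rv o)) ^ 2) ≤ M * (3 * q * κ ^ 2) := by
    rw [EX_fsum μ Finset.univ fun o => dvr_cont o]
    calc _ ≤ ∑ _o : OO e q, 3 * q * κ ^ 2 := Finset.sum_le_sum fun o _ => hS o
      _ = _ := by rw [Finset.sum_const, Finset.card_univ, nsmul_eq_mul, hM]
  have e1 : (fun U : Ed (e + 3) (2 * m) → G => Hb L e q β U) = fun U =>
      (M⁻¹ ^ 2 * (72 * σ * HH e q)) *
        (∑ o : OO e q, dv L (rect U (yR m o) 0 1 (rr o) (rv o)) ^ 2) +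
      M⁻¹ ^ 2 * (72 * σ * HH e q * (M * (6 * (σ * ℓ * N))) +
        24 * σ * N * (q : ℝ) ^ 3 * ℓ * M) := by
    funext U
    unfold Hb
    rw [Finset.sum_add_distrib, Finset.sum_const, Finset.card_univ, nsmul_eq_mul, ← hM, ← hσ,
      ← hℓ]
    push_cast
    ring
  have cS' : Continuous fun U : Ed (e + 3) (2 * m) → G => (M⁻¹ ^ 2 * (72 * σ * HH e q)) *
        (∑ o : OO e q, dv L (rect U (yR m o) 0 1 (rr o) (rv o)) ^ 2) := continuous_const.mul cS
  rw [e1, EX_add μ cS' continuous_const, EX_smul, EX_const]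
  have h6 : (M⁻¹ ^ 2 * (72 * σ * HH e q)) * EX μ L β (fun U : Ed (e + 3) (2 * m) → G =>
      ∑ o : OO e q, dv L (rect U (yR m o) 0 1 (rr o) (rv o)) ^ 2) ≤
      (M⁻¹ ^ 2 * (72 * σ * HH e q)) * (M * (3 * q * κ ^ 2)) :=
    mul_le_mul_of_nonneg_left hS' (by positivity)
  obtain ⟨Q, hQ⟩ : ∃ Q : ℝ, Q = (q : ℝ) ^ (e + 1) := ⟨_, rfl⟩
  have hQ0 : 0 < Q := by rw [hQ]; positivity
  -- the three terms
  have s1 : (M⁻¹ ^ 2 * (72 * σ * HH e q)) * (M * (3 * q * κ ^ 2)) +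
      M⁻¹ ^ 2 * (72 * σ * HH e q * (M * (6 * (σ * ℓ * N)))) =
      72 * σ * CH e * lam * (3 * q * κ ^ 2 + 6 * (σ * ℓ * N)) := by
    rw [hHH]
    field_simp
  have s2 : σ * ℓ * N ≤ 10 * N ^ 2 * (e + 3) * (q * κ ^ 2) := by
    have h7 : σ * ℓ * N = 10 * N ^ 2 * (e + 3) * (q * (1 / β)) := by
      rw [hσ, hℓ]; push_cast; ring
    rw [h7]
    refine mul_le_mul_of_nonneg_left (mul_le_mul_of_nonneg_left ?_ hq0.le) (by positivity)
    rw [div_le_iff₀ hβ]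
    exact hκβ
  have s3 : lam * (q * κ ^ 2) ≤ q / Q := by
    rw [le_div_iff₀ hQ0]
    have h8 : lam * κ ^ 2 * Q ≤ 1 := by
      rw [hlam, hℓ, hQ]; exact hD
    calc lam * (q * κ ^ 2) * Q = (q : ℝ) * (lam * κ ^ 2 * Q) := by ring
      _ ≤ (q : ℝ) * 1 := mul_le_mul_of_nonneg_left h8 hq0.le
      _ = (q : ℝ) := mul_one _
  have s4 : 72 * σ * CH e * lam * (3 * q * κ ^ 2 + 6 * (σ * ℓ * N)) ≤
      144 * N * CH e * (3 + 60 * N ^ 2 * (e + 3)) * (q / (β * Q)) := by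
    have h7 : 3 * q * κ ^ 2 + 6 * (σ * ℓ * N) ≤ (3 + 60 * N ^ 2 * (e + 3)) * (q * κ ^ 2) := by
      linarith
    calc _ ≤ 72 * σ * CH e * lam * ((3 + 60 * N ^ 2 * (e + 3)) * (q * κ ^ 2)) :=
          mul_le_mul_of_nonneg_left h7 (by positivity)
      _ = 72 * σ * CH e * (3 + 60 * N ^ 2 * (e + 3)) * (lam * (q * κ ^ 2)) := by ring
      _ ≤ 72 * σ * CH e * (3 + 60 * N ^ 2 * (e + 3)) * (q / Q) :=
          mul_le_mul_of_nonneg_left s3 (by positivity)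
      _ = _ := by rw [hσ]; field_simp; ring
  have s5 : M⁻¹ ^ 2 * (24 * σ * N * (q : ℝ) ^ 3 * ℓ * M) =
      240 * N ^ 2 * (e + 3) * (q / (β * Q)) := by
    rw [hσ, hℓ, hMq, hQ]
    have h9 : (q : ℝ) ^ (e + 4) = (q : ℝ) ^ (e + 1) * (q : ℝ) ^ 3 := by ring
    rw [h9]
    push_cast
    field_simp
    ring
  rw [← hQ]
  unfold CD
  rw [mul_add (M⁻¹ ^ 2)]
  linarith

/-- **the variation of the observable in the time** -/
theorem dif_bound (h : HR μ L (e + 3) m β κ r) (hr : 16 * (q : ℝ) ≤ r) (hm : 2 ≤ m)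
    (hβ : 0 < β) (hq : 1 ≤ q) (hqm : 5 * (e + 3) * q < 2 * m) (hκβ : 1 ≤ κ ^ 2 * β)
    (hD : (1 + Real.log (5 * (e + 3) * q : ℕ)) * κ ^ 2 * (q : ℝ) ^ (e + 1) ≤ 1)
    (hqβ : q * (10 * N * (e + 3)) ≤ β) :
    EX μ L β (fun U : Ed (e + 3) (2 * m) → G =>
      (Fq L q (tr (eT (Fin.last (e + 2))) U) - Fq L q U) ^ 2) ≤
      CD e N * (q / (β * (q : ℝ) ^ (e + 1))) := by
  have h2 : 2 * N * (1 / β) * (5 * (e + 3) * q : ℕ) ≤ 1 := by
    have h3 : 2 * N * (1 / β) * (5 * (e + 3) * q : ℕ) = (q * (10 * N * (e + 3))) / β := by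
      push_cast; ring
    rw [h3, div_le_one hβ]
    exact hqβ
  refine le_trans ?_ (EX_Hb μ (L := L) h hr hβ hq hκβ hD)
  unfold EX
  exact div_le_div_of_nonneg_right (dif_Zt μ hm hβ hq hqm h2) (Zt_pos μ β).le

end

end Pool.Agent.Q234.SQ
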