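import Mathlib
import Pool.Agent.Q234.SQ.Psi

/-!
# Lower bound of the variance of the observable
-/

open MeasureTheory Matrix Filter
open scoped Matrix.Norms.Frobenius Topology
open Pool.Agent.H906R3.YM hiding Pl
open Pool.Agent.W793.YM Pool.Agent.TH618.YM
open Pool.Agent.Y14

namespace Pool.Agent.Q234.SQ

set_option linter.unusedSectionVars false
set_option linter.unusedVariables false

noncomputable section

variable {G : Type*} [Group G] [TopologicalSpace G] [IsTopologicalGroup G] [CompactSpace G]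
  [SecondCountableTopology G] [MeasurableSpace G] [BorelSpace G] (μ : Measure G)
  [IsProbabilityMeasure μ] [μ.IsMulLeftInvariant] [μ.IsMulRightInvariant] [μ.IsInvInvariant]
  {N n : ℕ} {L : LD G N n} {e m : ℕ} [NeZero m] {q : ℕ} {β : ℝ}

variable (L) in
/-- the scaled deviation -/
def Wd (q : ℕ) (c t : ℝ) (U : Ed (e + 3) (2 * m) → G) : ℝ := ((‖psi L q U‖ - c) / t) ^ 2

lemma Wd_cont (c t : ℝ) : Continuous fun U : Ed (e + 3) (2 * m) → G => Wd L q c t U :=
  ((psi_cont.norm.sub continuous_const).div_const t).pow 2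

lemma Er_neg (s : ℝ) (U : Ed (e + 3) (2 * m) → G) : Er L q (-s) U = Er L q s U := by
  unfold Er
  rw [abs_neg]

/-- the union bound -/
lemma union_pt (hn : 1 ≤ n) (hq : 1 ≤ q) (hqm : 5 * q < 2 * m) {C0 : ℝ} (hC0 : 0 ≤ C0)
    (hcar : ∀ g : G, dv L g ^ 2 ≤ ∑ a, fi L a g ^ 2 + C0 * dv L g ^ 4) {s : ℝ} (hs : 0 < s)
    {y : ℝ} (hy : y = s * Kb e q m) (hy0 : 0 < y) (c : ℝ) {t : ℝ} (ht : t = 1 / (16 * n) * y)
    (U : Ed (e + 3) (2 * m) → G) :
    1 ≤ Wd L q c t U + ∑ a : Fin n, (min 1 (Wd L q c t (Ps L q a s U)) +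
      min 1 (Wd L q c t (Ps L q a (-s) U))) + (s / t * Er L q s U) ^ 2 + 1 / y * Nr L C0 q U := by
  have hn0 : (1 : ℝ) ≤ n := by exact_mod_cast hn
  have ht0 : 0 < t := by rw [ht]; positivity
  by_contra hcon
  push Not at hcon
  have w0 : 0 ≤ Wd L q c t U := sq_nonneg _
  have w1 : ∀ V : Ed (e + 3) (2 * m) → G, 0 ≤ min 1 (Wd L q c t V) :=
    fun V => le_min zero_le_one (sq_nonneg _)
  have w2 : 0 ≤ ∑ a : Fin n, (min 1 (Wd L q c t (Ps L q a s U)) +
      min 1 (Wd L q c t (Ps L q a (-s) U))) :=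
    Finset.sum_nonneg fun a _ => add_nonneg (w1 _) (w1 _)
  have w3 : 0 ≤ (s / t * Er L q s U) ^ 2 := sq_nonneg _
  have w4 : 0 ≤ 1 / y * Nr L C0 q U := mul_nonneg (by positivity) (Nr_nonneg U)
  have b0 : |‖psi L q U‖ - c| ≤ t := le_of_sq_div ht0 (by
    have : Wd L q c t U < 1 := by linarith
    exact this)
  have b1 : ∀ a : Fin n, |‖psi L q (Ps L q a s U)‖ - c| ≤ t ∧
      |‖psi L q (Ps L q a (-s) U)‖ - c| ≤ t := by
    intro a
    have h1 : min 1 (Wd L q c t (Ps L q a s U)) + min 1 (Wd L q c t (Ps L q a (-s) U)) < 1 := by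
      refine lt_of_le_of_lt ?_ (by linarith : ∑ a : Fin n, (min 1 (Wd L q c t (Ps L q a s U)) +
        min 1 (Wd L q c t (Ps L q a (-s) U))) < 1)
      exact Finset.single_le_sum (f := fun a : Fin n => min 1 (Wd L q c t (Ps L q a s U)) +
        min 1 (Wd L q c t (Ps L q a (-s) U))) (fun a _ => add_nonneg (w1 _) (w1 _))
        (Finset.mem_univ a)
    have h2 : min 1 (Wd L q c t (Ps L q a s U)) < 1 := by
      have := w1 (Ps L q a (-s) U); linarith
    have h3 : min 1 (Wd L q c t (Ps L q a (-s) U)) < 1 := by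
      have := w1 (Ps L q a s U); linarith
    rw [min_lt_iff] at h2 h3
    exact ⟨le_of_sq_div ht0 (h2.resolve_left (lt_irrefl _)),
      le_of_sq_div ht0 (h3.resolve_left (lt_irrefl _))⟩
  have b2 : s * Er L q s U ≤ t := by
    have h1 : (s / t * Er L q s U) ^ 2 < 1 := by linarith
    have h2 : 0 ≤ s / t * Er L q s U := mul_nonneg (by positivity) (Er_nonneg _ _)
    rw [sq_lt_one_iff₀ h2] at h1
    have h3 : s / t * Er L q s U = s * Er L q s U / t := by ring
    rw [h3, div_lt_one ht0] at h1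
    exact h1.le
  have b3 : ‖nr L (psi L q U)‖ ≤ y := by
    have h1 : 1 / y * Nr L C0 q U < 1 := by linarith
    have h3 : 1 / y * Nr L C0 q U = Nr L C0 q U / y := by ring
    rw [h3, div_lt_one hy0] at h1
    exact (nr_psi hq hC0 hcar U).trans h1.le
  have ht2 : 1 / (8 * (n : ℝ)) * y = t + t := by
    rw [ht]; field_simp; norm_num
  have key : ∀ (A B : Mat N), ‖A - B‖ ≤ t → |‖A‖ - c| ≤ t → |‖B‖ - c| ≤ t + t := by
    intro A B h1 h2
    have h3 : |‖B‖ - ‖A‖| ≤ t := by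
      rw [abs_sub_comm]
      exact (abs_norm_sub_norm_le A B).trans h1
    calc |‖B‖ - c| = |(‖B‖ - ‖A‖) + (‖A‖ - c)| := by ring_nf
      _ ≤ |‖B‖ - ‖A‖| + |‖A‖ - c| := abs_add_le _ _
      _ ≤ t + t := add_le_add h3 h2
  refine det_contra (L := L) (M := psi L q U) (y := y) (c := c) (κ := 1 / (8 * n)) hn hy0 rfl
    (b0.trans (by rw [ht2]; linarith)) (fun a => ?_) (fun a => ?_) b3
  · rw [ht2]
    refine key (psi L q (Ps L q a s U)) _ ?_ (b1 a).1
    have h1 := psi_resp (L := L) hq hqm a s U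
    rw [abs_of_pos hs, ← hy] at h1
    rw [← sub_sub]
    exact h1.trans b2
  · rw [ht2]
    refine key (psi L q (Ps L q a (-s) U)) _ ?_ (b1 a).2
    have h1 := psi_resp (L := L) hq hqm a (-s) U
    rw [abs_neg, abs_of_pos hs, neg_mul, ← hy, Er_neg] at h1
    rw [← sub_sub]
    exact h1.trans b2

/-- the averaged union bound -/
lemma union_EX (hn : 1 ≤ n) (hq : 1 ≤ q) (hqm : 5 * q < 2 * m) {C0 : ℝ} (hC0 : 0 ≤ C0)
    (hcar : ∀ g : G, dv L g ^ 2 ≤ ∑ a, fi L a g ^ 2 + C0 * dv L g ^ 4) {s : ℝ} (hs : 0 < s)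
    {y : ℝ} (hy : y = s * Kb e q m) (hy0 : 0 < y) (c : ℝ) {t : ℝ} (ht : t = 1 / (16 * n) * y)
    {X : ℝ} (hX : ∀ a : Fin n, EX μ L β (fun U : Ed (e + 3) (2 * m) → G => XX L β q a s U) ≤ X)
    (hX' : ∀ a : Fin n, EX μ L β (fun U : Ed (e + 3) (2 * m) → G => XX L β q a (-s) U) ≤ X) :
    1 ≤ (1 + 6 * n) * EX μ L β (fun U : Ed (e + 3) (2 * m) → G => Wd L q c t U) + 6 * n * X +
      (s / t * en μ L β (fun U : Ed (e + 3) (2 * m) → G => Er L q s U)) ^ 2 +
      1 / y * EX μ L β (fun U : Ed (e + 3) (2 * m) → G => Nr L C0 q U) := by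
  have cW := Wd_cont (L := L) (e := e) (m := m) (q := q) c t
  have cg : Continuous fun U : Ed (e + 3) (2 * m) → G => min 1 (Wd L q c t U) :=
    continuous_const.min cW
  have cgs : ∀ (a : Fin n) (s : ℝ), Continuous fun U : Ed (e + 3) (2 * m) → G =>
      min 1 (Wd L q c t (Ps L q a s U)) := fun a s => cg.comp (Ps_cont a s)
  have cS : Continuous fun U : Ed (e + 3) (2 * m) → G =>
      ∑ a : Fin n, (min 1 (Wd L q c t (Ps L q a s U)) + min 1 (Wd L q c t (Ps L q a (-s) U))) :=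
    continuous_finsetSum _ fun a _ => (cgs a s).add (cgs a (-s))
  have cE : Continuous fun U : Ed (e + 3) (2 * m) → G => (s / t * Er L q s U) ^ 2 :=
    (continuous_const.mul (Er_cont s)).pow 2
  have cN : Continuous fun U : Ed (e + 3) (2 * m) → G => 1 / y * Nr L C0 q U :=
    continuous_const.mul Nr_cont
  have c1 : Continuous fun U : Ed (e + 3) (2 * m) → G => Wd L q c t U +
      ∑ a : Fin n, (min 1 (Wd L q c t (Ps L q a s U)) + min 1 (Wd L q c t (Ps L q a (-s) U))) :=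
    cW.add cS
  have c2 : Continuous fun U : Ed (e + 3) (2 * m) → G => Wd L q c t U +
      ∑ a : Fin n, (min 1 (Wd L q c t (Ps L q a s U)) + min 1 (Wd L q c t (Ps L q a (-s) U))) +
      (s / t * Er L q s U) ^ 2 := c1.add cE
  have c3 : Continuous fun U : Ed (e + 3) (2 * m) → G => Wd L q c t U +
      ∑ a : Fin n, (min 1 (Wd L q c t (Ps L q a s U)) + min 1 (Wd L q c t (Ps L q a (-s) U))) +
      (s / t * Er L q s U) ^ 2 + 1 / y * Nr L C0 q U := c2.add cN
  have h := EX_mono μ (L := L) (β := β) (continuous_const (y := (1 : ℝ))) c3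
    (union_pt hn hq hqm hC0 hcar hs hy hy0 c ht)
  have c4 : ∀ a : Fin n, Continuous fun U : Ed (e + 3) (2 * m) → G =>
      min 1 (Wd L q c t (Ps L q a s U)) + min 1 (Wd L q c t (Ps L q a (-s) U)) :=
    fun a => (cgs a s).add (cgs a (-s))
  rw [EX_one, EX_add μ c2 cN, EX_add μ c1 cE, EX_add μ cW cS, EX_fsum μ _ c4, EX_smul] at h
  have h1 : ∀ a : Fin n, EX μ L β (fun U : Ed (e + 3) (2 * m) → G =>
      min 1 (Wd L q c t (Ps L q a s U)) + min 1 (Wd L q c t (Ps L q a (-s) U))) ≤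
      6 * EX μ L β (fun U : Ed (e + 3) (2 * m) → G => Wd L q c t U) + 6 * X := by
    intro a
    rw [EX_add μ (cgs a s) (cgs a (-s))]
    have k1 := tilt μ (L := L) (β := β) hq a s cg (fun U => le_min zero_le_one (sq_nonneg _))
      (fun U => min_le_left _ _)
    have k2 := tilt μ (L := L) (β := β) hq a (-s) cg (fun U => le_min zero_le_one (sq_nonneg _))
      (fun U => min_le_left _ _)
    have k3 : EX μ L β (fun U : Ed (e + 3) (2 * m) → G => min 1 (Wd L q c t U)) ≤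
      EX μ L β (fun U : Ed (e + 3) (2 * m) → G => Wd L q c t U) :=
      EX_mono μ cg cW fun U => min_le_right _ _
    have k4 := hX a
    have k5 := hX' a
    linarith
  have h2 : ∑ a : Fin n, EX μ L β (fun U : Ed (e + 3) (2 * m) → G =>
      min 1 (Wd L q c t (Ps L q a s U)) + min 1 (Wd L q c t (Ps L q a (-s) U))) ≤
      n * (6 * EX μ L β (fun U : Ed (e + 3) (2 * m) → G => Wd L q c t U) + 6 * X) := by
    calc _ ≤ ∑ _a : Fin n, (6 * EX μ L β (fun U : Ed (e + 3) (2 * m) → G => Wd L q c t U) +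
          6 * X) := Finset.sum_le_sum fun a _ => h1 a
      _ = _ := by rw [Finset.sum_const, Finset.card_univ, Fintype.card_fin, nsmul_eq_mul]
  have h3 : EX μ L β (fun U : Ed (e + 3) (2 * m) → G => (s / t * Er L q s U) ^ 2) =
      (s / t * en μ L β (fun U : Ed (e + 3) (2 * m) → G => Er L q s U)) ^ 2 := by
    have e1 : (fun U : Ed (e + 3) (2 * m) → G => (s / t * Er L q s U) ^ 2) =
        fun U => (s / t) ^ 2 * Er L q s U ^ 2 := by funext U; ring
    rw [e1, EX_smul, mul_pow, en_sq]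
  rw [h3] at h
  linarith

end

end Pool.Agent.Q234.SQ
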