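import Mathlib
import Pool.Agent.Q234.SQ.Var

/-!
# Lower bound of the variance of the observable
-/

open MeasureTheory Matrix Filter
open scoped Matrix.Norms.Frobenius Topology
open Pool.Agent.H906R3.YM hiding Pl
open Pool.Agent.W793.YM Pool.Agent.TH618.YM
open Pool.Agent.Y14

namespace Pool.Agent.Q234.SQ

set_option linter.unusedSectionVars false
set_option linter.unusedVariables false

noncomputable section

variable {G : Type*} [Group G] [TopologicalSpace G] [IsTopologicalGroup G] [CompactSpace G]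
  [SecondCountableTopology G] [MeasurableSpace G] [BorelSpace G] (μ : Measure G)
  [IsProbabilityMeasure μ] [μ.IsMulLeftInvariant] [μ.IsMulRightInvariant] [μ.IsInvInvariant]
  {N n : ℕ} {L : LD G N n}

lemma CE_ge (e N : ℕ) : 1 ≤ CE e N := by
  unfold CE
  have h1 : (1 : ℝ) ≤ 5 ^ (e + 3) := one_le_pow₀ (by norm_num)
  have h2 : (1 : ℝ) ≤ (e : ℝ) + 3 := by
    have : (0 : ℝ) ≤ e := Nat.cast_nonneg e
    linarith
  have h3 : (1 : ℝ) ≤ 1 + 2 * (N : ℝ) ^ 2 := by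
    have : (0 : ℝ) ≤ 2 * (N : ℝ) ^ 2 := by positivity
    linarith
  have h4 : (1 : ℝ) ≤ 5 ^ (e + 3) * ((e : ℝ) + 3) := one_le_mul_of_one_le_of_one_le h1 h2
  have h5 := one_le_mul_of_one_le_of_one_le h4 h3
  have h6 : (0 : ℝ) ≤ 5 ^ (e + 2) * 256 * 81 * ((e : ℝ) + 3) ^ 5 := by positivity
  linarith

lemma uu_eq (e q : ℕ) (κ : ℝ) : uu e q κ = 4 * ((e : ℝ) + 3) ^ 2 * (κ * Real.sqrt q) := by
  unfold uu un
  have h1 : Real.sqrt (16 * q) = 4 * Real.sqrt q := by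
    rw [Real.sqrt_mul (by norm_num)]
    congr 1
    rw [show (16 : ℝ) = 4 ^ 2 by norm_num, Real.sqrt_sq (by norm_num)]
  rw [h1]
  push_cast
  ring

/-- **lower bound of the variance** -/
theorem var_low (hn : 1 ≤ n) (hN : 1 ≤ N) (e : ℕ) {C0 : ℝ} (hC0 : 0 < C0)
    (hcar : ∀ g : G, dv L g ^ 2 ≤ ∑ a, fi L a g ^ 2 + C0 * dv L g ^ 4) :
    ∃ c1 cv : ℝ, 0 < c1 ∧ c1 ≤ 1 ∧ 0 < cv ∧ ∀ (q : ℕ) (β κ r : ℝ), 1 ≤ q → 0 < β →
      1 ≤ κ ^ 2 * β → κ ^ 2 * ((q : ℝ) ^ 2 * (2 * lv q + 1)) ≤ 1 →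
      κ ^ 4 * β * (q : ℝ) ^ (e + 1) ≤ c1 → 16 * (q : ℝ) ≤ r →
      ∀ (m : ℕ) [NeZero m], 5 * q < 2 * m → HR μ L (e + 3) m β κ r → ∀ c : ℝ,
      cv * ((q : ℝ) ^ 2 / (β * (q : ℝ) ^ (e + 1))) ≤
        EX μ L β (fun U : Ed (e + 3) (2 * m) → G => (‖psi L q U‖ - c) ^ 2) := by
  have hn0 : (1 : ℝ) ≤ n := by exact_mod_cast hn
  have hN0 : (1 : ℝ) ≤ N := by exact_mod_cast hN
  have hCE := CE_ge e N
  obtain ⟨A0, hA0⟩ : ∃ A0 : ℝ, A0 = 4 * ((e : ℝ) + 3) ^ 2 := ⟨_, rfl⟩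
  have hA0p : 0 < A0 := by rw [hA0]; positivity
  obtain ⟨B1, hB1⟩ : ∃ B1 : ℝ, B1 = 2 ^ (e + 2) * (16 * n) * (38 * A0 + 1) := ⟨_, rfl⟩
  obtain ⟨B2, hB2⟩ : ∃ B2 : ℝ, B2 = 2 ^ (e + 2) * (2 * Real.sqrt C0 * (16 * A0) ^ 2) := ⟨_, rfl⟩
  have hB1p : 0 < B1 := by rw [hB1]; positivity
  have hB2p : 0 < B2 := by
    have : 0 < Real.sqrt C0 := Real.sqrt_pos.2 hC0
    rw [hB2]; positivity
  obtain ⟨K1, hK1⟩ : ∃ K1 : ℝ, K1 = 24 * n * CE e N := ⟨_, rfl⟩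
  have hK1p : 0 < K1 := by rw [hK1]; positivity
  have hK11 : 1 ≤ K1 := by
    rw [hK1]
    nlinarith
  obtain ⟨Y, hY⟩ : ∃ Y : ℝ, Y = 4 * B1 ^ 2 + 16 * K1 * B2 ^ 2 + 1 := ⟨_, rfl⟩
  have hYp : 0 < Y := by rw [hY]; positivity
  refine ⟨1 / Y, (1 / (16 * n) * (1 / 2) ^ (e + 2)) ^ 2 / (K1 * (4 * (1 + 6 * n))), by positivity,
    ?_, by positivity, fun q β κ r hq hβ0 hκβ hκq hκQ hr m _ hqm hHR c => ?_⟩
  · rw [div_le_one hYp, hY]
    have : 0 ≤ 4 * B1 ^ 2 + 16 * K1 * B2 ^ 2 := by positivity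
    linarith
  have hq1 : (1 : ℝ) ≤ q := by exact_mod_cast hq
  have hq0 : (0 : ℝ) < q := by linarith
  have hκ0 : 0 ≤ κ := hHR.1
  have hκ2 : 0 ≤ κ ^ 2 := sq_nonneg _
  have hm2 : 2 ≤ m := by omega
  obtain ⟨Q, hQ⟩ : ∃ Q : ℝ, Q = (q : ℝ) ^ (e + 1) := ⟨_, rfl⟩
  have hQ1 : 1 ≤ Q := by rw [hQ]; exact one_le_pow₀ hq1
  have hQp : 0 < Q := by linarith
  have hQq : (q : ℝ) ≤ Q := by
    rw [hQ]
    calc (q : ℝ) = (q : ℝ) ^ 1 := (pow_one _).symm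
      _ ≤ (q : ℝ) ^ (e + 1) := pow_le_pow_right₀ hq1 (by omega)
  rw [← hQ] at hκQ
  have hYQ : Y * (κ ^ 4 * β * Q) ≤ 1 := by
    have := mul_le_mul_of_nonneg_left hκQ hYp.le
    rwa [mul_one_div_cancel hYp.ne'] at this
  -- consequences
  have hlv : (1 : ℝ) ≤ 2 * lv q + 1 := by
    have : (0 : ℝ) ≤ lv q := Nat.cast_nonneg _
    linarith
  have hq2β : (q : ℝ) ^ 2 ≤ β := by
    have h1 : κ ^ 2 * (q : ℝ) ^ 2 ≤ 1 := by
      refine le_trans (mul_le_mul_of_nonneg_left ?_ hκ2) hκq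
      exact le_mul_of_one_le_right (by positivity) hlv
    calc (q : ℝ) ^ 2 ≤ (κ ^ 2 * β) * (q : ℝ) ^ 2 := le_mul_of_one_le_left (by positivity) hκβ
      _ = β * (κ ^ 2 * (q : ℝ) ^ 2) := by ring
      _ ≤ β * 1 := mul_le_mul_of_nonneg_left h1 hβ0.le
      _ = β := mul_one _
  obtain ⟨ρ, hρ⟩ : ∃ ρ, ρ = κ * Real.sqrt q := ⟨_, rfl⟩
  have hρ0 : 0 ≤ ρ := by rw [hρ]; positivity
  have hρ2 : ρ ^ 2 = κ ^ 2 * q := by rw [hρ, mul_pow, Real.sq_sqrt hq0.le]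
  have hκp : 0 < κ := by
    rcases hκ0.lt_or_eq with h | h
    · exact h
    · rw [← h] at hκβ
      norm_num at hκβ
  have hρp : 0 < ρ := by
    rw [hρ]
    exact mul_pos hκp (Real.sqrt_pos.2 hq0)
  have hYr : Y * ρ ^ 2 ≤ 1 := by
    refine le_trans (mul_le_mul_of_nonneg_left ?_ hYp.le) hYQ
    rw [hρ2]
    calc κ ^ 2 * q ≤ κ ^ 2 * Q := mul_le_mul_of_nonneg_left hQq hκ2
      _ = 1 * (κ ^ 2 * Q) := (one_mul _).symm
      _ ≤ (κ ^ 2 * β) * (κ ^ 2 * Q) := mul_le_mul_of_nonneg_right hκβ (by positivity)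
      _ = _ := by ring
  -- the size of the shift
  obtain ⟨s, hs⟩ : ∃ s, s = 1 / Real.sqrt (K1 * β * Q) := ⟨_, rfl⟩
  have hKQ : 0 < K1 * β * Q := by positivity
  have hs0 : 0 < s := by rw [hs]; positivity
  have hs2 : s ^ 2 = 1 / (K1 * β * Q) := by
    rw [hs, div_pow, one_pow, Real.sq_sqrt hKQ.le]
  have hsr : s * q ≤ ρ := by
    have h1 : (s * q) ^ 2 ≤ ρ ^ 2 := by
      rw [mul_pow, hs2, hρ2, one_div, inv_mul_eq_div, div_le_iff₀ hKQ]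
      have h2 : (q : ℝ) ≤ K1 * Q := by
        calc (q : ℝ) ≤ Q := hQq
          _ = 1 * Q := (one_mul _).symm
          _ ≤ K1 * Q := mul_le_mul_of_nonneg_right hK11 hQp.le
      calc (q : ℝ) ^ 2 = 1 * (q * q) := by ring
        _ ≤ (κ ^ 2 * β) * (q * (K1 * Q)) := mul_le_mul hκβ
            (mul_le_mul_of_nonneg_left h2 hq0.le) (by positivity) (by positivity)
        _ = _ := by ring
    exact (pow_le_pow_iff_left₀ (by positivity) hρ0 two_ne_zero).1 h1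
  obtain ⟨K, hK⟩ : ∃ K, K = Kb e q m := ⟨_, rfl⟩
  have hKl : (1 / 2 : ℝ) ^ (e + 2) * q ≤ K := by rw [hK]; exact Kb_ge hq hqm
  have hK0 : 0 < K := lt_of_lt_of_le (by positivity) hKl
  obtain ⟨y, hy⟩ : ∃ y, y = s * K := ⟨_, rfl⟩
  have hy0 : 0 < y := by rw [hy]; positivity
  obtain ⟨t, ht⟩ : ∃ t, t = 1 / (16 * (n : ℝ)) * y := ⟨_, rfl⟩
  have ht0 : 0 < t := by rw [ht]; positivity
  have hX : ∀ (a : Fin n) (s' : ℝ), s' ^ 2 = s ^ 2 →
      EX μ L β (fun U : Ed (e + 3) (2 * m) → G => XX L β q a s' U) ≤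
        CE e N * (s ^ 2 * β * (q : ℝ) ^ (e + 1)) := fun a s' h => by
    rw [← h]
    exact XX_bound μ hm2 hN hq (by omega) hHR hr hq2β hκq a s'
  have key := union_EX μ (L := L) (β := β) hn hq hqm hC0.le hcar hs0 (y := y) (by rw [hy, hK])
    hy0 c ht (fun a => hX a s rfl) (fun a => hX a (-s) (by ring))
  have hu : uu e q κ = A0 * ρ := by
    rw [hA0, hρ]; exact uu_eq e q κ
  have h2p : (1 / 2 : ℝ) ^ (e + 2) * 2 ^ (e + 2) = 1 := by
    rw [← mul_pow]; norm_num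
  have hp0 : (0 : ℝ) < 2 ^ (e + 2) := by positivity
  -- the first term
  have t1 : 6 * n * (CE e N * (s ^ 2 * β * (q : ℝ) ^ (e + 1))) = 1 / 4 := by
    rw [hs2, ← hQ, hK1]
    field_simp
    ring
  -- the second term
  have t2 : (s / t * en μ L β (fun U : Ed (e + 3) (2 * m) → G => Er L q s U)) ^ 2 ≤ 1 / 4 := by
    have k1 := Er_en μ (L := L) (e := e) hHR hr hq hqm s
    rw [abs_of_pos hs0] at k1
    have k2 : s / t * en μ L β (fun U : Ed (e + 3) (2 * m) → G => Er L q s U) ≤ B1 * ρ := by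
      have k3 : s / t ≤ 2 ^ (e + 2) * (16 * n) / q := by
        rw [ht, hy, div_le_div_iff₀ (by positivity) hq0]
        have k4 : (1 : ℝ) * q ≤ 2 ^ (e + 2) * K := by
          calc (1 : ℝ) * q = 2 ^ (e + 2) * ((1 / 2 : ℝ) ^ (e + 2) * q) := by
                rw [← mul_assoc, mul_comm (2 ^ (e + 2) : ℝ), h2p]
            _ ≤ _ := mul_le_mul_of_nonneg_left hKl hp0.le
        calc s * q = s * (1 * q) := by ring
          _ ≤ s * (2 ^ (e + 2) * K) := mul_le_mul_of_nonneg_left k4 hs0.le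
          _ = 2 ^ (e + 2) * (16 * n) * (1 / (16 * n) * (s * K)) := by field_simp
      have k5 : 38 * uu e q κ + s * q ≤ (38 * A0 + 1) * ρ := by
        rw [hu]
        linarith
      calc _ ≤ 2 ^ (e + 2) * (16 * n) / q * (q * (38 * uu e q κ + s * q)) :=
            mul_le_mul k3 k1 (en_nonneg μ _) (by positivity)
        _ = 2 ^ (e + 2) * (16 * n) * (38 * uu e q κ + s * q) := by
            field_simp
        _ ≤ 2 ^ (e + 2) * (16 * n) * ((38 * A0 + 1) * ρ) :=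
            mul_le_mul_of_nonneg_left k5 (by positivity)
        _ = B1 * ρ := by rw [hB1]; ring
    have k0 : 0 ≤ s / t * en μ L β (fun U : Ed (e + 3) (2 * m) → G => Er L q s U) :=
      mul_nonneg (by positivity) (en_nonneg μ _)
    have k7 := pow_le_pow_left₀ k0 k2 2
    have k8 : (B1 * ρ) ^ 2 ≤ 1 / 4 := by
      have k9 : 4 * B1 ^ 2 * ρ ^ 2 ≤ Y * ρ ^ 2 := by
        refine mul_le_mul_of_nonneg_right ?_ (by positivity)
        rw [hY]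
        have : 0 ≤ 16 * K1 * B2 ^ 2 := by positivity
        linarith
      rw [mul_pow]
      linarith
    exact k7.trans k8
  -- the third term
  have t3 : 1 / y * EX μ L β (fun U : Ed (e + 3) (2 * m) → G => Nr L C0 q U) ≤ 1 / 4 := by
    have k1 := EX_Nr μ (L := L) (e := e) hHR hr hq hC0.le
    have k3 : EX μ L β (fun U : Ed (e + 3) (2 * m) → G => Nr L C0 q U) ≤
        2 * Real.sqrt C0 * ((16 * A0) ^ 2 * ρ ^ 2) := by
      refine k1.trans (le_of_eq ?_)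
      rw [hu]
      ring
    have k4 : s * q ≤ 2 ^ (e + 2) * y := by
      rw [hy]
      calc s * q = s * (2 ^ (e + 2) * ((1 / 2 : ℝ) ^ (e + 2) * q)) := by
            rw [← mul_assoc (2 ^ (e + 2) : ℝ), mul_comm (2 ^ (e + 2) : ℝ), h2p, one_mul]
        _ ≤ s * (2 ^ (e + 2) * K) :=
            mul_le_mul_of_nonneg_left (mul_le_mul_of_nonneg_left hKl hp0.le) hs0.le
        _ = _ := by ring
    have k5 : 1 / y * EX μ L β (fun U : Ed (e + 3) (2 * m) → G => Nr L C0 q U) ≤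
        B2 * ρ ^ 2 / (s * q) := by
      rw [one_div, inv_mul_le_iff₀ hy0]
      refine k3.trans ?_
      rw [← mul_div_assoc, le_div_iff₀ (by positivity)]
      calc 2 * Real.sqrt C0 * ((16 * A0) ^ 2 * ρ ^ 2) * (s * q) ≤
          2 * Real.sqrt C0 * ((16 * A0) ^ 2 * ρ ^ 2) * (2 ^ (e + 2) * y) :=
            mul_le_mul_of_nonneg_left k4 (by positivity)
        _ = _ := by rw [hB2]; ring
    refine k5.trans ?_
    rw [div_le_iff₀ (by positivity)]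
    have k6 : (B2 * ρ ^ 2) ^ 2 ≤ (1 / 4 * (s * q)) ^ 2 := by
      have e1 : (1 / 4 * (s * q)) ^ 2 = (q : ℝ) ^ 2 * (1 / (16 * K1 * β * Q)) := by
        rw [mul_pow, mul_pow, hs2]
        field_simp
        norm_num
      have e2 : (B2 * ρ ^ 2) ^ 2 = (q : ℝ) ^ 2 * (B2 ^ 2 * κ ^ 4) := by rw [hρ2]; ring
      rw [e1, e2]
      refine mul_le_mul_of_nonneg_left ?_ (by positivity)
      rw [le_div_iff₀ (by positivity)]
      have k7 : 16 * K1 * B2 ^ 2 ≤ Y := by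
        rw [hY]
        have : 0 ≤ 4 * B1 ^ 2 := by positivity
        linarith
      calc B2 ^ 2 * κ ^ 4 * (16 * K1 * β * Q) = (16 * K1 * B2 ^ 2) * (κ ^ 4 * β * Q) := by ring
        _ ≤ Y * (κ ^ 4 * β * Q) := mul_le_mul_of_nonneg_right k7 (by positivity)
        _ ≤ _ := hYQ
    exact (pow_le_pow_iff_left₀ (by positivity) (by positivity) two_ne_zero).1 k6
  -- conclusion
  have hW : 1 / (4 * (1 + 6 * (n : ℝ))) ≤
      EX μ L β (fun U : Ed (e + 3) (2 * m) → G => Wd L q c t U) := by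
    rw [div_le_iff₀ (by positivity)]
    linarith
  have hWe : EX μ L β (fun U : Ed (e + 3) (2 * m) → G => Wd L q c t U) =
      (1 / t) ^ 2 * EX μ L β (fun U : Ed (e + 3) (2 * m) → G => (‖psi L q U‖ - c) ^ 2) := by
    rw [← EX_smul]
    congr 1
    funext U
    unfold Wd
    ring
  rw [hWe] at hW
  have hf : t ^ 2 / (4 * (1 + 6 * (n : ℝ))) ≤
      EX μ L β (fun U : Ed (e + 3) (2 * m) → G => (‖psi L q U‖ - c) ^ 2) := by
    have h1 := mul_le_mul_of_nonneg_left hW (sq_nonneg t)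
    rw [← mul_assoc, ← mul_pow, mul_one_div_cancel ht0.ne', one_pow, one_mul] at h1
    rw [div_eq_mul_one_div]
    exact h1
  refine le_trans ?_ hf
  have ht2 : (1 / (16 * (n : ℝ)) * (1 / 2) ^ (e + 2)) ^ 2 * (s * q) ^ 2 ≤ t ^ 2 := by
    rw [← mul_pow]
    refine pow_le_pow_left₀ (by positivity) ?_ 2
    rw [ht, hy]
    calc 1 / (16 * (n : ℝ)) * (1 / 2) ^ (e + 2) * (s * q) =
        1 / (16 * (n : ℝ)) * (s * ((1 / 2) ^ (e + 2) * q)) := by ring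
      _ ≤ _ := mul_le_mul_of_nonneg_left (mul_le_mul_of_nonneg_left hKl hs0.le) (by positivity)
  have h3 : (1 / (16 * (n : ℝ)) * (1 / 2) ^ (e + 2)) ^ 2 / (K1 * (4 * (1 + 6 * n))) *
      ((q : ℝ) ^ 2 / (β * (q : ℝ) ^ (e + 1))) =
      (1 / (16 * (n : ℝ)) * (1 / 2) ^ (e + 2)) ^ 2 * (s * q) ^ 2 / (4 * (1 + 6 * (n : ℝ))) := by
    rw [mul_pow (s : ℝ), hs2, ← hQ]
    field_simp
  rw [h3]
  exact div_le_div_of_nonneg_right ht2 (by positivity)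

end

end Pool.Agent.Q234.SQ
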