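import Mathlib
import Pool.Agent.Q234.SQ.Dif3
import Pool.Agent.Q234.SQ.Var2
import Pool.Agent.Y14.Fin

/-!
# Slow decay of the time correlations
-/

open MeasureTheory Matrix Filter
open scoped Matrix.Norms.Frobenius Topology
open Pool.Agent.H906R3.YM hiding Pl
open Pool.Agent.W793.YM Pool.Agent.TH618.YM
open Pool.Agent.Y14

namespace Pool.Agent.Q234.SQ

set_option linter.unusedSectionVars false
set_option linter.unusedVariables false

noncomputable section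

variable {G : Type*} [Group G] [TopologicalSpace G] [IsTopologicalGroup G] [CompactSpace G]
  [SecondCountableTopology G] [MeasurableSpace G] [BorelSpace G] (μ : Measure G)
  [IsProbabilityMeasure μ] [μ.IsMulLeftInvariant] [μ.IsMulRightInvariant] [μ.IsInvInvariant]
  {N n : ℕ} {L : LD G N n}

lemma Fq_Sp {e m q : ℕ} [NeZero m] :
    Sp (Fin.last (e + 2)) fun U : Ed (e + 3) (2 * m) → G => Fq L q U := by
  intro U U' h
  show ‖phi eT L q U 0‖ = ‖phi eT L q U' 0‖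
  rw [phi_congr (U := U) (U' := U') fun w1 hw1 i hi => ?_]
  refine h _ _ ?_ hi
  rw [zero_add, dsp_apply]
  have h1 := hw1 (Fin.last (e + 2))
  rw [zz_last] at h1
  have h2 : w1.count (Fin.last (e + 2)) = 0 := by omega
  rw [h2, Nat.cast_zero]

/-- the variance of the observable -/
lemma var_Fq {e m q : ℕ} [NeZero m] {β cv : ℝ} {a : ℝ} (ha : 0 < a)
    (ha2 : a ^ 2 * ((q : ℝ) ^ 2 / (β * (q : ℝ) ^ (e + 1))) = 1)
    (hv : ∀ c : ℝ, cv * ((q : ℝ) ^ 2 / (β * (q : ℝ) ^ (e + 1))) ≤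
      EX μ L β (fun U : Ed (e + 3) (2 * m) → G => (‖psi L q U‖ - c) ^ 2)) (c : ℝ) :
    cv * Zt μ L β (fun _ : Ed (e + 3) (2 * m) → G => 1) ≤
      Zt μ L β (fun U : Ed (e + 3) (2 * m) → G => (a * Fq L q U - c) ^ 2) := by
  have k1 := hv (c / a)
  have k2 : EX μ L β (fun U : Ed (e + 3) (2 * m) → G => (‖psi L q U‖ - c / a) ^ 2) =
      EX μ L β (fun U : Ed (e + 3) (2 * m) → G => (Fq L q U - c / a) ^ 2) := by
    have k0 : (fun U : Ed (e + 3) (2 * m) → G => (‖psi L q U‖ - c / a) ^ 2) =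
        fun U => (Fq L q (tr ((2 * q) • eT (Fin.last (e + 2))) U) - c / a) ^ 2 := by
      funext U
      rw [Fq_tr, norm_psi]
    rw [k0]
    exact EX_tr μ ((2 * q) • eT (Fin.last (e + 2)))
      (fun U : Ed (e + 3) (2 * m) → G => (Fq L q U - c / a) ^ 2)
  rw [k2] at k1
  have k3 : EX μ L β (fun U : Ed (e + 3) (2 * m) → G => (a * Fq L q U - c) ^ 2) =
      a ^ 2 * EX μ L β (fun U : Ed (e + 3) (2 * m) → G => (Fq L q U - c / a) ^ 2) := by
    rw [← EX_smul]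
    have k0 : (fun U : Ed (e + 3) (2 * m) → G => (a * Fq L q U - c) ^ 2) =
        fun U => a ^ 2 * (Fq L q U - c / a) ^ 2 := by
      funext U
      rw [← mul_pow, mul_sub, mul_div_cancel₀ c ha.ne']
    rw [k0]
  have k4 : cv ≤ EX μ L β (fun U : Ed (e + 3) (2 * m) → G => (a * Fq L q U - c) ^ 2) := by
    rw [k3]
    calc cv = a ^ 2 * (cv * ((q : ℝ) ^ 2 / (β * (q : ℝ) ^ (e + 1)))) := by
          rw [mul_left_comm, ha2, mul_one]
      _ ≤ _ := mul_le_mul_of_nonneg_left k1 (sq_nonneg a)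
  unfold EX at k4
  rwa [le_div_iff₀ (Zt_pos μ β)] at k4

/-- the variation of the observable -/
lemma dif_Fq {e m q : ℕ} [NeZero m] {β C3 : ℝ} {a : ℝ}
    (ha3 : a ^ 2 * (q / (β * (q : ℝ) ^ (e + 1))) = 1 / q)
    (hD : EX μ L β (fun U : Ed (e + 3) (2 * m) → G =>
      (Fq L q (tr (eT (Fin.last (e + 2))) U) - Fq L q U) ^ 2) ≤
      C3 * (q / (β * (q : ℝ) ^ (e + 1)))) :
    Zt μ L β (fun U : Ed (e + 3) (2 * m) → G =>
      (a * Fq L q (tr (eT (Fin.last (e + 2))) U) - a * Fq L q U) ^ 2) ≤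
      C3 / q * Zt μ L β (fun _ : Ed (e + 3) (2 * m) → G => 1) := by
  have k3 : EX μ L β (fun U : Ed (e + 3) (2 * m) → G =>
      (a * Fq L q (tr (eT (Fin.last (e + 2))) U) - a * Fq L q U) ^ 2) =
      a ^ 2 * EX μ L β (fun U : Ed (e + 3) (2 * m) → G =>
        (Fq L q (tr (eT (Fin.last (e + 2))) U) - Fq L q U) ^ 2) := by
    rw [← EX_smul]
    congr 1
    funext U
    ring
  have k4 : EX μ L β (fun U : Ed (e + 3) (2 * m) → G =>
      (a * Fq L q (tr (eT (Fin.last (e + 2))) U) - a * Fq L q U) ^ 2) ≤ C3 / q := by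
    rw [k3]
    calc _ ≤ a ^ 2 * (C3 * (q / (β * (q : ℝ) ^ (e + 1)))) :=
          mul_le_mul_of_nonneg_left hD (sq_nonneg a)
      _ = C3 / q := by rw [mul_left_comm, ha3]; ring
  unfold EX at k4
  rwa [div_le_iff₀ (Zt_pos μ β)] at k4

/-- the exponent -/
def pp (e : ℕ) : ℕ := max 2 (e + 1)

lemma lv_log {q : ℕ} (hq : 1 ≤ q) {β : ℝ} (hβ : 16 * (q : ℝ) ≤ β) :
    (lv q : ℝ) ≤ 2 * Real.log β := by
  have hq1 : (1 : ℝ) ≤ q := by exact_mod_cast hq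
  have h1 : ((2 : ℝ) ^ lv q) ≤ β := by
    refine le_trans ?_ hβ
    exact_mod_cast lv_le hq
  have h2 := Real.log_le_log (by positivity) h1
  rw [Real.log_pow] at h2
  have h3 : (1 / 2 : ℝ) ≤ Real.log 2 := by
    have := Real.log_two_gt_d9
    linarith
  have h4 : (0 : ℝ) ≤ lv q := Nat.cast_nonneg _
  nlinarith

/-- truncated correlations of the observable -/
theorem trunc' (hn : 1 ≤ n) (hN : 1 ≤ N) (e : ℕ) {C0 : ℝ} (hC0 : 0 < C0)
    (hcar : ∀ g : G, dv L g ^ 2 ≤ ∑ a, fi L a g ^ 2 + C0 * dv L g ^ 4) :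
    ∃ c2 C4 cv β1 : ℝ, 0 < c2 ∧ 0 < C4 ∧ 0 < cv ∧ 3 ≤ β1 ∧
    ∀ q : ℕ, 1 ≤ q → C4 ≤ q → ∀ β : ℝ, β1 ≤ β → c2 * Real.log β ^ 4 * (q : ℝ) ^ pp e ≤ β →
      ∀ (m : ℕ) [NeZero m], 16 * (e + 3) * q < m →
      cv ≤ Zt μ L β (fun U : Ed (e + 3) (2 * m) → G => (nc e q β * Fq L q U) *
          (nc e q β * Fq L q U)) / Zt μ L β (fun _ : Ed (e + 3) (2 * m) → G => 1) -
        (Zt μ L β (fun U : Ed (e + 3) (2 * m) → G => nc e q β * Fq L q U) /
          Zt μ L β (fun _ : Ed (e + 3) (2 * m) → G => 1)) ^ 2 ∧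
      ∀ k : ℕ, 1 ≤ k → k ≤ m →
      Real.exp (-(C4 / q * k)) *
        (Zt μ L β (fun U : Ed (e + 3) (2 * m) → G => (nc e q β * Fq L q U) *
          (nc e q β * Fq L q U)) / Zt μ L β (fun _ : Ed (e + 3) (2 * m) → G => 1) -
        (Zt μ L β (fun U : Ed (e + 3) (2 * m) → G => nc e q β * Fq L q U) /
          Zt μ L β (fun _ : Ed (e + 3) (2 * m) → G => 1)) ^ 2) ≤
        Zt μ L β (fun U : Ed (e + 3) (2 * m) → G => (nc e q β * Fq L q U) *
          (nc e q β * Fq L q (tr (sv (Fin.last (e + 2)) ((2 * k - 1 : ℕ) : ZMod (2 * m))) U))) /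
          Zt μ L β (fun _ : Ed (e + 3) (2 * m) → G => 1) -
        (Zt μ L β (fun U : Ed (e + 3) (2 * m) → G => nc e q β * Fq L q U) /
          Zt μ L β (fun _ : Ed (e + 3) (2 * m) → G => 1)) ^ 2 := by
  obtain ⟨c1, cv, hc1, hc11, hcv, hvar⟩ := var_low μ (L := L) hn hN e hC0 hcar
  have hCD := CD_pos (e := e) hN
  obtain ⟨A, hA⟩ : ∃ A : ℝ, A = Y15.cA N := ⟨_, rfl⟩
  have hA0 : 0 < A := by rw [hA]; exact Y15.cA_pos hN
  obtain ⟨c2, hc2⟩ : ∃ c2 : ℝ, c2 = 7 * A ^ 2 + A ^ 4 / c1 + 10 * N * (e + 3) + 48 := ⟨_, rfl⟩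
  have p1 : 0 ≤ 7 * A ^ 2 := by positivity
  have p2 : 0 ≤ A ^ 4 / c1 := by positivity
  have p3 : (0 : ℝ) ≤ 10 * N * (e + 3) := by positivity
  refine ⟨c2, 9 * CD e N / cv, cv, Real.exp (1 + 1 / A) + 3, by rw [hc2]; positivity,
    by positivity, hcv, by have := Real.exp_pos (1 + 1 / A); linarith,
    fun q hq hq' β hβ hqβ m _ hm => ?_⟩
  have hβ3 : 3 ≤ β := by have := Real.exp_pos (1 + 1 / A); linarith
  have hβ0 : 0 < β := by linarith
  obtain ⟨lg, hlg⟩ : ∃ lg, lg = Real.log β := ⟨_, rfl⟩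
  have hlgA : 1 + 1 / A ≤ lg := by
    rw [hlg, Real.le_log_iff_exp_le hβ0]
    linarith
  have hA1 : 0 < 1 / A := by positivity
  have hlg1 : 1 ≤ lg := by linarith
  have hlgA' : 1 ≤ A * lg := by
    have h1 : A * (1 / A) ≤ A * lg := mul_le_mul_of_nonneg_left (by linarith) hA0.le
    rwa [mul_one_div_cancel hA0.ne'] at h1
  rw [← hlg] at hqβ
  have hq1 : (1 : ℝ) ≤ q := by exact_mod_cast hq
  have hq0 : (0 : ℝ) < q := by linarith
  -- powers of `q`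
  obtain ⟨X, hX⟩ : ∃ X : ℝ, X = (q : ℝ) ^ pp e := ⟨_, rfl⟩
  rw [← hX] at hqβ
  have hXq : (q : ℝ) ≤ X := by
    rw [hX]
    calc (q : ℝ) = (q : ℝ) ^ 1 := (pow_one _).symm
      _ ≤ _ := pow_le_pow_right₀ hq1 ((by norm_num : 1 ≤ 2).trans (le_max_left _ _))
  have hXq2 : (q : ℝ) ^ 2 ≤ X := by
    rw [hX]; exact pow_le_pow_right₀ hq1 (le_max_left _ _)
  have hXqe : (q : ℝ) ^ (e + 1) ≤ X := by
    rw [hX]; exact pow_le_pow_right₀ hq1 (le_max_right _ _)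
  have hX0 : 0 < X := by linarith
  have hlg4 : 1 ≤ lg ^ 4 := one_le_pow₀ hlg1
  have hlg3 : lg ^ 3 ≤ lg ^ 4 := pow_le_pow_right₀ hlg1 (by norm_num)
  have hlgX : X ≤ lg ^ 4 * X := le_mul_of_one_le_left hX0.le hlg4
  -- the consequences of the condition
  have key : ∀ c Y : ℝ, 0 ≤ c → c ≤ c2 → Y ≤ lg ^ 4 * X → c * Y ≤ β := by
    intro c Y hc hcc hY
    calc c * Y ≤ c * (lg ^ 4 * X) := mul_le_mul_of_nonneg_left hY hc
      _ ≤ c2 * (lg ^ 4 * X) := mul_le_mul_of_nonneg_right hcc (by positivity)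
      _ = c2 * lg ^ 4 * X := by ring
      _ ≤ β := hqβ
  have hq48 : 48 * (q : ℝ) ≤ β := key 48 q (by norm_num) (by rw [hc2]; linarith)
    (hXq.trans hlgX)
  have hqN : q * (10 * N * (e + 3)) ≤ β := by
    have := key (10 * N * (e + 3)) q p3 (by rw [hc2]; linarith) (hXq.trans hlgX)
    linarith
  obtain ⟨κ, hκ⟩ : ∃ κ : ℝ, κ = A * lg / Real.sqrt β := ⟨_, rfl⟩
  have hsb : 0 < Real.sqrt β := Real.sqrt_pos.2 hβ0
  have hκ2 : κ ^ 2 = A ^ 2 * lg ^ 2 / β := by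
    rw [hκ, div_pow, mul_pow, Real.sq_sqrt hβ0.le]
  have hκβ : 1 ≤ κ ^ 2 * β := by
    rw [hκ2, div_mul_cancel₀ _ hβ0.ne', ← mul_pow]
    exact one_le_pow₀ hlgA'
  have hκq : κ ^ 2 * ((q : ℝ) ^ 2 * (2 * lv q + 1)) ≤ 1 := by
    have h1 := lv_log hq (β := β) (by linarith)
    rw [← hlg] at h1
    have h2 : 2 * (lv q : ℝ) + 1 ≤ 5 * lg := by linarith
    have h3 : (7 * A ^ 2) * (lg ^ 3 * X) ≤ β := key _ _ p1 (by rw [hc2]; linarith)
      (mul_le_mul_of_nonneg_right hlg3 hX0.le)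
    rw [hκ2, div_mul_eq_mul_div, div_le_one hβ0]
    calc A ^ 2 * lg ^ 2 * ((q : ℝ) ^ 2 * (2 * lv q + 1)) ≤
          A ^ 2 * lg ^ 2 * (X * (5 * lg)) := by
          refine mul_le_mul_of_nonneg_left (mul_le_mul hXq2 h2 (by positivity) hX0.le)
            (by positivity)
      _ = 5 * (A ^ 2 * (lg ^ 3 * X)) := by ring
      _ ≤ 7 * (A ^ 2 * (lg ^ 3 * X)) := by
          have : 0 ≤ A ^ 2 * (lg ^ 3 * X) := by positivity
          linarith
      _ = 7 * A ^ 2 * (lg ^ 3 * X) := by ring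
      _ ≤ β := h3
  have hκQ : κ ^ 4 * β * (q : ℝ) ^ (e + 1) ≤ c1 := by
    have h3 : (A ^ 4 / c1) * (lg ^ 4 * X) ≤ β := key _ _ p2 (by rw [hc2]; linarith) le_rfl
    have h4 : κ ^ 4 * β = A ^ 4 * lg ^ 4 / β := by
      have : κ ^ 4 = (κ ^ 2) ^ 2 := by ring
      rw [this, hκ2]
      field_simp
    rw [h4, div_mul_eq_mul_div, div_le_iff₀ hβ0]
    calc A ^ 4 * lg ^ 4 * (q : ℝ) ^ (e + 1) ≤ A ^ 4 * lg ^ 4 * X :=
          mul_le_mul_of_nonneg_left hXqe (by positivity)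
      _ = c1 * ((A ^ 4 / c1) * (lg ^ 4 * X)) := by field_simp
      _ ≤ c1 * β := mul_le_mul_of_nonneg_left h3 hc1.le
  have hD : (1 + Real.log (5 * (e + 3) * q : ℕ)) * κ ^ 2 * (q : ℝ) ^ (e + 1) ≤ 1 := by
    have h1 : Real.log (5 * (e + 3) * q : ℕ) ≤ lg := by
      rw [hlg]
      refine Real.log_le_log ?_ ?_
      · have : 0 < 5 * (e + 3) * q := by positivity
        exact_mod_cast this
      · push_cast
        have hN1 : (1 : ℝ) ≤ N := by exact_mod_cast hN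
        have h5 : (0 : ℝ) ≤ q * (e + 3) := by positivity
        nlinarith
    have h3 : (7 * A ^ 2) * (lg ^ 3 * X) ≤ β := key _ _ p1 (by rw [hc2]; linarith)
      (mul_le_mul_of_nonneg_right hlg3 hX0.le)
    rw [hκ2]
    have h6 : (1 + Real.log (5 * (e + 3) * q : ℕ)) * (A ^ 2 * lg ^ 2 / β) * (q : ℝ) ^ (e + 1) =
        (1 + Real.log (5 * (e + 3) * q : ℕ)) * (A ^ 2 * lg ^ 2) * (q : ℝ) ^ (e + 1) / β := by
      ring
    rw [h6, div_le_one hβ0]
    calc (1 + Real.log (5 * (e + 3) * q : ℕ)) * (A ^ 2 * lg ^ 2) * (q : ℝ) ^ (e + 1) ≤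
          (2 * lg) * (A ^ 2 * lg ^ 2) * X := by
          refine mul_le_mul (mul_le_mul_of_nonneg_right (by linarith) (by positivity)) hXqe
            (by positivity) (by positivity)
      _ = 2 * (A ^ 2 * (lg ^ 3 * X)) := by ring
      _ ≤ 7 * (A ^ 2 * (lg ^ 3 * X)) := by
          have : 0 ≤ A ^ 2 * (lg ^ 3 * X) := by positivity
          linarith
      _ = 7 * A ^ 2 * (lg ^ 3 * X) := by ring
      _ ≤ β := h3
  -- the volume
  have hm16 : 16 * q ≤ m := by nlinarith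
  have hm5 : 5 * q < 2 * m := by omega
  have hm2 : 2 ≤ m := by omega
  have hmq : 5 * (e + 3) * q < 2 * m := by nlinarith
  have hHR : HR μ L (e + 3) m β κ (16 * q) := by
    rw [hκ, hA, hlg]
    refine HR_of μ hN (by omega) hβ3 hm2 (by linarith) ?_
    exact_mod_cast hm16
  have hv := hvar q β κ (16 * q) hq hβ0 hκβ hκq hκQ le_rfl m hm5 hHR
  have hDb := dif_bound μ (L := L) (n := n) (e := e) hHR le_rfl hm2 hβ0 hq hmq hκβ hD hqN
  have ha := nc_pos (e := e) hq hβ0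
  have ha2 := nc_sq (e := e) hq hβ0
  have ha3 := nc_sq' (e := e) hq hβ0
  refine trunc_gen μ (L := L) (τ := Fin.last (e + 2)) hm2 hβ0.le
    (O := fun U : Ed (e + 3) (2 * m) → G => nc e q β * Fq L q U)
    (continuous_const.mul Fq_cont) (fun γ U => ?_) (fun U U' h => ?_) hcv hCD hq0 hq'
    (var_Fq μ ha ha2 hv) (dif_Fq μ ha3 hDb)
  · have h1 : Fq L q (gt γ U) = Fq L q U := Fq_GI (L := L) (q := q) γ U
    show nc e q β * Fq L q (gt γ U) = nc e q β * Fq L q U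
    rw [h1]
  · have h1 : Fq L q U = Fq L q U' := Fq_Sp (L := L) (q := q) (e := e) (m := m) U U' h
    show nc e q β * Fq L q U = nc e q β * Fq L q U'
    rw [h1]

/-- the choice of the scale -/
lemma scale2 {C2 C4 b1 : ℝ} (hC2 : 0 < C2) (hC4 : 0 < C4) {P : ℕ} (hP : 1 ≤ P) :
    ∃ β₀ C5 : ℝ, b1 ≤ β₀ ∧ 3 ≤ β₀ ∧ 0 < C5 ∧ ∀ β : ℝ, β₀ ≤ β → ∃ q : ℕ, 1 ≤ q ∧ C4 ≤ q ∧
      C2 * Real.log β ^ 4 * (q : ℝ) ^ P ≤ β ∧
      (q : ℝ) ≤ C5 * (β / Real.log β ^ 4) ^ (1 / (P : ℝ)) ∧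
      C4 / q ≤ C5 * (Real.log β ^ 4 / β) ^ (1 / (P : ℝ)) := by
  obtain ⟨b0, C5, h1, h2, h3⟩ := scale' hC2 hC4 hP
  have hlim : Tendsto (fun β : ℝ => β / Real.log β ^ 4) atTop atTop := by
    have h4 : Tendsto (fun β : ℝ => Real.log β ^ 4 / β) atTop (𝓝 0) := by
      have h5 := Real.tendsto_pow_log_div_mul_add_atTop 1 0 4 one_ne_zero
      simpa using h5
    have h6 : Tendsto (fun β : ℝ => Real.log β ^ 4 / β) atTop (𝓝[>] 0) := by
      refine tendsto_nhdsWithin_iff.2 ⟨h4, ?_⟩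
      filter_upwards [eventually_gt_atTop (1 : ℝ)] with β hβ
      have := Real.log_pos hβ
      show (0 : ℝ) < Real.log β ^ 4 / β
      exact div_pos (pow_pos this 4) (by linarith)
    have h7 := h6.inv_tendsto_nhdsGT_zero
    refine h7.congr fun β => ?_
    rw [Pi.inv_apply, inv_div]
  obtain ⟨b2, hb2⟩ := (hlim.eventually_ge_atTop b0).exists_forall_of_atTop
  refine ⟨max (max b1 3) b2, C5, (le_max_left _ _).trans (le_max_left _ _),
    (le_max_right _ _).trans (le_max_left _ _), h2, fun β hβ => ?_⟩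
  have hβ3 : 3 ≤ β := ((le_max_right _ _).trans (le_max_left _ _)).trans hβ
  have hβ0 : 0 < β := by linarith
  have hlg : 0 < Real.log β := Real.log_pos (by linarith)
  obtain ⟨q, q1, q2, q3, q4, q5⟩ := h3 (β / Real.log β ^ 4) (hb2 β ((le_max_right _ _).trans hβ))
  refine ⟨q, q1, q2, ?_, q4, ?_⟩
  · rw [le_div_iff₀ (by positivity)] at q3
    linarith
  · rw [Real.rpow_neg (by positivity), ← Real.inv_rpow (by positivity), inv_div] at q5
    exact q5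

end

end Pool.Agent.Q234.SQ
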