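import Mathlib
import Pool.Agent.Q234.SQ.Fin
import Pool.Agent.Y14.Main

/-!
# The mass gap at weak coupling is at most `C ((log β) ^ 4 / β) ^ (1 / max (2, d - 2))`
-/

open MeasureTheory Matrix Filter
open scoped Matrix.Norms.Frobenius Topology

namespace Pool.Agent.Q234.SQ.Wilson

set_option linter.unusedSectionVars false

noncomputable section

open Pool.Agent Pool.Agent.H906R3 Pool.Agent.W793 Pool.Agent.TH618
open Pool.Agent.Y14.Wilson Pool.Agent.Q234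

variable {N n d l D : ℕ} {G : Subgroup (UU N)}

section bridge

variable [CompactSpace G] [SecondCountableTopology G] [MeasurableSpace G] [BorelSpace G]
  (μ : Measure G) [IsProbabilityMeasure μ] [μ.IsHaarMeasure] (B : LieBasis G n)

/-- the observable on the infinite lattice -/
def FZ (B : LieBasis G n) (e q : ℕ) (a : ℝ) (V : LinkZ (e + 2 + 1) → G) : ℝ :=
  a * ‖SQ.phi (fun k => (Pi.single k 1 : Fin (e + 3) → ℤ)) (ld B) q V 0‖

lemma FZ_cont (e q : ℕ) (a : ℝ) : Continuous (FZ B e q a) := by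
  have h1 : Continuous fun V : LinkZ (e + 2 + 1) → G =>
      ∑ o : Y14.OO e q, ((ld B).rho (Y14.tp (fun k => (Pi.single k 1 : Fin (e + 3) → ℤ)) V 0
        (SQ.PP o)) - (ld B).rho (Y14.tp (fun k => (Pi.single k 1 : Fin (e + 3) → ℤ)) V 0
        (SQ.QQ o))) :=
    continuous_finsetSum _ fun o _ =>
      ((ld B).cont.comp (Y14.tp_cont 0 (SQ.PP o))).sub
        ((ld B).cont.comp (Y14.tp_cont 0 (SQ.QQ o)))
  exact continuous_const.mul
    (h1.const_smul ((Fintype.card (Y14.OO e q) : ℝ))⁻¹).norm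

lemma FZ_local {e q R : ℕ} (hR : 5 * q < R) (a : ℝ) : IsLocal R (FZ B e q a) where
  cont := FZ_cont B e q a
  inv γ V := by
    have h := SQ.phi_gauge (u := fun k => (Pi.single k 1 : Fin (e + 3) → ℤ)) (L := ld B) (q := q)
      γ V 0
    have h1 : (gauge γ V : LinkZ (e + 2 + 1) → G) =
      fun f => γ f.1 * V f * (γ (f.1 + Pi.single f.2 1))⁻¹ := rfl
    unfold FZ
    rw [h1, h, YM.norm_rmul, YM.norm_lmul]
  loc V V' h := by
    unfold FZ
    rw [SQ.phi_congr (U := V) (U' := V') fun w1 hw1 i hi => ?_]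
    refine h _ fun j => ?_
    simp only [zero_add]
    rw [dspZ]
    have h1 := (hw1 j).trans (Y14.zz_le j)
    constructor
    · exact Int.natCast_nonneg _
    · have : w1.count j < R := by omega
      exact_mod_cast this

omit [CompactSpace G] [SecondCountableTopology G] [MeasurableSpace G] [BorelSpace G] in
lemma FZ_time (e q : ℕ) (a : ℝ) : AtTimeZero (FZ B e q a) := by
  intro V V' h
  unfold FZ
  rw [SQ.phi_congr (U := V) (U' := V') fun w1 hw1 i hi => ?_]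
  refine h _ ?_ hi
  simp only [zero_add]
  rw [dspZ]
  have h1 := hw1 (Fin.last (e + 2))
  rw [Y14.zz_last] at h1
  have h2 : w1.count (Fin.last (e + 2)) = 0 := by omega
  rw [h2, Nat.cast_zero]

omit [CompactSpace G] [SecondCountableTopology G] [MeasurableSpace G] [BorelSpace G] in
lemma FZ_lf {e q m : ℕ} [NeZero m] (a : ℝ) (U : YM.Ed (e + 2 + 1) (2 * m) → G) :
    FZ B e q a (YM.lf U) = a * SQ.Fq (ld B) q U := by
  unfold FZ SQ.Fq
  have h := SQ.phi_map (L := ld B) (q := q) (u := fun k => (Pi.single k 1 : Fin (e + 3) → ℤ))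
    (u' := YM.eT) (U := YM.lf U) (U' := U) (prj (e + 3) (2 * m)) (fun i => by
      funext j
      show ((Pi.single i 1 : Fin (e + 3) → ℤ) j : ZMod (2 * m)) = YM.eT i j
      by_cases h : j = i
      · subst h; simp [YM.eT]
      · simp [YM.eT, h]) (fun f => rfl) 0
  rw [h, map_zero]

include B in
theorem finite_part (hG : IsClosed (G : Set (UU N))) (hn : 1 ≤ n) (hN : 1 ≤ N) (e : ℕ) :
    ∃ C c β₀ : ℝ, 0 < C ∧ 0 < c ∧ 3 ≤ β₀ ∧
    ∀ β : ℝ, β₀ ≤ β → ∃ (R : ℕ) (F : (LinkZ (e + 2 + 1) → G) → ℝ),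
      (R : ℝ) ≤ C * (β / Real.log β ^ 4) ^ (1 / (SQ.pp e : ℝ)) ∧ IsLocal R F ∧ AtTimeZero F ∧
      ∀ (l : ℕ) [NeZero l], Even l → R < l → c ≤ corr l μ β F 0 ∧ ∀ t : ℕ, Odd t → t < l →
        Real.exp (-(C * (Real.log β ^ 4 / β) ^ (1 / (SQ.pp e : ℝ)) * t)) * corr l μ β F 0 ≤
          corr l μ β F t := by
  have := right_inv μ
  have := inv_inv' μ
  obtain ⟨C0, hC0, hcar⟩ := YM.cartan' (fm B) hG
  obtain ⟨c2, C4, c1, β1, hc2, hC4, hc1, hβ1, htr⟩ := SQ.trunc' μ (L := ld B) hn hN e hC0 hcar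
  have hpp : 1 ≤ SQ.pp e := (by norm_num : 1 ≤ 2).trans (le_max_left _ _)
  obtain ⟨β₀, C5, hβ₀1, hβ₀3, hC5, hsc⟩ := SQ.scale2 (b1 := β1) hc2 hC4 hpp
  have hE : (0 : ℝ) ≤ e := Nat.cast_nonneg e
  refine ⟨32 * (e + 3) * C5, c1, β₀, by positivity, hc1, hβ₀3, fun β hβ => ?_⟩
  have hβ3 : 3 ≤ β := hβ₀3.trans hβ
  have hβ0 : 0 < β := by linarith
  obtain ⟨q, hq1, hq2, hq3, hq4, hq5⟩ := hsc β hβ
  obtain ⟨κ, hκ⟩ : ∃ κ : ℝ, κ = 1 / (SQ.pp e : ℝ) := ⟨_, rfl⟩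
  rw [← hκ] at hq4 hq5 ⊢
  obtain ⟨a, ha⟩ : ∃ a, a = Y14.nc e q β := ⟨_, rfl⟩
  obtain ⟨F, hF⟩ : ∃ F : (LinkZ (e + 2 + 1) → G) → ℝ, F = FZ B e q a := ⟨_, rfl⟩
  have hq5q : 5 * q < 32 * (e + 3) * q := by nlinarith
  refine ⟨32 * (e + 3) * q, F, ?_, by rw [hF]; exact FZ_local B hq5q a,
    by rw [hF]; exact FZ_time B e q a, ?_⟩
  · push_cast
    calc 32 * ((e : ℝ) + 3) * q ≤ 32 * (e + 3) * (C5 * (β / Real.log β ^ 4) ^ κ) :=
          mul_le_mul_of_nonneg_left hq4 (by positivity)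
      _ = _ := by ring
  · intro l _ hl hRl
    obtain ⟨m, rfl⟩ := even_iff_two_dvd.1 hl
    haveI hm0 : NeZero m := ⟨by rintro rfl; omega⟩
    have hmm : 16 * (e + 3) * q < m := by
      have : 32 * (e + 3) * q = 2 * (16 * (e + 3) * q) := by ring
      omega
    obtain ⟨h0, h1⟩ := htr q hq1 hq2 β (hβ₀1.trans hβ) hq3 m hmm
    rw [← ha] at h0 h1
    have hFO : ∀ U : YM.Ed (e + 2 + 1) (2 * m) → G, F (YM.lf U) = a * SQ.Fq (ld B) q U :=
      fun U => by rw [hF]; exact FZ_lf B a U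
    have hsh : ∀ (t : ℕ) (U : YM.Ed (e + 2 + 1) (2 * m) → G), F (shift t (YM.lf U)) =
        a * SQ.Fq (ld B) q (YM.tr (YM.sv (Fin.last (e + 2)) (t : ZMod (2 * m))) U) := by
      intro t U
      rw [← hFO]
      exact congrArg F (YM.tz_lf (Fin.last (e + 2)) t U)
    have h2 : ∀ t : ℕ, corr (2 * m) μ β F t =
        YM.Zt μ (ld B) β (fun U : YM.Ed (e + 3) (2 * m) → G => (a * SQ.Fq (ld B) q U) *
          (a * SQ.Fq (ld B) q (YM.tr (YM.sv (Fin.last (e + 2)) (t : ZMod (2 * m))) U))) /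
          YM.Zt μ (ld B) β (fun _ : YM.Ed (e + 3) (2 * m) → G => 1) -
        (YM.Zt μ (ld B) β (fun U : YM.Ed (e + 3) (2 * m) → G => a * SQ.Fq (ld B) q U) /
          YM.Zt μ (ld B) β (fun _ : YM.Ed (e + 3) (2 * m) → G => 1)) ^ 2 := by
      intro t
      unfold corr
      rw [expect_eq μ B, expect_eq μ B, expect_eq μ B]
      simp only [hFO, hsh]
      rw [YM.Zt_tr μ β _ (fun U : YM.Ed (e + 3) (2 * m) → G => a * SQ.Fq (ld B) q U), pow_two]
    have h3 : corr (2 * m) μ β F 0 =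
        YM.Zt μ (ld B) β (fun U : YM.Ed (e + 3) (2 * m) → G => (a * SQ.Fq (ld B) q U) *
          (a * SQ.Fq (ld B) q U)) /
          YM.Zt μ (ld B) β (fun _ : YM.Ed (e + 3) (2 * m) → G => 1) -
        (YM.Zt μ (ld B) β (fun U : YM.Ed (e + 3) (2 * m) → G => a * SQ.Fq (ld B) q U) /
          YM.Zt μ (ld B) β (fun _ : YM.Ed (e + 3) (2 * m) → G => 1)) ^ 2 := by
      have hs0 : YM.sv (Fin.last (e + 2)) ((0 : ℕ) : ZMod (2 * m)) = 0 := by
        rw [Nat.cast_zero]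
        exact Pi.single_zero _
      rw [h2, hs0]
      simp only [YM.tr_zero]
    rw [← h3] at h0 h1
    refine ⟨h0, fun t ht htl => ?_⟩
    obtain ⟨k', hk'⟩ := ht
    obtain ⟨k, hk⟩ : ∃ k, k = k' + 1 := ⟨_, rfl⟩
    have hkt : t = 2 * k - 1 := by omega
    have h4 := h1 k (by omega) (by omega)
    rw [← hkt, ← h2] at h4
    refine le_trans (mul_le_mul_of_nonneg_right (Real.exp_le_exp.2 (neg_le_neg ?_))
      (hc1.le.trans h0)) h4
    have h3 : (k : ℝ) ≤ t := by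
      have : k ≤ t := by omega
      exact_mod_cast this
    have h4 : 0 ≤ C4 / q := by positivity
    have h5 : (0 : ℝ) ≤ t := Nat.cast_nonneg t
    have hlg : 0 < Real.log β := Real.log_pos (by linarith)
    calc C4 / q * k ≤ C4 / q * t := mul_le_mul_of_nonneg_left h3 h4
      _ ≤ 32 * (e + 3) * C5 * (Real.log β ^ 4 / β) ^ κ * t := by
          refine mul_le_mul_of_nonneg_right (hq5.trans ?_) h5
          have h6 : 0 ≤ C5 * (Real.log β ^ 4 / β) ^ κ := by positivity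
          have h7 : (1 : ℝ) ≤ 32 * (e + 3) := by linarith
          calc C5 * (Real.log β ^ 4 / β) ^ κ = 1 * (C5 * (Real.log β ^ 4 / β) ^ κ) :=
                (one_mul _).symm
            _ ≤ 32 * (e + 3) * (C5 * (Real.log β ^ 4 / β) ^ κ) :=
                mul_le_mul_of_nonneg_right h7 h6
            _ = _ := by ring

end bridge

theorem main {N n D : ℕ} (G : Subgroup (UU N)) (hG : IsClosed (G : Set (UU N)))
    [MeasurableSpace G] [BorelSpace G] (μ : Measure G) [IsProbabilityMeasure μ] [μ.IsHaarMeasure]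
    (B : LieBasis G n) (hn : 1 ≤ n) (hD : 2 ≤ D) :
    ∃ C c β₀ : ℝ, 0 < C ∧ 0 < c ∧ 3 ≤ β₀ ∧ ∀ β : ℝ, β₀ ≤ β →
      (∃ (R : ℕ) (F : (LinkZ (D + 1) → G) → ℝ), (R : ℝ) ≤ C * (β / Real.log β ^ 4) ^ (1 / ((max 2 (D - 1) : ℕ) : ℝ)) ∧
        IsLocal R F ∧ AtTimeZero F ∧
        (∀ (l : ℕ) [NeZero l], Even l → R < l → c ≤ corr l μ β F 0 ∧ ∀ t : ℕ, Odd t → t < l →
          Real.exp (-(C * (Real.log β ^ 4 / β) ^ (1 / ((max 2 (D - 1) : ℕ) : ℝ)) * t)) * corr l μ β F 0 ≤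
            corr l μ β F t) ∧
        ∀ ν : Measure (LinkZ (D + 1) → G), IsInfVol μ β ν → c ≤ corrZ ν F 0 ∧
          ∀ t : ℕ, Odd t → Real.exp (-(C * (Real.log β ^ 4 / β) ^ (1 / ((max 2 (D - 1) : ℕ) : ℝ)) * t)) * corrZ ν F 0 ≤
            corrZ ν F t) ∧
      (∀ M : ℝ, Clusters D μ β M → M ≤ C * (Real.log β ^ 4 / β) ^ (1 / ((max 2 (D - 1) : ℕ) : ℝ))) ∧
      (∀ ν : Measure (LinkZ (D + 1) → G), IsInfVol μ β ν → ∀ M : ℝ, ClustersZ ν M →
        M ≤ C * (Real.log β ^ 4 / β) ^ (1 / ((max 2 (D - 1) : ℕ) : ℝ))) ∧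
      ∃ ν : Measure (LinkZ (D + 1) → G), IsInfVol μ β ν := by
  have : CompactSpace G := by
    have h1 : IsCompact (G : Set (UU N)) := hG.isCompact
    exact isCompact_iff_compactSpace.1 h1
  have h00 : SecondCountableTopology (UU N) := TopologicalSpace.Subtype.secondCountableTopology _
  have : SecondCountableTopology G := TopologicalSpace.Subtype.secondCountableTopology _
  obtain ⟨e, rfl⟩ : ∃ e, D = e + 2 := ⟨D - 2, by omega⟩
  have hN : 1 ≤ N := by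
    rcases Nat.eq_zero_or_pos N with h | h
    · subst h
      have h1 := B.orth ⟨0, hn⟩ ⟨0, hn⟩
      rw [if_pos rfl] at h1
      have h2 : trace ((B.X ⟨0, hn⟩)ᴴ * B.X ⟨0, hn⟩) = 0 := by
        unfold Matrix.trace
        exact Finset.sum_empty
      rw [h2] at h1
      norm_num at h1
    · exact h
  obtain ⟨C, c, β₀, hC, hc, hβ₀, hmain⟩ := finite_part μ B hG hn hN e
  have hκ : SQ.pp e = max 2 (e + 2 - 1) := rfl
  rw [hκ] at hmain
  refine ⟨C, c, β₀, hC, hc, hβ₀, fun β hβ => ?_⟩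
  obtain ⟨R, F, hR, hF, hF0, hcorr⟩ := hmain β hβ
  obtain ⟨A, hA⟩ : ∃ A : ℝ, A = C * (Real.log β ^ 4 / β) ^ (1 / ((max 2 (e + 2 - 1) : ℕ) : ℝ)) := ⟨_, rfl⟩
  rw [← hA] at hcorr ⊢
  have hcorr' : ∀ (l : ℕ) [NeZero l], Even l → R < l → ∀ t : ℕ, Odd t → t < l →
      c * Real.exp (-(A * t)) ≤ corr l μ β F t := by
    intro l _ hl hRl t ht htl
    obtain ⟨h1, h2⟩ := hcorr l hl hRl
    rw [mul_comm]
    exact (mul_le_mul_of_nonneg_left h1 (Real.exp_pos _).le).trans (h2 t ht htl)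
  have hinf : ∀ ν : Measure (LinkZ (e + 2 + 1) → G), IsInfVol μ β ν → c ≤ corrZ ν F 0 ∧
      ∀ t : ℕ, Odd t → Real.exp (-(A * t)) * corrZ ν F 0 ≤ corrZ ν F t := by
    intro ν hν
    obtain ⟨φ, hφ, hlim⟩ := hν.lim
    have h1 : ∀ t, Tendsto (fun j => corr (2 * (φ j + 1)) μ β F t) atTop (𝓝 (corrZ ν F t)) :=
      fun t => (hlim _ _ (local_mul hF t)).sub
        ((hlim _ _ hF).mul (hlim _ _ (local_shift hF t)))
    refine ⟨ge_of_tendsto (h1 0) ?_, fun t ht =>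
      le_of_tendsto_of_tendsto ((h1 0).const_mul _) (h1 t) ?_⟩
    · filter_upwards [hφ.eventually_ge_atTop R] with j hj
      exact (hcorr (2 * (φ j + 1)) (even_two_mul _) (by omega)).1
    · filter_upwards [hφ.eventually_ge_atTop (R + t)] with j hj
      exact (hcorr (2 * (φ j + 1)) (even_two_mul _) (by omega)).2 t ht (by omega)
  refine ⟨⟨R, F, hR, hF, hF0, hcorr, hinf⟩, fun M hM => ?_, fun ν hν M hM => ?_,
    exists_infVol μ B β⟩
  · obtain ⟨K, l₀, hK⟩ := hM R F hF hF0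
    refine rate (K := K) hc fun t ht => ?_
    obtain ⟨l, hl⟩ : ∃ l, l = 2 * (l₀ + R + t + 1) := ⟨_, rfl⟩
    haveI : NeZero l := ⟨by omega⟩
    have h1 : Even l := by rw [hl]; exact even_two_mul _
    exact (hcorr' l h1 (by omega) t ht (by omega)).trans
      ((le_abs_self _).trans (hK l h1 (by omega) t (by omega)))
  · obtain ⟨K, hK⟩ := hM R F hF hF0
    obtain ⟨h1, h2⟩ := hinf ν hν
    refine rate (K := K) hc fun t ht => ?_
    rw [mul_comm]
    exact ((mul_le_mul_of_nonneg_left h1 (Real.exp_pos _).le).trans (h2 t ht)).trans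
      ((le_abs_self _).trans (hK t))


end

end Pool.Agent.Q234.SQ.Wilson
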